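import Pool.Agent.Helper741.Tits

set_option autoImplicit false
set_option linter.unusedSectionVars false

namespace Pool.Agent.H176Z

open Pool.Agent.Helper741

variable {B : Type*} [Fintype B] [DecidableEq B]

/-- The invariant symmetric form. -/
noncomputable def K (M : CoxeterMatrix B) (v w : B → ℝ) : ℝ := ∑ i, v i * coroot M i w

variable {M : CoxeterMatrix B}

lemma coroot_apply (i : B) (w : B → ℝ) : coroot M i w = ∑ j, (-2 * cc M i j) * w j := by
  simp [coroot, LinearMap.sum_apply]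

lemma K_eq (v w : B → ℝ) : K M v w = ∑ i, ∑ j, v i * ((-2 * cc M i j) * w j) := by
  unfold K
  refine Finset.sum_congr rfl fun i _ => ?_
  rw [coroot_apply, Finset.mul_sum]

lemma K_comm (v w : B → ℝ) : K M v w = K M w v := by
  rw [K_eq, K_eq, Finset.sum_comm]
  refine Finset.sum_congr rfl fun i _ => Finset.sum_congr rfl fun j _ => ?_
  rw [cc_symm M j i]; ring

lemma K_ee_left (i : B) (w : B → ℝ) : K M (ee i) w = coroot M i w := by
  unfold K
  rw [Finset.sum_eq_single i]
  · simp [ee]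
  · intro j _ hj
    simp [ee, hj]
  · simp

lemma K_ee_ee (i j : B) : K M (ee i) (ee j) = -2 * cc M i j := by
  rw [K_ee_left, coroot_ee]

lemma K_add_left (v v' w : B → ℝ) : K M (v + v') w = K M v w + K M v' w := by
  unfold K; rw [← Finset.sum_add_distrib]
  refine Finset.sum_congr rfl fun i _ => ?_
  simp [add_mul]

lemma K_smul_left (a : ℝ) (v w : B → ℝ) : K M (a • v) w = a * K M v w := by
  unfold K; rw [Finset.mul_sum]
  refine Finset.sum_congr rfl fun i _ => ?_
  simp [mul_assoc]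

lemma K_neg_left (v w : B → ℝ) : K M (-v) w = - K M v w := by
  have := K_smul_left (M := M) (-1) v w
  simpa using this

lemma K_sub_left (v v' w : B → ℝ) : K M (v - v') w = K M v w - K M v' w := by
  rw [sub_eq_add_neg, K_add_left, K_neg_left]; ring

lemma K_add_right (v w w' : B → ℝ) : K M v (w + w') = K M v w + K M v w' := by
  rw [K_comm, K_add_left, K_comm w, K_comm w']

lemma K_smul_right (a : ℝ) (v w : B → ℝ) : K M v (a • w) = a * K M v w := by
  rw [K_comm, K_smul_left, K_comm]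

lemma K_neg_right (v w : B → ℝ) : K M v (-w) = - K M v w := by
  rw [K_comm, K_neg_left, K_comm]

lemma K_sub_right (v w w' : B → ℝ) : K M v (w - w') = K M v w - K M v w' := by
  rw [K_comm, K_sub_left, K_comm w, K_comm w']

lemma K_zero_left (w : B → ℝ) : K M 0 w = 0 := by simp [K]

lemma K_sg (i : B) (v w : B → ℝ) : K M (sg M i v) (sg M i w) = K M v w := by
  rw [sg_apply, sg_apply, K_sub_left, K_sub_right, K_sub_right, K_smul_left, K_smul_left,
    K_smul_right, K_smul_right, K_ee_ee, K_ee_left, K_comm v (ee i), K_ee_left, cc_self]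
  ring

variable {W : Type*} [Group W] (cs : CoxeterSystem M W)

lemma geo_mul_apply (u w : W) (v : B → ℝ) : geo cs (u * w) v = geo cs u (geo cs w v) := by
  rw [map_mul, Module.End.mul_apply]

@[simp] lemma geo_one_apply (v : B → ℝ) : geo cs 1 v = v := by
  rw [map_one, Module.End.one_apply]

lemma K_geo (w : W) (v v' : B → ℝ) : K M (geo cs w v) (geo cs w v') = K M v v' := by
  induction w using cs.simple_induction_left generalizing v v' with
  | one => simp
  | mul_simple_left w i ih =>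
    rw [geo_mul_apply, geo_mul_apply, geo_simple, K_sg, ih]

/-- roots -/
def IsRoot (r : B → ℝ) : Prop := ∃ w i, r = geo cs w (ee i)

/-- `r` lies in the positive cone of the chamber `w` -/
def Pos (w : W) (r : B → ℝ) : Prop := 0 ≤ geo cs w⁻¹ r

/-- `r` lies in the negative cone of the chamber `w` -/
def Neg (w : W) (r : B → ℝ) : Prop := geo cs w⁻¹ r ≤ 0

variable {cs}

lemma isRoot_geo_ee (w : W) (i : B) : IsRoot cs (geo cs w (ee i)) := ⟨w, i, rfl⟩

lemma isRoot_ee (i : B) : IsRoot cs (ee i) := ⟨1, i, by simp⟩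

lemma IsRoot.map {r : B → ℝ} (h : IsRoot cs r) (w : W) : IsRoot cs (geo cs w r) := by
  obtain ⟨u, i, rfl⟩ := h
  exact ⟨w * u, i, by rw [geo_mul_apply]⟩

lemma geo_mul_simple_ee (w : W) (i : B) :
    geo cs (w * cs.simple i) (ee i) = - geo cs w (ee i) := by
  rw [geo_mul_apply, geo_simple, sg_ee_self, map_neg]

lemma IsRoot.neg {r : B → ℝ} (h : IsRoot cs r) : IsRoot cs (-r) := by
  obtain ⟨u, i, rfl⟩ := h
  exact ⟨u * cs.simple i, i, by rw [geo_mul_simple_ee]⟩

lemma IsRoot.ne_zero {r : B → ℝ} (h : IsRoot cs r) : r ≠ 0 := by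
  obtain ⟨u, i, rfl⟩ := h
  exact geo_ee_ne_zero cs u i

lemma IsRoot.K_self {r : B → ℝ} (h : IsRoot cs r) : K M r r = 2 := by
  obtain ⟨u, i, rfl⟩ := h
  rw [K_geo, K_ee_ee, cc_self]; norm_num

lemma IsRoot.nonneg_or {r : B → ℝ} (h : IsRoot cs r) : 0 ≤ r ∨ r ≤ 0 := by
  obtain ⟨u, i, rfl⟩ := h
  rcases cs.length_mul_simple u i with h1 | h1
  · left; apply geo_nonneg; omega
  · right; apply geo_nonpos; omega

lemma IsRoot.pos_or_neg {r : B → ℝ} (h : IsRoot cs r) (w : W) : Pos cs w r ∨ Neg cs w r :=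
  (h.map w⁻¹).nonneg_or

lemma IsRoot.not_pos_neg {r : B → ℝ} (h : IsRoot cs r) {w : W} (h1 : Pos cs w r)
    (h2 : Neg cs w r) : False :=
  (h.map w⁻¹).ne_zero (le_antisymm h2 h1)

lemma IsRoot.neg_of_not_pos {r : B → ℝ} (h : IsRoot cs r) {w : W} (h1 : ¬ Pos cs w r) :
    Neg cs w r := (h.pos_or_neg w).resolve_left h1

lemma IsRoot.pos_of_not_neg {r : B → ℝ} (h : IsRoot cs r) {w : W} (h1 : ¬ Neg cs w r) :
    Pos cs w r := (h.pos_or_neg w).resolve_right h1

lemma pos_neg_iff {w : W} {r : B → ℝ} : Pos cs w (-r) ↔ Neg cs w r := by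
  unfold Pos Neg; rw [map_neg, neg_nonneg]

lemma neg_neg_iff {w : W} {r : B → ℝ} : Neg cs w (-r) ↔ Pos cs w r := by
  unfold Pos Neg; rw [map_neg, neg_nonpos]

lemma pos_self (w : W) (i : B) : Pos cs w (geo cs w (ee i)) := by
  unfold Pos; rw [geo_inv_apply]; exact ee_nonneg i

lemma neg_self (w : W) (i : B) : Neg cs (w * cs.simple i) (geo cs w (ee i)) := by
  rw [← pos_neg_iff, ← geo_mul_simple_ee]; exact pos_self _ _

lemma pos_mul_iff (g w : W) (r : B → ℝ) : Pos cs (g * w) (geo cs g r) ↔ Pos cs w r := by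
  unfold Pos; rw [mul_inv_rev, geo_mul_apply, geo_inv_apply]

lemma neg_mul_iff (g w : W) (r : B → ℝ) : Neg cs (g * w) (geo cs g r) ↔ Neg cs w r := by
  unfold Neg; rw [mul_inv_rev, geo_mul_apply, geo_inv_apply]

lemma pos_one_iff (r : B → ℝ) : Pos cs 1 r ↔ 0 ≤ r := by unfold Pos; simp

lemma neg_one_iff (r : B → ℝ) : Neg cs 1 r ↔ r ≤ 0 := by unfold Neg; simp

lemma Pos.add {w : W} {r r' : B → ℝ} (h : Pos cs w r) (h' : Pos cs w r') : Pos cs w (r + r') := by
  unfold Pos at *; rw [map_add]; exact add_nonneg h h'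

lemma Pos.smul {w : W} {r : B → ℝ} (h : Pos cs w r) {a : ℝ} (ha : 0 ≤ a) : Pos cs w (a • r) := by
  unfold Pos at *; rw [map_smul]; exact smul_nonneg ha h

lemma Neg.add {w : W} {r r' : B → ℝ} (h : Neg cs w r) (h' : Neg cs w r') : Neg cs w (r + r') := by
  unfold Neg at *; rw [map_add]; exact add_nonpos h h'

lemma Neg.smul {w : W} {r : B → ℝ} (h : Neg cs w r) {a : ℝ} (ha : 0 ≤ a) : Neg cs w (a • r) := by
  unfold Neg at *; rw [map_smul]; exact smul_nonpos_of_nonneg_of_nonpos ha h

lemma pos_zero (w : W) : Pos cs w 0 := by unfold Pos; simp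

/-- A root that is a nonnegative multiple of another root equals it. -/
lemma IsRoot.eq_of_smul {r r' : B → ℝ} (h : IsRoot cs r) (h' : IsRoot cs r') {a : ℝ}
    (ha : 0 ≤ a) (e : r = a • r') : r = r' := by
  have h1 := h.K_self
  rw [e, K_smul_left, K_smul_right, h'.K_self] at h1
  have : a = 1 := by nlinarith
  rw [e, this, one_smul]

lemma eq_smul_ee_of {r : B → ℝ} {i : B} (h : ∀ j, j ≠ i → r j = 0) : r = r i • ee i := by
  funext j
  by_cases hj : j = i
  · subst hj; simp [ee]
  · simp [ee, hj, h j hj]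

/-- A simple root is indecomposable. -/
lemma IsRoot.eq_ee_of_add {r v : B → ℝ} (h : IsRoot cs r) (h0 : 0 ≤ r) (hv : 0 ≤ v) {a b : ℝ}
    (ha : 0 < a) {i : B} (e : a • r + v = b • ee i) : r = ee i := by
  have h1 : ∀ j, j ≠ i → r j = 0 := by
    intro j hj
    have h2 := congrFun e j
    simp only [Pi.add_apply, Pi.smul_apply, smul_eq_mul, ee, Pi.single_apply, hj, if_false,
      mul_zero] at h2
    have h3 : 0 ≤ r j := h0 j
    have h4 : 0 ≤ v j := hv j
    nlinarith
  exact h.eq_of_smul (isRoot_ee i) (h0 i) (eq_smul_ee_of h1)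

lemma IsRoot.eq_of_add {r v : B → ℝ} {w : W} (h : IsRoot cs r) (h0 : Pos cs w r)
    (hv : Pos cs w v) {a b : ℝ} (ha : 0 < a) {i : B} (e : a • r + v = b • geo cs w (ee i)) :
    r = geo cs w (ee i) := by
  have h1 : a • geo cs w⁻¹ r + geo cs w⁻¹ v = b • ee i := by
    rw [← map_smul, ← map_add, e, map_smul, geo_inv_apply]
  have h2 := (h.map w⁻¹).eq_ee_of_add h0 hv ha h1
  rw [← h2, geo_apply_inv]

/-- Only the simple root changes sign. -/
lemma IsRoot.eq_of_flip {r : B → ℝ} {w : W} {i : B} (h : IsRoot cs r) (h0 : Pos cs w r)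
    (h1 : Neg cs (w * cs.simple i) r) : r = geo cs w (ee i) := by
  unfold Neg at h1
  rw [mul_inv_rev, cs.inv_simple, geo_mul_apply, geo_simple, sg_apply] at h1
  have h2 : geo cs w⁻¹ r = ee i := by
    refine (h.map w⁻¹).eq_ee_of_add (v := -(geo cs w⁻¹ r - coroot M i (geo cs w⁻¹ r) • ee i))
      h0 (neg_nonneg.mpr h1) (a := 1) (b := coroot M i (geo cs w⁻¹ r)) one_pos ?_
    module
  rw [← h2, geo_apply_inv]

lemma IsRoot.pos_mul_simple {r : B → ℝ} {w : W} {i : B} (h : IsRoot cs r) (h0 : Pos cs w r)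
    (hne : r ≠ geo cs w (ee i)) : Pos cs (w * cs.simple i) r :=
  h.pos_of_not_neg fun h1 => hne (h.eq_of_flip h0 h1)

/-- the reflection in the root `w e_i` -/
def rf (cs : CoxeterSystem M W) (w : W) (i : B) : W := w * cs.simple i * w⁻¹

lemma geo_rf (w : W) (i : B) (v : B → ℝ) :
    geo cs (rf cs w i) v = v - K M (geo cs w (ee i)) v • geo cs w (ee i) := by
  unfold rf
  rw [geo_mul_apply, geo_mul_apply, geo_simple, sg_apply, map_sub, map_smul, geo_apply_inv,
    ← K_ee_left, ← K_geo cs w, geo_apply_inv]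

lemma rf_mul_self (w : W) (i : B) : rf cs w i * w = w * cs.simple i := by
  unfold rf; group

lemma rf_mul_rf (w : W) (i : B) : rf cs w i * rf cs w i = 1 := by
  unfold rf
  calc w * cs.simple i * w⁻¹ * (w * cs.simple i * w⁻¹)
      = w * (cs.simple i * cs.simple i) * w⁻¹ := by group
    _ = 1 := by rw [cs.simple_mul_simple_self]; group

lemma rf_rf (w : W) (i : B) (v : B → ℝ) : geo cs (rf cs w i) (geo cs (rf cs w i) v) = v := by
  rw [← geo_mul_apply, rf_mul_rf, geo_one_apply]

lemma rf_eq_of_root {w w' : W} {i i' : B}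
    (h : geo cs w (ee i) = geo cs w' (ee i') ∨ geo cs w (ee i) = - geo cs w' (ee i')) :
    rf cs w i = rf cs w' i' := by
  apply geo_injective cs
  apply LinearMap.ext
  intro v
  rw [geo_rf, geo_rf]
  rcases h with h | h
  · rw [h]
  · rw [h, K_neg_left]; module

lemma geo_rf_self (w : W) (i : B) : geo cs (rf cs w i) (geo cs w (ee i)) = - geo cs w (ee i) := by
  rw [← geo_mul_apply, rf_mul_self, geo_mul_simple_ee]

/-- If `β` is simple for `w`, the reflection in `β` keeps the other positive roots positive. -/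
lemma IsRoot.pos_rf {r : B → ℝ} {w : W} {i : B} (h : IsRoot cs r) (h0 : Pos cs w r)
    (hne : r ≠ geo cs w (ee i)) : Pos cs w (geo cs (rf cs w i) r) := by
  have h1 := h.pos_mul_simple h0 hne
  rw [← rf_mul_self, ← pos_mul_iff (rf cs w i), ← mul_assoc, rf_mul_rf, one_mul] at h1
  exact h1

lemma mul_simple_ne (w : W) (i : B) : w * cs.simple i ≠ w := by
  intro h
  exact cs.length_mul_simple_ne w i (by rw [h])

lemma cc_nonneg {i j : B} (h : i ≠ j) : 0 ≤ cc M i j := by
  have := qs_nonneg M h (k := 2) (by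
    by_cases h0 : M i j = 0
    · exact Or.inl h0
    · exact Or.inr (two_le_of_ne M h h0))
  rw [qs_add_two] at this
  simp at this
  linarith

/-- pairing of a simple root with a nonnegative vector not involving it -/
lemma K_ee_nonpos {i : B} {c : B → ℝ} (hc : 0 ≤ c) (hi : c i = 0) : K M (ee i) c ≤ 0 := by
  rw [K_ee_left, coroot_apply]
  apply Finset.sum_nonpos
  intro j _
  by_cases hj : j = i
  · subst hj; simp [hi]
  · have h1 := cc_nonneg (M := M) (Ne.symm hj)
    have h2 : 0 ≤ c j := hc j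
    nlinarith

end Pool.Agent.H176Z
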