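import Pool.Agent.H176Z.Weak

set_option autoImplicit false
set_option linter.unusedSectionVars false

namespace Pool.Agent.H176Z

open Pool.Agent.Helper741 Classical

variable {B : Type*} [Fintype B] [DecidableEq B] {M : CoxeterMatrix B}
variable {W : Type*} [Group W] {cs : CoxeterSystem M W}
variable {Q : ℕ → B} {u : ℕ → W} {m : ℕ}

lemma geo_nonpos_of_top {w : W} (h : ∀ s, geo cs w (ee s) ≤ 0) {v : B → ℝ} (hv : 0 ≤ v) :
    geo cs w v ≤ 0 := by
  have hv' : v = ∑ s, v s • ee s := by
    funext j; simp [ee, Finset.sum_apply, Pi.single_apply]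
  rw [hv', map_sum]
  refine Finset.sum_nonpos fun s _ => ?_
  rw [map_smul]
  exact smul_nonpos_of_nonneg_of_nonpos (hv s) (h s)

lemma btw_of_top {w : W} (h : ∀ s, geo cs w (ee s) ≤ 0) (p : W) : Btw cs 1 p w := by
  intro r hr p1 p2
  have := geo_nonpos_of_top h p2
  rw [geo_apply_inv] at this
  exact (hr.not_pos_neg p1 ((neg_one_iff r).mpr this)).elim

/-- greedy walk towards `y` inside the crossings of `u` -/
noncomputable def greedy (cs : CoxeterSystem M W) (Q : ℕ → B) (u : ℕ → W) (y : W) : ℕ → W
  | 0 => 1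
  | (k + 1) => if u (k + 1) ≠ u k ∧ Neg cs y (geo cs (greedy cs Q u y k) (ee (Q k)))
      then greedy cs Q u y k * cs.simple (Q k) else greedy cs Q u y k

theorem universal_of_top (hu : RW cs Q u 0 m) (h0 : u 0 = 1) (h : ∀ s, geo cs (u m) (ee s) ≤ 0)
    (y : W) : ∃ v, RW cs Q v 0 m ∧ v 0 = 1 ∧ v m = y := by
  set g := greedy cs Q u y with hg
  have gs : ∀ k, g (k + 1) = if u (k + 1) ≠ u k ∧ Neg cs y (geo cs (g k) (ee (Q k)))
      then g k * cs.simple (Q k) else g k := fun k => rfl
  have i1 : ∀ k, Btw cs 1 (g k) y := by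
    intro k
    induction k with
    | zero => exact btw_left _ _
    | succ k ih =>
      rw [gs]
      split_ifs with c
      · exact ih.step c.2
      · exact ih
  have i2 : ∀ k, k ≤ m → ∀ δ, IsRoot cs δ → 0 ≤ δ → geo cs (u k) δ ≤ 0 →
      Pos cs y (geo cs (g k) δ) := by
    intro k
    induction k with
    | zero =>
      intro _ δ r d1 d2
      rw [h0, geo_one_apply] at d2
      exact (r.ne_zero (le_antisymm d2 d1)).elim
    | succ k ih =>
      intro hk δ r d1 d2
      have ih' := ih (by omega)
      by_cases c : u (k + 1) = u k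
      · rw [gs, if_neg (fun h => h.1 c)]
        rw [c] at d2
        exact ih' δ r d1 d2
      have c2 := hu.walk.cross (Nat.zero_le k) (by omega) c
      have c3 : 0 ≤ geo cs (u k) (ee (Q k)) := by
        have := hu.red k (Nat.zero_le k) (by omega) c
        rwa [h0, pos_one_iff] at this
      rw [c2, geo_mul_apply] at d2
      have hδ : δ ≠ ee (Q k) → 0 ≤ geo cs (cs.simple (Q k)) δ := by
        intro ne
        have := r.pos_mul_simple (w := 1) (i := Q k) ((pos_one_iff δ).mpr d1) (by simpa using ne)
        unfold Pos at this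
        rwa [one_mul, cs.inv_simple] at this
      rw [gs]
      rcases (isRoot_geo_ee (cs := cs) (g k) (Q k)).pos_or_neg y with p | p
      · rw [if_neg (fun h => (isRoot_geo_ee (g k) (Q k)).not_pos_neg p h.2)]
        by_cases e : δ = ee (Q k)
        · rw [e]; exact p
        have x1 := ih' _ (r.map _) (hδ e) d2
        rw [geo_simple, sg_apply, map_sub, map_smul] at x1 d2
        rcases le_total 0 (coroot M (Q k) δ) with l | l
        · have := x1.add (p.smul l)
          rwa [sub_add_cancel] at this
        · refine ih' δ r d1 ?_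
          have := add_nonpos d2 (smul_nonpos_of_nonpos_of_nonneg l c3)
          rwa [sub_add_cancel] at this
      · rw [if_pos ⟨c, p⟩]
        by_cases e : δ = ee (Q k)
        · rw [e, geo_mul_simple_ee, pos_neg_iff]; exact p
        · rw [geo_mul_apply]
          exact ih' _ (r.map _) (hδ e) d2
  refine ⟨g, ⟨fun k _ _ => ?_, fun k _ _ c => ?_⟩, rfl, ?_⟩
  · rw [gs]; split_ifs
    · exact Or.inr rfl
    · exact Or.inl rfl
  · have n : Neg cs y (rt cs Q g k) := by
      by_contra n
      apply c
      rw [gs, if_neg (fun h => n h.2)]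
    have r := rt_root (cs := cs) Q g k
    apply r.pos_of_not_neg
    intro n1
    have := i1 k _ r.neg (pos_neg_iff.mpr n1) (pos_neg_iff.mpr n)
    exact r.not_pos_neg (rt_pos _ _ _) (pos_neg_iff.mp this)
  · symm
    apply eq_of_pos (cs := cs)
    intro r hr p
    have := i2 m le_rfl _ (hr.map (g m)⁻¹) p (geo_nonpos_of_top h p)
    rwa [geo_apply_inv] at this

lemma RW.congrQ {lo hi : ℕ} (h : RW cs Q u lo hi) {Q' : ℕ → B} (e : ∀ k, k < hi → Q' k = Q k) :
    RW cs Q' u lo hi := by
  constructor
  · intro k k1 k2; rw [e k k2]; exact h.walk k k1 k2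
  · intro k k1 k2 k3
    have := h.red k k1 k2 k3
    unfold rt at this ⊢
    rwa [e k k2]

/-- append one step to a walk -/
lemma append_step (hu : RW cs Q u 0 m) (s : B) (w : W)
    (hw : w = u m ∨ (w = u m * cs.simple s ∧ Pos cs (u 0) (geo cs (u m) (ee s)))) :
    RW cs (Function.update Q m s) (Function.update u (m + 1) w) 0 (m + 1) := by
  have e1 : ∀ k, k ≤ m → Function.update u (m + 1) w k = u k :=
    fun k hk => Function.update_of_ne (by omega) _ _
  have e2 : ∀ k, k < m → Function.update Q m s k = Q k :=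
    fun k hk => Function.update_of_ne (by omega) _ _
  constructor
  · intro k _ k2
    by_cases c : k = m
    · subst c
      rw [Function.update_self, Function.update_self, e1 k le_rfl]
      rcases hw with h | h
      · exact Or.inl h
      · exact Or.inr h.1
    · rw [e1 k (by omega), e1 (k + 1) (by omega), e2 k (by omega)]
      exact hu.walk k (Nat.zero_le k) (by omega)
  · intro k _ k2 k3
    unfold rt
    rw [e1 0 (Nat.zero_le m), e1 k (by omega)]
    by_cases c : k = m
    · subst c
      rw [Function.update_self, e1 k le_rfl] at k3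
      rw [Function.update_self]
      exact (hw.resolve_left k3).2
    · rw [e1 k (by omega), e1 (k + 1) (by omega)] at k3
      rw [e2 k (by omega)]
      exact hu.red k (Nat.zero_le k) (by omega) k3

lemma append_conPos {p : W} (hc : ConPos cs Q u 0 m p) (s : B) (w : W)
    (hw : w = u m → Pos cs p (geo cs (u m) (ee s))) :
    ConPos cs (Function.update Q m s) (Function.update u (m + 1) w) 0 (m + 1) p := by
  have e1 : ∀ k, k ≤ m → Function.update u (m + 1) w k = u k :=
    fun k hk => Function.update_of_ne (by omega) _ _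
  have e2 : ∀ k, k < m → Function.update Q m s k = Q k :=
    fun k hk => Function.update_of_ne (by omega) _ _
  intro k _ k2 k3
  unfold rt
  rw [e1 k (by omega)]
  by_cases c : k = m
  · subst c
    rw [Function.update_self, e1 k le_rfl] at k3
    rw [Function.update_self]
    exact hw k3
  · rw [e1 k (by omega), e1 (k + 1) (by omega)] at k3
    rw [e2 k (by omega)]
    exact hc k (Nat.zero_le k) (by omega) k3

theorem btw_of_universal {N : ℕ} (hN : ∀ w, cs.length w ≤ N) {p : W} :
    ∀ (n : ℕ) (Q : ℕ → B) (m : ℕ) (u : ℕ → W), N - cs.length (u m) = n →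
      (∀ y, ∃ v, RW cs Q v 0 m ∧ v 0 = 1 ∧ v m = y) → RW cs Q u 0 m → u 0 = 1 →
      ConPos cs Q u 0 m p → Btw cs 1 p (u m) := by
  intro n
  induction n using Nat.strong_induction_on with
  | _ n ih =>
  intro Q m u hn univ hu h0 hc
  by_cases top : ∀ s, geo cs (u m) (ee s) ≤ 0
  · exact btw_of_top top p
  push Not at top
  obtain ⟨s, hs⟩ := top
  have hβ := isRoot_geo_ee (cs := cs) (u m) s
  have s1 : 0 ≤ geo cs (u m) (ee s) := hβ.nonneg_or.resolve_right hs
  have s2 := (geo_nonneg_iff cs _ _).mp s1
  have s3 := hN (u m * cs.simple s)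
  have a1 := append_step hu s (u m * cs.simple s) (Or.inr ⟨rfl, by rw [h0, pos_one_iff]; exact s1⟩)
  have a2 := append_conPos hc s (u m * cs.simple s) (fun e => (mul_simple_ne _ _ e).elim)
  have e0 : ∀ (v : ℕ → W) (w : W), Function.update v (m + 1) w 0 = v 0 :=
    fun v w => Function.update_of_ne (by omega) _ _
  have em : ∀ (v : ℕ → W) (w : W), Function.update v (m + 1) w m = v m :=
    fun v w => Function.update_of_ne (by omega) _ _
  have b1 := ih (N - cs.length (u m * cs.simple s)) (by omega) _ (m + 1) _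
    (by rw [Function.update_self]) (fun y => by
      obtain ⟨v, v1, v2, v3⟩ := univ y
      exact ⟨_, append_step v1 s y (Or.inl v3.symm), by rw [e0, v2], Function.update_self _ _ _⟩)
    a1 (by rw [e0, h0]) a2
  rw [Function.update_self] at b1
  obtain ⟨v, v1, v2, v3⟩ := univ (u m * cs.simple s)
  obtain ⟨v', w1, w2, w3, w4⟩ := exists_conPos (Nat.zero_le m) v1 (p := p) (by rw [v2, v3]; exact b1)
  have pp : Pos cs p (geo cs (u m) (ee s)) := by
    apply hβ.pos_of_not_neg
    intro n
    have c1 := append_step w1 s (v' m) (Or.inl rfl)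
    have c2 := append_conPos w4 s (v' m) (fun _ => by
      rw [w3, v3, geo_mul_simple_ee, pos_neg_iff]; exact n)
    have := unique_conPos (Nat.zero_le (m + 1)) a1 c1 (by rw [e0, e0, w2, v2, h0])
      (by rw [Function.update_self, Function.update_self, w3, v3]) a2 c2 m (Nat.zero_le m)
      (Nat.le_succ m)
    rw [em, em, w3, v3] at this
    exact mul_simple_ne _ _ this
  intro r hr p1 p2
  by_cases e : r = geo cs (u m) (ee s)
  · rw [e]; exact pp
  · exact b1 r hr p1 (hr.pos_mul_simple p2 e)

theorem btw_of_sorting {v : ℕ → W} (hv : RW cs Q v 0 m) (v0 : v 0 = 1)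
    (hN : ∀ w, cs.length w ≤ cs.length (v m)) (hu : RW cs Q u 0 m) (h0 : u 0 = 1) {p : W}
    (hc : ConPos cs Q u 0 m p) : Btw cs 1 p (u m) := by
  refine btw_of_universal hN _ Q m u rfl (universal_of_top hv v0 fun s => ?_) hu h0 hc
  apply geo_nonpos
  have := hN (v m * cs.simple s)
  have := cs.length_mul_simple (v m) s
  omega

end Pool.Agent.H176Z
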