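import Pool.Agent.H176Z.Pot

set_option autoImplicit false
set_option linter.unusedSectionVars false

namespace Pool.Agent.H176Z

open Pool.Agent.Helper741 Classical

variable {B : Type*} [Fintype B] [DecidableEq B] {M : CoxeterMatrix B}
variable {W : Type*} [Group W] (cs : CoxeterSystem M W)

lemma half_le_cc {s t : B} (h : s ≠ t) (h0 : cc M s t ≠ 0) : 1 / 2 ≤ cc M s t := by
  by_cases hm : M s t = 0
  · rw [cc_of_zero M hm]; norm_num
  have h2 := two_le_of_ne M h hm
  have h3 : 3 ≤ M s t := by
    by_contra c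
    have : M s t = 2 := by omega
    apply h0
    unfold cc
    rw [this]
    simp
  unfold cc
  rw [← Real.cos_pi_div_three]
  have h4 : (3 : ℝ) ≤ (M s t : ℝ) := by exact_mod_cast h3
  apply Real.cos_le_cos_of_nonneg_of_le_pi
  · have := Real.pi_pos; positivity
  · linarith [Real.pi_pos]
  · exact div_le_div_of_nonneg_left Real.pi_pos.le (by norm_num) h4

include cs in
/-- positive definiteness, in the form used below -/
theorem exists_pos_K [Finite W] {v : B → ℝ} (hv : 0 ≤ v) (h0 : v ≠ 0) :
    ∃ s, 0 < v s ∧ 0 < K M (ee s) v := by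
  have := Fintype.ofFinite W
  set β : (B → ℝ) → (B → ℝ) → ℝ := fun x y => ∑ g : W, geo cs g x ⬝ᵥ geo cs g y with hβ
  have inv : ∀ (w : W) x y, β (geo cs w x) (geo cs w y) = β x y := by
    intro w x y
    simp only [hβ, ← geo_mul_apply]
    exact Fintype.sum_equiv (Equiv.mulRight w) _ _ (fun g => rfl)
  have nonneg : ∀ x, 0 ≤ β x x := fun x =>
    Finset.sum_nonneg fun g _ => Finset.sum_nonneg fun i _ => mul_self_nonneg _
  have pos : 0 < β v v := by
    refine Finset.sum_pos' (fun g _ => Finset.sum_nonneg fun i _ => mul_self_nonneg _)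
      ⟨1, Finset.mem_univ _, ?_⟩
    rw [geo_one_apply]
    obtain ⟨i, hi⟩ := Function.ne_iff.mp h0
    exact Finset.sum_pos' (fun i _ => mul_self_nonneg _)
      ⟨i, Finset.mem_univ _, mul_self_pos.mpr hi⟩
  have key : ∀ s, 2 * β (ee s) v = K M (ee s) v * β (ee s) (ee s) := by
    intro s
    have := inv (cs.simple s) (ee s) v
    rw [geo_simple, sg_ee_self, sg_apply] at this
    have e : β (-ee s) (v - coroot M s v • ee s) = - β (ee s) v + coroot M s v * β (ee s) (ee s) := by
      simp only [hβ, map_neg, map_sub, map_smul, neg_dotProduct, dotProduct_sub, dotProduct_smul,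
        smul_eq_mul, Finset.mul_sum, ← Finset.sum_neg_distrib, ← Finset.sum_add_distrib]
      refine Finset.sum_congr rfl fun g _ => by ring
    rw [K_ee_left]
    linarith
  have expand : β v v = ∑ s, v s * β (ee s) v := by
    have hv' : v = ∑ s, v s • ee s := by
      funext j; simp [ee, Finset.sum_apply, Pi.single_apply]
    simp only [hβ, Finset.mul_sum]
    rw [Finset.sum_comm]
    refine Finset.sum_congr rfl fun g _ => ?_
    have e : geo cs g v = ∑ s, v s • geo cs g (ee s) := by
      conv_lhs => rw [hv', map_sum]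
      simp only [map_smul]
    nth_rewrite 1 [e]
    rw [sum_dotProduct]
    refine Finset.sum_congr rfl fun s _ => ?_
    rw [smul_dotProduct, smul_eq_mul]
  by_contra c
  push Not at c
  have : ∑ s, v s * β (ee s) v ≤ 0 := by
    refine Finset.sum_nonpos fun s _ => ?_
    rcases (hv s).lt_or_eq with h | h
    · have h1 := c s h
      have h2 := key s
      have h3 := nonneg (ee s)
      have h4 : β (ee s) v ≤ 0 := by nlinarith
      exact mul_nonpos_of_nonneg_of_nonpos (hv s) h4
    · have : v s = 0 := h.symm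
      rw [this, zero_mul]
  linarith

include cs in
theorem M_ne_zero [Finite W] {s t : B} (h : s ≠ t) : M s t ≠ 0 := by
  intro h0
  obtain ⟨r, r1, r2⟩ := exists_pos_K cs (v := ee s + ee t) (add_nonneg (ee_nonneg s) (ee_nonneg t))
    (by
      intro e
      have := congrFun e s
      simp [ee, h] at this)
  rw [K_add_right, K_ee_ee, K_ee_ee] at r2
  have c1 := cc_of_zero M h0
  by_cases a : r = s
  · subst a; rw [cc_self, c1] at r2; linarith
  by_cases b : r = t
  · subst b; rw [cc_self, cc_symm, c1] at r2; linarith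
  simp [ee, a, b] at r1

include cs in
theorem exists_leaf [Finite W] {S : Finset B} (hS : S.Nonempty) : ∃ s ∈ S, ∀ t ∈ S, ∀ t' ∈ S,
    t ≠ s → t' ≠ s → cc M s t ≠ 0 → cc M s t' ≠ 0 → t = t' := by
  obtain ⟨r, r1, r2⟩ := exists_pos_K cs (v := fun j => if j ∈ S then 1 else 0)
    (fun j => by simp only [Pi.zero_apply]; split_ifs <;> norm_num) (by
      intro e
      obtain ⟨s, hs⟩ := hS
      have := congrFun e s
      simp [hs] at this)
  have rS : r ∈ S := by
    by_contra c
    simp [c] at r1
  refine ⟨r, rS, fun t ht t' ht' n1 n2 c1 c2 => ?_⟩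
  by_contra ne
  rw [K_ee_left, coroot_apply] at r2
  have h1 := half_le_cc n1.symm c1
  have h2 := half_le_cc n2.symm c2
  have h3 : ∀ j, -2 * cc M r j * (if j ∈ S then (1 : ℝ) else 0) ≤
      (if j = r then 2 else 0) + (if j = t then -1 else 0) + (if j = t' then -1 else 0) := by
    intro j
    by_cases a : j = r
    · subst a; simp [rS, n1.symm, n2.symm]
    by_cases b : j = t
    · subst b; simp [ht, a, ne]; linarith
    by_cases c : j = t'
    · subst c; simp [ht', a, b]; linarith
    have := cc_nonneg (M := M) (Ne.symm a)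
    simp only [a, b, c, if_false]
    split_ifs <;> linarith
  have h4 := Finset.sum_le_sum fun j (_ : j ∈ Finset.univ) => h3 j
  simp only [Finset.sum_add_distrib, Finset.sum_ite_eq', Finset.mem_univ, if_true] at h4
  linarith

include cs in
theorem exists_height [Finite W] (d : B → B → ℝ) (hd : ∀ s t, d t s = - d s t) :
    ∃ ε : B → ℝ, ∀ s t, s ≠ t → cc M s t ≠ 0 → ε t = ε s + d s t := by
  suffices h : ∀ S : Finset B, ∃ ε : B → ℝ, ∀ s ∈ S, ∀ t ∈ S, s ≠ t → cc M s t ≠ 0 →
      ε t = ε s + d s t by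
    obtain ⟨ε, h⟩ := h Finset.univ
    exact ⟨ε, fun s t => h s (Finset.mem_univ _) t (Finset.mem_univ _)⟩
  intro S
  induction S using Finset.strongInduction with
  | H S ih =>
  rcases S.eq_empty_or_nonempty with e | e
  · exact ⟨0, by simp [e]⟩
  obtain ⟨r, rS, hr⟩ := exists_leaf cs e
  obtain ⟨ε, hε⟩ := ih (S.erase r) (Finset.erase_ssubset rS)
  obtain ⟨a, ha⟩ : ∃ a : ℝ, ∀ t ∈ S, t ≠ r → cc M r t ≠ 0 → ε t = a + d r t := by
    by_cases c : ∃ t ∈ S, t ≠ r ∧ cc M r t ≠ 0
    · obtain ⟨t, t1, t2, t3⟩ := c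
      refine ⟨ε t - d r t, fun t' a b c => ?_⟩
      rw [hr t' a t t1 b t2 c t3]; ring
    · push Not at c
      exact ⟨0, fun t a b c' => (c' (c t a b)).elim⟩
  refine ⟨Function.update ε r a, fun s hs t ht ne c => ?_⟩
  by_cases x : s = r
  · subst x
    rw [Function.update_self, Function.update_of_ne ne.symm]
    exact ha t ht ne.symm c
  by_cases y : t = r
  · subst y
    rw [Function.update_self, Function.update_of_ne ne, ha s hs ne (by rwa [cc_symm]), hd s t]
    ring
  rw [Function.update_of_ne x, Function.update_of_ne y]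
  exact hε s (Finset.mem_erase.mpr ⟨x, hs⟩) t (Finset.mem_erase.mpr ⟨y, ht⟩) ne c

/-- number of occurrences of `s` before position `k` -/
noncomputable def cnt (Q : ℕ → B) (s : B) : ℕ → ℝ
  | 0 => 0
  | (k + 1) => cnt Q s k + if Q k = s then 1 else 0

/-- every occurrence of `t` is preceded by an occurrence of `s` -/
def Leads (Q : ℕ → B) (m : ℕ) (s t : B) : Prop := ∀ k, k < m → Q k = t → ∃ j, j < k ∧ Q j = s

lemma cnt_leads {Q : ℕ → B} {m : ℕ} {s t : B} (ne : s ≠ t) (hl : Leads Q m s t)
    (h1 : ∀ i k, i < k → k < m → Q i = s → Q k = s → ∃ j, i < j ∧ j < k ∧ Q j = t)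
    (h2 : ∀ i k, i < k → k < m → Q i = t → Q k = t → ∃ j, i < j ∧ j < k ∧ Q j = s) :
    ∀ k, k < m → (Q k = s → cnt Q t k = cnt Q s k) ∧ (Q k = t → cnt Q s k = cnt Q t k + 1) := by
  have inv : ∀ k, k ≤ m → (cnt Q t k = cnt Q s k ∧ (k < m → Q k ≠ t) ∧
        ∀ j, j < k → Q j = s → ∃ j', j < j' ∧ j' < k ∧ Q j' = t) ∨
      (cnt Q s k = cnt Q t k + 1 ∧ ∃ j, j < k ∧ Q j = s ∧ ∀ j', j < j' → j' < k → Q j' ≠ t) := by
    intro k
    induction k with
    | zero =>
      intro _
      left
      refine ⟨rfl, fun h e => ?_, fun j h => by omega⟩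
      obtain ⟨j, h, -⟩ := hl 0 h e
      omega
    | succ k ih =>
      intro hk
      have fin : ∀ n, (∀ j, j < n → Q j = s → ∃ j', j < j' ∧ j' < n ∧ Q j' = t) → n < m →
          Q n ≠ t := by
        intro n hn hm e
        obtain ⟨j0, a0, b0⟩ := hl n hm e
        have : ∀ d j, n - j = d → j < n → Q j = s → False := by
          intro d
          induction d using Nat.strong_induction_on with
          | _ d ihd =>
            intro j hd a b
            obtain ⟨j', x1, x2, x3⟩ := hn j a b
            obtain ⟨j'', y1, y2, y3⟩ := h2 j' n x2 hm x3 e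
            exact ihd (n - j'') (by omega) j'' rfl y2 y3
        exact this _ j0 rfl a0 b0
      rcases ih (by omega) with ⟨c1, c2, c3⟩ | ⟨c1, j, j1, j2, j3⟩
      · by_cases a : Q k = s
        · right
          refine ⟨?_, k, by omega, a, fun j' x y => by omega⟩
          simp only [cnt, a, if_true, if_neg ne, c1]; ring
        · left
          have b := c2 (by omega)
          have c4 : ∀ j, j < k + 1 → Q j = s → ∃ j', j < j' ∧ j' < k + 1 ∧ Q j' = t := by
            intro j x y
            have : j ≠ k := fun e => a (e ▸ y)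
            obtain ⟨j', z1, z2, z3⟩ := c3 j (by omega) y
            exact ⟨j', z1, by omega, z3⟩
          exact ⟨by simp only [cnt, if_neg a, if_neg b, c1], fin _ c4, c4⟩
      · by_cases b : Q k = t
        · left
          have c4 : ∀ j, j < k + 1 → Q j = s → ∃ j', j < j' ∧ j' < k + 1 ∧ Q j' = t := by
            intro j x y
            have : j ≠ k := fun e => ne (by rw [← y, e, b])
            exact ⟨k, by omega, by omega, b⟩
          refine ⟨?_, fin _ c4, c4⟩
          simp only [cnt, b, if_true, if_neg ne.symm, c1]; ring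
        · right
          have a : Q k ≠ s := by
            intro a
            obtain ⟨j', x1, x2, x3⟩ := h1 j k j1 (by omega) j2 a
            exact j3 j' x1 x2 x3
          refine ⟨by simp only [cnt, if_neg a, if_neg b, c1, add_zero], j, by omega, j2, ?_⟩
          intro j' x y
          by_cases e : j' = k
          · rw [e]; exact b
          · exact j3 j' x (by omega)
  intro k hk
  rcases inv k hk.le with ⟨c1, c2, -⟩ | ⟨c1, j, j1, j2, j3⟩
  · exact ⟨fun _ => c1, fun e => (c2 hk e).elim⟩
  · refine ⟨fun a => ?_, fun _ => c1⟩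
    obtain ⟨j', x1, x2, x3⟩ := h1 j k j1 hk j2 a
    exact (j3 j' x1 x2 x3).elim

lemma leads_or {Q : ℕ → B} {m : ℕ} {s t : B} (ne : s ≠ t) : Leads Q m s t ∨ Leads Q m t s := by
  by_contra c
  unfold Leads at c
  push Not at c
  obtain ⟨⟨k, k1, k2, k3⟩, ⟨l, l1, l2, l3⟩⟩ := c
  rcases lt_trichotomy k l with h | h | h
  · exact l3 k h k2
  · exact ne (by rw [← l2, ← h, k2])
  · exact k3 l h l2

lemma not_leads_both {Q : ℕ → B} {m : ℕ} {s t : B} (h1 : Leads Q m s t) (h2 : Leads Q m t s) :
    ∀ k, k < m → Q k ≠ s := by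
  intro k
  induction k using Nat.strong_induction_on with
  | _ k ih =>
    intro hk e
    obtain ⟨j, j1, j2⟩ := h2 k hk e
    obtain ⟨i, i1, i2⟩ := h1 j (by omega) j2
    exact ih i (by omega) (by omega) i2

include cs in
theorem exists_timed [Finite W] {Q : ℕ → B} {m : ℕ}
    (h : ∀ s t, s ≠ t → cc M s t ≠ 0 →
      ∀ i k, i < k → k < m → Q i = s → Q k = s → ∃ j, i < j ∧ j < k ∧ Q j = t) :
    ∃ T, Timed M Q T 0 m := by
  obtain ⟨ε, hε⟩ := exists_height cs
    (fun s t => (if Leads Q m s t then (1 : ℝ) else 0) - (if Leads Q m t s then 1 else 0))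
    (fun s t => by ring)
  refine ⟨fun k s => 2 * cnt Q s k + ε s, fun k _ hk t ht hc => ?_, fun k _ hk t ht => ?_,
    fun k _ hk => ?_⟩
  · have e := hε (Q k) t ht.symm hc
    have a1 := h (Q k) t ht.symm hc
    have a2 := h t (Q k) ht (by rwa [cc_symm])
    by_cases x : Leads Q m (Q k) t
    · have y : ¬ Leads Q m t (Q k) := fun y => not_leads_both x y k hk rfl
      rw [if_pos x, if_neg y] at e
      rw [(cnt_leads ht.symm x a1 a2 k hk).1 rfl, e]; ring
    · have y := (leads_or ht.symm).resolve_left x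
      rw [if_neg x, if_pos y] at e
      rw [(cnt_leads ht y a2 a1 k hk).2 rfl, e]; ring
  · simp only [cnt, if_neg ht.symm, add_zero]
  · simp only [cnt, if_true]; ring

lemma not_commute_of_cc {s t : B} (h : s ≠ t) (hc : cc M s t ≠ 0) :
    cs.simple s * cs.simple t ≠ cs.simple t * cs.simple s := by
  intro e
  have := congrArg (fun w => geo cs w (ee s) t) e
  simp only [geo_mul_apply, geo_simple, sg_ee M s t, map_add, map_smul, sg_ee_self, map_neg,
    sg_ee M t s] at this
  simp [ee, h.symm] at this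
  apply hc
  linarith

end Pool.Agent.H176Z
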