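import Pool.Agent.H176Z.Flip
import Pool.Agent.H176Z.Time
import Pool.Agent.H176Z.Sorting

set_option autoImplicit false
set_option linter.unusedSectionVars false

namespace Pool.Agent.H176Z

open Pool.Agent.Helper741 Classical

variable {B : Type*} [Fintype B] [DecidableEq B] {M : CoxeterMatrix B}
variable {W : Type*} [Group W] {cs : CoxeterSystem M W} {m : ℕ}
variable {Q : Fin m → B} {Qn : ℕ → B}

lemma subword_insert (Q : Fin m → B) (X : Finset (Fin m)) (k : Fin m) (h : ∀ i ∈ X, i < k) :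
    subword Q (insert k X) = subword Q X ++ [Q k] := by
  unfold subword
  have : (List.finRange m).filter (fun i => i ∈ insert k X) =
      (List.finRange m).filter (fun i => i ∈ X) ++ [k] := by
    refine List.Pairwise.eq_of_mem_iff (r := (· < ·))
      ((List.pairwise_lt_finRange m).filter _) ?_ ?_
    · rw [List.pairwise_append]
      refine ⟨(List.pairwise_lt_finRange m).filter _, List.pairwise_singleton _ _, ?_⟩
      intro a ha b hb
      rw [List.mem_singleton] at hb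
      rw [hb]
      exact h a (by simpa using ha)
    · intro a
      simp [or_comm]
  rw [this, List.map_append]
  rfl

/-- positions below `k` -/
def below (m k : ℕ) : Finset (Fin m) := Finset.univ.filter (fun i => i.val < k)

/-- the word read before position `k` outside `I` -/
def pre (Q : Fin m → B) (I : Finset (Fin m)) (k : ℕ) : List B := subword Q (below m k \ I)

lemma pre_zero (I : Finset (Fin m)) : pre Q I 0 = [] := by
  unfold pre subword below
  simp

lemma pre_mem {I : Finset (Fin m)} {k : Fin m} (h : k ∈ I) : pre Q I (k + 1) = pre Q I k := by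
  unfold pre
  congr 1
  ext i
  simp only [below, Finset.mem_sdiff, Finset.mem_filter, Finset.mem_univ, true_and]
  constructor
  · rintro ⟨h1, h2⟩
    refine ⟨?_, h2⟩
    have : i.val ≠ k.val := fun e => h2 (by rw [Fin.ext e]; exact h)
    omega
  · rintro ⟨h1, h2⟩
    exact ⟨by omega, h2⟩

lemma pre_not_mem {I : Finset (Fin m)} {k : Fin m} (h : k ∉ I) :
    pre Q I (k + 1) = pre Q I k ++ [Q k] := by
  unfold pre
  rw [← subword_insert]
  · congr 1
    ext i
    simp only [below, Finset.mem_sdiff, Finset.mem_filter, Finset.mem_univ, true_and,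
      Finset.mem_insert]
    constructor
    · rintro ⟨h1, h2⟩
      by_cases e : i = k
      · exact Or.inl e
      · have : i.val ≠ k.val := fun e' => e (Fin.ext e')
        exact Or.inr ⟨by omega, h2⟩
    · rintro (rfl | ⟨h1, h2⟩)
      · exact ⟨by omega, h⟩
      · exact ⟨by omega, h2⟩
  · intro i hi
    simp only [below, Finset.mem_sdiff, Finset.mem_filter, Finset.mem_univ, true_and] at hi
    exact hi.1

lemma pre_top (I : Finset (Fin m)) : pre Q I m = subword Q Iᶜ := by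
  unfold pre
  congr 1
  ext i
  simp [below]

/-- the walk of a set of positions -/
def wk (cs : CoxeterSystem M W) (Q : Fin m → B) (I : Finset (Fin m)) (k : ℕ) : W :=
  cs.wordProd (pre Q I k)

lemma wk_zero (I : Finset (Fin m)) : wk cs Q I 0 = 1 := by
  unfold wk; rw [pre_zero, cs.wordProd_nil]

lemma wk_mem {I : Finset (Fin m)} {k : Fin m} (h : k ∈ I) : wk cs Q I (k + 1) = wk cs Q I k := by
  unfold wk; rw [pre_mem h]

lemma wk_not_mem {I : Finset (Fin m)} {k : Fin m} (h : k ∉ I) :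
    wk cs Q I (k + 1) = wk cs Q I k * cs.simple (Q k) := by
  unfold wk; rw [pre_not_mem h, cs.wordProd_append, cs.wordProd_singleton]

lemma wk_top (I : Finset (Fin m)) : wk cs Q I m = cs.wordProd (subword Q Iᶜ) := by
  unfold wk; rw [pre_top]

lemma wk_contact {I : Finset (Fin m)} {k : Fin m} : wk cs Q I (k + 1) = wk cs Q I k ↔ k ∈ I := by
  refine ⟨fun h => ?_, wk_mem⟩
  by_contra c
  rw [wk_not_mem c] at h
  exact mul_simple_ne _ _ h

lemma rootFn_eq (hQ : ∀ k : Fin m, Qn k = Q k) (I : Finset (Fin m)) (k : Fin m) :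
    rootFn cs Q I k = rt cs Qn (wk cs Q I) k := by
  unfold rootFn rt wk pre
  rw [hQ]
  have : Finset.Iio k \ I = below m k \ I := by
    ext i; simp [below]
  rw [this]

lemma wk_walk (hQ : ∀ k : Fin m, Qn k = Q k) (I : Finset (Fin m)) :
    Walk cs Qn (wk cs Q I) 0 m := by
  intro k _ hk
  by_cases c : (⟨k, hk⟩ : Fin m) ∈ I
  · exact Or.inl (wk_mem (k := ⟨k, hk⟩) c)
  · right
    rw [show Qn k = Q ⟨k, hk⟩ from hQ ⟨k, hk⟩]
    exact wk_not_mem (k := ⟨k, hk⟩) c

theorem reduced_iff (hQ : ∀ k : Fin m, Qn k = Q k) (I : Finset (Fin m)) :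
    cs.IsReduced (subword Q Iᶜ) ↔ RW cs Qn (wk cs Q I) 0 m := by
  rw [← pre_top]
  constructor
  · intro h
    have key : ∀ d k, k + d = m → cs.IsReduced (pre Q I k) := by
      intro d
      induction d with
      | zero => intro k hk; rw [show k = m by omega]; exact h
      | succ d ih =>
        intro k hk
        have h1 := ih (k + 1) (by omega)
        have hk' : k < m := by omega
        by_cases c : (⟨k, hk'⟩ : Fin m) ∈ I
        · rwa [show pre Q I (k + 1) = pre Q I k from pre_mem (k := ⟨k, hk'⟩) c] at h1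
        · rw [show pre Q I (k + 1) = pre Q I k ++ [Q ⟨k, hk'⟩] from
            pre_not_mem (k := ⟨k, hk'⟩) c] at h1
          have := h1.take (pre Q I k).length
          rwa [List.take_left] at this
    refine ⟨wk_walk hQ I, fun k _ hk h3 => ?_⟩
    have c : (⟨k, hk⟩ : Fin m) ∉ I := fun c => h3 (wk_mem (k := ⟨k, hk⟩) c)
    have h1 := (key (m - (k + 1)) (k + 1) (by omega)).eq
    have h2 := (key (m - k) k (by omega)).eq
    rw [show pre Q I (k + 1) = pre Q I k ++ [Q ⟨k, hk⟩] from pre_not_mem (k := ⟨k, hk⟩) c,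
      cs.wordProd_append, cs.wordProd_singleton, List.length_append, List.length_singleton] at h1
    rw [wk_zero, pos_one_iff]
    unfold rt wk
    rw [show Qn k = Q ⟨k, hk⟩ from hQ ⟨k, hk⟩]
    apply geo_nonneg
    omega
  · intro h
    have key : ∀ k, k ≤ m → cs.IsReduced (pre Q I k) := by
      intro k
      induction k with
      | zero => intro _; rw [pre_zero]; simp [CoxeterSystem.IsReduced]
      | succ k ih =>
        intro hk
        have h1 := (ih (by omega)).eq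
        have hk' : k < m := by omega
        by_cases c : (⟨k, hk'⟩ : Fin m) ∈ I
        · rw [show pre Q I (k + 1) = pre Q I k from pre_mem (k := ⟨k, hk'⟩) c]; exact h1
        · have h2 := h.red k (Nat.zero_le _) hk' (fun e => c ((wk_contact (k := ⟨k, hk'⟩)).mp e))
          rw [wk_zero, pos_one_iff] at h2
          unfold rt wk at h2
          rw [show Qn k = Q ⟨k, hk'⟩ from hQ ⟨k, hk'⟩, geo_nonneg_iff] at h2
          unfold CoxeterSystem.IsReduced
          rw [show pre Q I (k + 1) = pre Q I k ++ [Q ⟨k, hk'⟩] from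
            pre_not_mem (k := ⟨k, hk'⟩) c, cs.wordProd_append, cs.wordProd_singleton, List.length_append, List.length_singleton]
          have := cs.length_mul_simple (cs.wordProd (pre Q I k)) (Q ⟨k, hk'⟩)
          omega
    exact key m le_rfl

theorem isFacet_iff (hQ : ∀ k : Fin m, Qn k = Q k) {ω : W} {I : Finset (Fin m)} :
    IsFacet cs Q ω I ↔ RW cs Qn (wk cs Q I) 0 m ∧ wk cs Q I m = ω := by
  unfold IsFacet
  rw [reduced_iff hQ, wk_top]

lemma mem_posRoots {p : W} {r : B → ℝ} (hr : IsRoot cs r) :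
    r ∈ geo cs p '' posRoots cs ↔ Pos cs p r := by
  constructor
  · rintro ⟨r0, h0, rfl⟩
    unfold Pos
    rw [geo_inv_apply]
    exact h0.2
  · intro h
    exact ⟨geo cs p⁻¹ r, ⟨hr.map p⁻¹, h⟩, geo_apply_inv _ _ _⟩

theorem linExt_iff (hQ : ∀ k : Fin m, Qn k = Q k) {I : Finset (Fin m)} {p : W} :
    LinExt cs Q I p ↔ ConPos cs Qn (wk cs Q I) 0 m p := by
  constructor
  · intro h k _ hk c
    have := h ⟨k, hk⟩ (wk_contact.mp c)
    rwa [rootFn_eq hQ, mem_posRoots (rt_root _ _ _)] at this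
  · intro h k hk
    rw [rootFn_eq hQ, mem_posRoots (rt_root _ _ _)]
    exact h k (Nat.zero_le _) k.2 (wk_mem hk)

/-- the contact set of a walk -/
noncomputable def cts (m : ℕ) (u : ℕ → W) : Finset (Fin m) :=
  Finset.univ.filter (fun k => u (k + 1) = u k)

lemma mem_cts {u : ℕ → W} {k : Fin m} : k ∈ cts m u ↔ u (k + 1) = u k := by simp [cts]

theorem wk_cts (hQ : ∀ k : Fin m, Qn k = Q k) {u : ℕ → W} (hu : Walk cs Qn u 0 m) (h0 : u 0 = 1) :
    ∀ k, 0 ≤ k → k ≤ m → wk cs Q (cts m u) k = u k := by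
  intro k _
  induction k with
  | zero => intro _; rw [wk_zero, h0]
  | succ k ih =>
    intro hk
    have hk' : k < m := by omega
    have h1 := ih (Nat.zero_le _) hk'.le
    by_cases c : u (k + 1) = u k
    · rw [c, ← h1]
      exact wk_mem (k := ⟨k, hk'⟩) (mem_cts.mpr c)
    · rw [hu.cross (Nat.zero_le _) hk' c, ← h1, show Qn k = Q ⟨k, hk'⟩ from hQ ⟨k, hk'⟩]
      exact wk_not_mem (k := ⟨k, hk'⟩) (fun h => c (mem_cts.mp h))

theorem facet_cts (hQ : ∀ k : Fin m, Qn k = Q k) {u : ℕ → W} (hu : RW cs Qn u 0 m) (h0 : u 0 = 1) :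
    IsFacet cs Q (u m) (cts m u) :=
  (isFacet_iff hQ).mpr ⟨hu.congr (wk_cts hQ hu.walk h0) (Nat.zero_le _),
    wk_cts hQ hu.walk h0 m (Nat.zero_le _) le_rfl⟩

theorem linExt_cts (hQ : ∀ k : Fin m, Qn k = Q k) {u : ℕ → W} (hu : RW cs Qn u 0 m) (h0 : u 0 = 1)
    {p : W} (hp : ConPos cs Qn u 0 m p) : LinExt cs Q (cts m u) p :=
  (linExt_iff hQ).mpr (hp.congr (wk_cts hQ hu.walk h0))

theorem scEquiv_iff (hQ : ∀ k : Fin m, Qn k = Q k) {ω x y : W} :
    SCEquiv cs Q ω x y ↔ EqW cs Qn m 1 ω x y := by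
  constructor
  · rintro ⟨I, h1, h2, h3⟩
    rw [isFacet_iff hQ] at h1
    exact ⟨_, h1.1, wk_zero I, h1.2, (linExt_iff hQ).mp h2, (linExt_iff hQ).mp h3⟩
  · rintro ⟨u, h1, h2, h3, h4, h5⟩
    exact ⟨cts m u, h3 ▸ facet_cts hQ h1 h2, linExt_cts hQ h1 h2 h4, linExt_cts hQ h1 h2 h5⟩

theorem facet_unique (hQ : ∀ k : Fin m, Qn k = Q k) {ω p : W} {I J : Finset (Fin m)}
    (hI : IsFacet cs Q ω I) (hJ : IsFacet cs Q ω J) (h1 : LinExt cs Q I p) (h2 : LinExt cs Q J p) :
    I = J := by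
  rw [isFacet_iff hQ] at hI hJ
  have := unique_conPos (Nat.zero_le m) hI.1 hJ.1 (by rw [wk_zero, wk_zero]) (by rw [hI.2, hJ.2])
    ((linExt_iff hQ).mp h1) ((linExt_iff hQ).mp h2)
  ext k
  rw [← wk_contact (cs := cs) (Q := Q), ← wk_contact (cs := cs) (Q := Q),
    this k (Nat.zero_le _) k.2.le, this (k + 1) (Nat.zero_le _) k.2]

lemma walk_of_facet (hQ : ∀ k : Fin m, Qn k = Q k) {ω : W} (hne : ∃ I, IsFacet cs Q ω I) :
    ∃ u, RW cs Qn u 0 m ∧ u 0 = 1 ∧ u m = ω := by
  obtain ⟨I, h⟩ := hne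
  rw [isFacet_iff hQ] at h
  exact ⟨_, h.1, wk_zero I, h.2⟩

theorem facet_exists (hQ : ∀ k : Fin m, Qn k = Q k) {ω p : W} (hne : ∃ I, IsFacet cs Q ω I)
    (hp : WeakLE cs p ω) : ∃ I, IsFacet cs Q ω I ∧ LinExt cs Q I p := by
  obtain ⟨I, h1, h2, -⟩ := (scEquiv_iff hQ).mpr
    (EqW.refl (walk_of_facet hQ hne) (weakLE_iff.mp hp))
  exact ⟨I, h1, h2⟩

theorem timed_of_alternating [Finite W] (hQ : ∀ k : Fin m, Qn k = Q k) (h : Alternating cs Q) :
    ∃ T, Timed M Qn T 0 m := by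
  refine exists_timed cs fun s t hst hc i k hik hk e1 e2 => ?_
  obtain ⟨j, j1, j2, j3⟩ := h s t (not_commute_of_cc cs hst hc) ⟨i, by omega⟩ ⟨k, hk⟩ hik
    (by rw [← hQ]; exact e1) (by rw [← hQ]; exact e2)
  exact ⟨j, j1, j2, by rw [hQ]; exact j3⟩

/-- crossing one wall between two classes gives an extremal increasing flip -/
theorem extFlip_of_cover (hQ : ∀ k : Fin m, Qn k = Q k) {ω p : W} {s : B} {I J : Finset (Fin m)}
    (hI : IsFacet cs Q ω I) (hJ : IsFacet cs Q ω J) (h1 : LinExt cs Q I p)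
    (h2 : LinExt cs Q J (p * cs.simple s)) (hp : Pos cs 1 (geo cs p (ee s)))
    (hb : Btw cs 1 (p * cs.simple s) ω) (hne : I ≠ J) : ExtFlip cs Q I J := by
  have hI' := (isFacet_iff hQ).mp hI
  have c1 := (linExt_iff hQ).mp h1
  have hn : Neg cs ω (geo cs p (ee s)) := hb.neg (isRoot_geo_ee _ _) hp (neg_self _ _)
  rcases step_up (Nat.zero_le m) hI'.1 c1 (s := s) (by rw [wk_zero]; exact hp)
    (by rw [hI'.2]; exact hn) with ⟨-, h⟩ | ⟨i, j, -, hij, hj, ci, nj, ei, ej, -, h⟩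
  · exact (hne (facet_unique hQ hI hJ ((linExt_iff hQ).mpr h) h2)).elim
  have d : FlipData cs Qn (wk cs Q I) i j := Or.inl ⟨ci, nj, by rw [ei, ej]⟩
  have hr := hI'.1.flip (Nat.zero_le _) hij hj d
  have h0 : flipW cs Qn (wk cs Q I) i j 0 = 1 := by rw [flipW_le (Nat.zero_le _), wk_zero]
  have hm : flipW cs Qn (wk cs Q I) i j m = ω := by rw [flipW_gt hj, hI'.2]
  have hJ' : J = cts m (flipW cs Qn (wk cs Q I) i j) :=
    facet_unique hQ hJ (hm ▸ facet_cts hQ hr h0) h2 (linExt_cts hQ hr h0 h)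
  have hi : i < m := by omega
  have mi : (⟨i, hi⟩ : Fin m) ∈ I := wk_contact.mp ci
  refine ⟨⟨i, hi⟩, mi, ⟨j, hj⟩, ?_, hij, ?_, ?_⟩
  · rw [hJ', mem_cts]
    exact flip_j_up hij d (hI'.1.walk.cross (Nat.zero_le _) hj nj)
  · ext k
    rw [Finset.mem_erase, Finset.mem_erase, hJ', mem_cts, ← wk_contact (cs := cs) (Q := Q)]
    by_cases ki : k = ⟨i, hi⟩
    · subst ki
      simp only [ne_eq, not_true_eq_false, false_and, false_iff, not_and]
      intro _ c
      rw [flip_i_up hij ci] at c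
      exact mul_simple_ne _ _ c
    by_cases kj : k = ⟨j, hj⟩
    · subst kj
      simp only [ne_eq, not_true_eq_false, false_and, iff_false, not_and]
      intro _
      exact nj
    rw [flip_contact_iff (fun e => ki (Fin.ext e)) (fun e => kj (Fin.ext e))]
    exact ⟨fun h => ⟨kj, h.2⟩, fun h => ⟨ki, h.2⟩⟩
  · have e : rootFn cs Q I ⟨i, hi⟩ = geo cs p (ee s) := by rw [rootFn_eq hQ]; exact ei
    rw [e]
    refine extreme_of_simple ?_ ⟨⟨i, hi⟩, mi, e⟩
    rintro r ⟨k, hk, rfl⟩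
    rw [rootFn_eq hQ]
    exact c1 k (Nat.zero_le _) k.2 (wk_mem hk)

/-- an extremal increasing flip between strongly acyclic facets comes from one wall crossing -/
theorem cover_of_extFlip [Finite W] (hQ : ∀ k : Fin m, Qn k = Q k) (hA : Alternating cs Q)
    {ω x y : W} {I J : Finset (Fin m)} (hI : IsFacet cs Q ω I) (hJ : IsFacet cs Q ω J)
    (h1 : LinExt cs Q I x) (h2 : LinExt cs Q J y) (hx : Btw cs 1 x ω) (hy : Btw cs 1 y ω)
    (h : ExtFlip cs Q I J) : I ≠ J ∧ ∃ p s, Btw cs 1 p ω ∧ Btw cs 1 (p * cs.simple s) ω ∧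
      Pos cs 1 (geo cs p (ee s)) ∧ LinExt cs Q I p ∧ LinExt cs Q J (p * cs.simple s) := by
  obtain ⟨T, hT⟩ := timed_of_alternating hQ hA
  obtain ⟨i, hi, j, hj, hij, he, hE⟩ := h
  have hI' := (isFacet_iff hQ).mp hI
  have hJ' := (isFacet_iff hQ).mp hJ
  obtain ⟨nj, e, hf⟩ := eq_flip hI'.1 hJ'.1 (by rw [wk_zero, wk_zero]) (by rw [hI'.2, hJ'.2])
    (i := i) (j := j) hij j.2 (wk_mem hi) (wk_mem hj) (by
      intro k hk
      have := congrArg (fun X => (⟨k, hk⟩ : Fin m) ∈ X) he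
      simp only [Finset.mem_erase, eq_iff_iff] at this
      rw [← wk_contact (cs := cs) (Q := Q), ← wk_contact (cs := cs) (Q := Q), ne_eq, ne_eq,
        Fin.ext_iff, Fin.ext_iff] at this
      exact this)
  refine ⟨fun c => nj (wk_mem (c ▸ hj)), ?_⟩
  rw [rootFn_eq hQ] at hE
  obtain ⟨p, s, b1, b2, eβ, c1, c2⟩ := cover_of_flip hT hI'.1 hij j.2 (wk_mem hi) nj e
    (PointedCone.hull ℝ (rootFn cs Q I '' I)) (fun k hk c => PointedCone.subset_hull
      ⟨⟨k, hk⟩, wk_contact.mp c, rootFn_eq hQ I _⟩) hE ((linExt_iff hQ).mp h1)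
    (((linExt_iff hQ).mp h2).congr fun k _ hk => (hf k hk).symm)
  refine ⟨p, s, fun r hr p1 p2 => b1 r hr (hx r hr p1 p2) (hy r hr p1 p2),
    fun r hr p1 p2 => b2 r hr (hx r hr p1 p2) (hy r hr p1 p2), ?_, (linExt_iff hQ).mpr c1,
    (linExt_iff hQ).mpr (c2.congr fun k _ hk => hf k hk)⟩
  have := hI'.1.red j (Nat.zero_le _) j.2 nj
  rwa [wk_zero, ← e, eβ] at this

end Pool.Agent.H176Z
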