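import Pool.Agent.Helper741.GeomRep

set_option autoImplicit false

/-! Subword complexes of a Coxeter system, their root functions and linear extensions.
`geo cs` is the geometric representation on `B → ℝ` and `ee s` is the simple root of `s`. -/

namespace Pool.Agent.H176Z

open Pool.Agent.Helper741

variable {B : Type*} [Fintype B] [DecidableEq B] {M : CoxeterMatrix B}
variable {W : Type*} [Group W] (cs : CoxeterSystem M W) {m : ℕ}

/-- The right weak order. -/
def WeakLE (u w : W) : Prop := cs.length u + cs.length (u⁻¹ * w) = cs.length w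

/-- The positive roots: roots `w (α_s)` with nonnegative coordinates in the simple roots. -/
def posRoots : Set (B → ℝ) := {r | (∃ (w : W) (s : B), r = geo cs w (ee s)) ∧ 0 ≤ r}

/-- The letters of the word `Q` at the positions in `X`, read in increasing order. -/
def subword (Q : Fin m → B) (X : Finset (Fin m)) : List B :=
  ((List.finRange m).filter (fun k => k ∈ X)).map Q

/-- `I` is a facet of the subword complex of `(Q, ω)`: the letters outside `I` form a reduced
expression of `ω`. -/
def IsFacet (Q : Fin m → B) (ω : W) (I : Finset (Fin m)) : Prop :=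
  cs.IsReduced (subword Q Iᶜ) ∧ cs.wordProd (subword Q Iᶜ) = ω

/-- The root function `r(I, k)`. -/
noncomputable def rootFn (Q : Fin m → B) (I : Finset (Fin m)) (k : Fin m) : B → ℝ :=
  geo cs (cs.wordProd (subword Q (Finset.Iio k \ I))) (ee (Q k))

/-- `p` is a linear extension of `I`: the root configuration lies in `p (Φ⁺)`. -/
def LinExt (Q : Fin m → B) (I : Finset (Fin m)) (p : W) : Prop :=
  ∀ i ∈ I, rootFn cs Q I i ∈ geo cs p '' posRoots cs

/-- For non-commuting generators `s, t`, a `t` occurs between any two occurrences of `s`. -/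
def Alternating (Q : Fin m → B) : Prop :=
  ∀ s t : B, cs.simple s * cs.simple t ≠ cs.simple t * cs.simple s →
    ∀ i k : Fin m, i < k → Q i = s → Q k = s → ∃ j, i < j ∧ j < k ∧ Q j = t

/-- The subword complex equivalence: common linear extensions of one facet. -/
def SCEquiv (Q : Fin m → B) (ω x y : W) : Prop :=
  ∃ I, IsFacet cs Q ω I ∧ LinExt cs Q I x ∧ LinExt cs Q I y

/-- `I → J` is an increasing flip that is extremal: `r(I, i)` spans an extreme ray of the cone
generated by the root configuration of `I`. -/
def ExtFlip (Q : Fin m → B) (I J : Finset (Fin m)) : Prop :=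
  ∃ i ∈ I, ∃ j ∈ J, i < j ∧ I.erase i = J.erase j ∧
    IsExtreme ℝ (PointedCone.hull ℝ (rootFn cs Q I '' I) : Set (B → ℝ))
      (PointedCone.hull ℝ {rootFn cs Q I i} : Set (B → ℝ))

/-- The order of the quotient lattice: `[x] ≤ [y]` iff `[x ⊔ y] = [y]`. -/
def QLE {α : Type*} [Lattice α] (c : LatticeCon α) (a b : Quotient c.toSetoid) : Prop :=
  ∃ x y : α, Quotient.mk c.toSetoid x = a ∧ Quotient.mk c.toSetoid y = b ∧ c.r (x ⊔ y) y

/-- The cover relation of the quotient lattice. -/
def QCov {α : Type*} [Lattice α] (c : LatticeCon α) (a b : Quotient c.toSetoid) : Prop :=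
  QLE c a b ∧ a ≠ b ∧ ∀ z, QLE c a z → QLE c z b → z = a ∨ z = b

end Pool.Agent.H176Z
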