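import Pool.Agent.H176Z.Walk

set_option autoImplicit false
set_option linter.unusedSectionVars false

namespace Pool.Agent.H176Z

open Pool.Agent.Helper741

variable {B : Type*} [Fintype B] [DecidableEq B] {M : CoxeterMatrix B}
variable {W : Type*} [Group W] {cs : CoxeterSystem M W}
variable {Q : ℕ → B} {u : ℕ → W} {lo hi : ℕ}

/-- `p` lies between the chambers `a` and `b` -/
def Btw (cs : CoxeterSystem M W) (a p b : W) : Prop :=
  ∀ r, IsRoot cs r → Pos cs a r → Pos cs b r → Pos cs p r

lemma Btw.symm {a p b : W} (h : Btw cs a p b) : Btw cs b p a := fun r h1 h2 h3 => h r h1 h3 h2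

lemma btw_left (a b : W) : Btw cs a a b := fun _ _ h _ => h

lemma btw_right (a b : W) : Btw cs a b b := fun _ _ _ h => h

lemma Btw.neg {a p b : W} (h : Btw cs a p b) {r : B → ℝ} (hr : IsRoot cs r) (h1 : Pos cs a r)
    (h2 : Neg cs p r) : Neg cs b r :=
  hr.neg_of_not_pos fun h3 => hr.not_pos_neg (h r hr h1 h3) h2

lemma exists_step {a p : W} (h : p ≠ a) : ∃ p' s, p = p' * cs.simple s ∧
    cs.length (a⁻¹ * p') + 1 = cs.length (a⁻¹ * p) ∧ Pos cs a (geo cs p' (ee s)) := by
  have h1 : a⁻¹ * p ≠ 1 := fun e => h (by rw [← mul_one a, ← e]; group)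
  obtain ⟨s, hs⟩ := cs.exists_rightDescent_of_ne_one h1
  have h2 := cs.isRightDescent_iff.mp hs
  refine ⟨p * cs.simple s, s, by rw [cs.simple_mul_simple_cancel_right], by
    rw [← mul_assoc]; exact h2, ?_⟩
  unfold Pos
  rw [← geo_mul_apply]
  apply geo_nonneg
  rw [← mul_assoc, cs.simple_mul_simple_cancel_right]
  omega

lemma RW.extend {h : ℕ} (hle : lo ≤ h) {w v : ℕ → W} (hw : RW cs Q w lo (h + 1))
    (hv : RW cs Q v lo h) (e1 : v lo = w lo) (e2 : v h = w h) :
    RW cs Q (fun k => if k ≤ h then v k else w k) lo (h + 1) := by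
  constructor
  · intro k h1 h2
    by_cases c : k = h
    · subst c
      simp only [le_refl, if_true, if_neg (Nat.not_succ_le_self k), e2]
      exact hw.walk k h1 h2
    · simp only [if_pos (show k ≤ h by omega), if_pos (show k + 1 ≤ h by omega)]
      exact hv.walk k h1 (by omega)
  · intro k h1 h2 h3
    unfold rt
    simp only [if_pos hle, if_pos (show k ≤ h by omega)]
    by_cases c : k = h
    · subst c
      simp only [le_refl, if_true, if_neg (Nat.not_succ_le_self k), e2] at h3
      rw [e1, e2]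
      exact hw.red k h1 h2 h3
    · simp only [if_pos (show k ≤ h by omega), if_pos (show k + 1 ≤ h by omega)] at h3
      exact hv.red k h1 (by omega) h3

theorem exists_base (hle : lo ≤ hi) : ∀ u : ℕ → W, RW cs Q u lo hi →
    ∃ u', RW cs Q u' lo hi ∧ u' lo = u lo ∧ u' hi = u hi ∧ ConPos cs Q u' lo hi (u lo) := by
  induction hi, hle using Nat.le_induction with
  | base => intro u hu; exact ⟨u, hu, rfl, rfl, fun k h1 h2 => by omega⟩
  | succ h hle ih =>
    intro u hu
    obtain ⟨w, hw, w1, w2, w3⟩ : ∃ w, RW cs Q w lo (h + 1) ∧ w lo = u lo ∧ w (h + 1) = u (h + 1) ∧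
        (w (h + 1) = w h → Pos cs (u lo) (rt cs Q w h)) := by
      by_cases c : u (h + 1) = u h → Pos cs (u lo) (rt cs Q u h)
      · exact ⟨u, hu, rfl, rfl, c⟩
      · push Not at c
        obtain ⟨c1, c2⟩ := c
        have hr := rt_root (cs := cs) Q u h
        obtain ⟨i, i1, i2, i3, i4⟩ := hu.walk.sign_change le_rfl hle (Nat.le_succ h) hr.neg
          (pos_neg_iff.mpr (hr.neg_of_not_pos c2)) (neg_neg_iff.mpr (rt_pos _ _ _))
        have d : FlipData cs Q u i h := Or.inr ⟨i3, c1, i4.symm⟩
        refine ⟨flipW cs Q u i h, hu.flip i1 i2 (by omega) d, flipW_le i1, flipW_gt (by omega), ?_⟩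
        intro e
        rw [flip_j_down i2 d c1] at e
        exact (mul_simple_ne _ _ e).elim
    obtain ⟨v, hv, v1, v2, v3⟩ := ih w (hw.sub le_rfl (Nat.le_succ h))
    refine ⟨_, hw.extend hle hv v1 v2, ?_, ?_, ?_⟩
    · simp only [if_pos hle, v1, w1]
    · simp only [if_neg (Nat.not_succ_le_self h), w2]
    · intro k h1 h2 h3
      unfold rt
      simp only [if_pos (show k ≤ h by omega)]
      by_cases c : k = h
      · subst c
        simp only [le_refl, if_true, if_neg (Nat.not_succ_le_self k), v2] at h3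
        rw [v2]
        exact w3 h3
      · simp only [if_pos (show k ≤ h by omega), if_pos (show k + 1 ≤ h by omega)] at h3
        have := v3 k h1 (by omega) h3
        rw [w1] at this
        exact this

/-- Going up across the wall of `β = p e_s`. -/
theorem step_up (hle : lo ≤ hi) (hu : RW cs Q u lo hi) {p : W} {s : B}
    (hc : ConPos cs Q u lo hi p) (h1 : Pos cs (u lo) (geo cs p (ee s)))
    (h2 : Neg cs (u hi) (geo cs p (ee s))) :
    ((∀ k, lo ≤ k → k < hi → u (k + 1) = u k → rt cs Q u k ≠ geo cs p (ee s)) ∧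
      ConPos cs Q u lo hi (p * cs.simple s)) ∨
    ∃ i j, lo ≤ i ∧ i < j ∧ j < hi ∧ u (i + 1) = u i ∧ u (j + 1) ≠ u j ∧
      rt cs Q u i = geo cs p (ee s) ∧ rt cs Q u j = geo cs p (ee s) ∧
      (∀ k, lo ≤ k → k < i → u (k + 1) = u k → rt cs Q u k ≠ geo cs p (ee s)) ∧
      ConPos cs Q (flipW cs Q u i j) lo hi (p * cs.simple s) := by
  classical
  by_cases c : ∃ k, lo ≤ k ∧ k < hi ∧ u (k + 1) = u k ∧ rt cs Q u k = geo cs p (ee s)
  · right
    have hβ : IsRoot cs (geo cs p (ee s)) := isRoot_geo_ee _ _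
    obtain ⟨i1, i2, i3, i4⟩ := Nat.find_spec c
    have imin : ∀ k, lo ≤ k → k < Nat.find c → u (k + 1) = u k →
        rt cs Q u k ≠ geo cs p (ee s) := by
      intro k k1 k2 k3 k4
      exact Nat.find_min c k2 ⟨k1, by omega, k3, k4⟩
    set i := Nat.find c
    obtain ⟨j, j1, j2, j3, j4⟩ := hu.walk.sign_change i1 i2.le le_rfl hβ
      (by rw [← i4]; exact rt_pos _ _ _) h2
    have hij : i < j := by
      rcases Nat.lt_or_eq_of_le j1 with e | e
      · exact e
      · rw [← e] at j3; exact (j3 i3).elim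
    have d : FlipData cs Q u i j := Or.inl ⟨i3, j3, by rw [i4, j4]⟩
    have hrf : rf cs (u i) (Q i) = rf cs p s := rf_eq_of_root (Or.inl i4)
    refine ⟨i, j, i1, hij, j2, i3, j3, i4, j4.symm, imin, ?_⟩
    intro k k1 k2 k3
    by_cases hki : k = i
    · subst hki
      rw [flip_i_up hij i3] at k3
      exact (mul_simple_ne _ _ k3).elim
    by_cases hkj : k = j
    · subst hkj
      rw [rt_flip_mid hij le_rfl, hrf, ← rf_mul_self, pos_mul_iff, ← j4]
      exact pos_self _ _
    have k4 := (flip_contact_iff hki hkj).mp k3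
    rcases lt_or_gt_of_ne hki with l | l
    · rw [rt_flip_le l.le]
      exact (rt_root _ _ _).pos_mul_simple (hc k k1 k2 k4) (imin k k1 l k4)
    rcases lt_or_gt_of_ne hkj with l' | l'
    · rw [rt_flip_mid l l'.le, hrf, ← rf_mul_self, pos_mul_iff]
      exact hc k k1 k2 k4
    · rw [rt_flip_gt l']
      refine (rt_root _ _ _).pos_mul_simple (hc k k1 k2 k4) fun e => ?_
      have := hu.cross_neg (by omega) l' k2.le j3
      rw [← j4, ← e] at this
      exact (rt_root _ _ _).not_pos_neg (rt_pos _ _ _) this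
  · left
    push Not at c
    exact ⟨c, fun k k1 k2 k3 => (rt_root _ _ _).pos_mul_simple (hc k k1 k2 k3) (c k k1 k2 k3)⟩

theorem exists_conPos (hle : lo ≤ hi) (hu : RW cs Q u lo hi) {p : W}
    (hp : Btw cs (u lo) p (u hi)) :
    ∃ u', RW cs Q u' lo hi ∧ u' lo = u lo ∧ u' hi = u hi ∧ ConPos cs Q u' lo hi p := by
  induction hn : cs.length ((u lo)⁻¹ * p) generalizing p with
  | zero =>
    rw [cs.length_eq_zero_iff, inv_mul_eq_one] at hn
    rw [← hn]
    exact exists_base hle u hu
  | succ n ih =>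
    have hne : p ≠ u lo := by
      intro e
      rw [e, inv_mul_cancel, cs.length_one] at hn
      omega
    obtain ⟨p', s, rfl, l1, l2⟩ := exists_step (cs := cs) hne
    have hβ : IsRoot cs (geo cs p' (ee s)) := isRoot_geo_ee _ _
    have hp' : Btw cs (u lo) p' (u hi) := by
      intro r hr r1 r2
      have := hr.pos_mul_simple (i := s) (hp r hr r1 r2) (by
        rw [geo_mul_simple_ee]
        intro e
        rw [e, pos_neg_iff] at r1
        exact hβ.not_pos_neg l2 r1)
      rwa [cs.simple_mul_simple_cancel_right] at this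
    obtain ⟨v, hv, v1, v2, v3⟩ := ih hp' (by omega)
    have n1 : Neg cs (u hi) (geo cs p' (ee s)) := hp.neg hβ l2 (neg_self _ _)
    rcases step_up hle hv v3 (by rw [v1]; exact l2) (by rw [v2]; exact n1) with c | c
    · exact ⟨v, hv, v1, v2, c.2⟩
    · obtain ⟨i, j, i1, hij, j1, i2, j2, i3, j3, -, c⟩ := c
      refine ⟨_, hv.flip i1 hij j1 (Or.inl ⟨i2, j2, by rw [i3, j3]⟩), ?_, ?_, c⟩
      · rw [flipW_le i1, v1]
      · rw [flipW_gt j1, v2]

theorem unique_base (hle : lo ≤ hi) {u' : ℕ → W} (hu : RW cs Q u lo hi) (hu' : RW cs Q u' lo hi)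
    (e1 : u' lo = u lo) (e2 : u' hi = u hi) (c : ConPos cs Q u lo hi (u lo))
    (c' : ConPos cs Q u' lo hi (u lo)) : ∀ k, lo ≤ k → k ≤ hi → u' k = u k := by
  induction hi, hle using Nat.le_induction with
  | base => intro k h1 h2; rw [le_antisymm h2 h1]; exact e1
  | succ h hle ih =>
    have key : ∀ v : ℕ → W, RW cs Q v lo (h + 1) → ConPos cs Q v lo (h + 1) (v lo) →
        (Pos cs (v lo) (geo cs (v (h + 1)) (ee (Q h))) → v h = v (h + 1)) ∧
        (Neg cs (v lo) (geo cs (v (h + 1)) (ee (Q h))) → v h = v (h + 1) * cs.simple (Q h)) := by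
      intro v hv cv
      constructor
      · intro p1
        by_contra ne
        have x1 := hv.walk.cross hle (Nat.lt_succ_self h) (Ne.symm ne)
        have x2 := hv.red h hle (Nat.lt_succ_self h) (Ne.symm ne)
        rw [x1, geo_mul_simple_ee, pos_neg_iff] at p1
        exact (rt_root _ _ _).not_pos_neg x2 p1
      · intro n1
        rcases hv.walk h hle (Nat.lt_succ_self h) with e | e
        · have x2 := cv h hle (Nat.lt_succ_self h) e
          rw [e] at n1
          exact ((rt_root _ _ _).not_pos_neg x2 n1).elim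
        · rw [e, cs.simple_mul_simple_cancel_right]
    have e3 : u' h = u h := by
      have k1 := key u hu c
      have k2 := key u' hu' (by rw [e1]; exact c')
      rw [e1, e2] at k2
      rcases (isRoot_geo_ee (cs := cs) (u (h + 1)) (Q h)).pos_or_neg (u lo) with p1 | p1
      · rw [k1.1 p1, k2.1 p1]
      · rw [k1.2 p1, k2.2 p1]
    intro k k1 k2
    rcases Nat.lt_or_eq_of_le k2 with l | l
    · exact ih (hu.sub le_rfl (Nat.le_succ h)) (hu'.sub le_rfl (Nat.le_succ h)) e3
        (fun k a b => c k a (by omega)) (fun k a b => c' k a (by omega)) k k1 (by omega)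
    · rw [l]; exact e2

/-- Going down across the wall of `β = p e_s`. -/
theorem step_down (hu : RW cs Q u lo hi) {p : W} {s : B}
    (hc : ConPos cs Q u lo hi (p * cs.simple s)) (h1 : Pos cs (u lo) (geo cs p (ee s))) :
    ∃ w, RW cs Q w lo hi ∧ w lo = u lo ∧ w hi = u hi ∧ ConPos cs Q w lo hi p ∧
      ((u = w ∧ ∀ k, lo ≤ k → k < hi → w (k + 1) = w k → rt cs Q w k ≠ geo cs p (ee s)) ∨
      ∃ i j, lo ≤ i ∧ i < j ∧ j < hi ∧ w (i + 1) = w i ∧ w (j + 1) ≠ w j ∧
        rt cs Q w i = geo cs p (ee s) ∧ rt cs Q w j = geo cs p (ee s) ∧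
        (∀ k, lo ≤ k → k < i → w (k + 1) = w k → rt cs Q w k ≠ geo cs p (ee s)) ∧
        u = flipW cs Q w i j) := by
  classical
  have hβ : IsRoot cs (geo cs p (ee s)) := isRoot_geo_ee _ _
  have nb : ∀ k, lo ≤ k → k < hi → u (k + 1) = u k → rt cs Q u k ≠ geo cs p (ee s) := by
    intro k k1 k2 k3 e
    have := hc k k1 k2 k3
    rw [e] at this
    exact hβ.not_pos_neg this (neg_self _ _)
  have down : ∀ k, lo ≤ k → k < hi → u (k + 1) = u k → rt cs Q u k ≠ - geo cs p (ee s) →
      Pos cs p (rt cs Q u k) := by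
    intro k k1 k2 k3 k4
    have := (rt_root _ _ _).pos_mul_simple (i := s) (hc k k1 k2 k3)
      (by rw [geo_mul_simple_ee]; exact k4)
    rwa [cs.simple_mul_simple_cancel_right] at this
  by_cases c : ∃ k, lo ≤ k ∧ k < hi ∧ u (k + 1) = u k ∧ rt cs Q u k = - geo cs p (ee s)
  · obtain ⟨k0, k01, k02, k03, k04⟩ := c
    set P : ℕ → Prop := fun k => lo ≤ k ∧ k < hi ∧ u (k + 1) = u k ∧
      rt cs Q u k = - geo cs p (ee s) with hP
    have hj : P (Nat.findGreatest P hi) := Nat.findGreatest_spec k02.le ⟨k01, k02, k03, k04⟩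
    have jmax : ∀ k, Nat.findGreatest P hi < k → k < hi → ¬ P k := fun k a b =>
      Nat.findGreatest_is_greatest a b.le
    set j := Nat.findGreatest P hi
    obtain ⟨j1, j2, j3, j4⟩ := hj
    obtain ⟨i, i1, hij, i3, i4⟩ := hu.walk.sign_change le_rfl j1 j2.le hβ h1
      (by rw [← pos_neg_iff, ← j4]; exact rt_pos _ _ _)
    have d : FlipData cs Q u i j := Or.inr ⟨i3, j3, by rw [j4, neg_neg, i4]⟩
    have hrf : rf cs (u i) (Q i) = rf cs p s := rf_eq_of_root (Or.inl i4.symm)
    have ci := flip_i_down (cs := cs) (j := j) hij (hu.walk.cross i1 (by omega) i3)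
    have cj : flipW cs Q u i j (j + 1) ≠ flipW cs Q u i j j := by
      rw [flip_j_down hij d j3]; exact mul_simple_ne _ _
    refine ⟨flipW cs Q u i j, hu.flip i1 hij j2 d, flipW_le i1, flipW_gt j2, ?_, Or.inr
      ⟨i, j, i1, hij, j2, ci, cj, by rw [rt_flip_le le_rfl, i4], ?_, ?_, ?_⟩⟩
    · intro k k1 k2 k3
      by_cases hki : k = i
      · subst hki
        rw [rt_flip_le le_rfl, ← i4]
        exact pos_self _ _
      by_cases hkj : k = j
      · subst hkj; exact (cj k3).elim
      have k4 := (flip_contact_iff hki hkj).mp k3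
      rcases lt_or_gt_of_ne hki with l | l
      · rw [rt_flip_le l.le]
        refine down k k1 k2 k4 fun e => ?_
        have x1 := hu.cross_pos k1 l.le (by omega) i3
        have x2 := rt_pos (cs := cs) Q u k
        rw [e, pos_neg_iff] at x2
        rw [← i4] at x1
        exact hβ.not_pos_neg x1 x2
      rcases lt_or_gt_of_ne hkj with l' | l'
      · rw [rt_flip_mid l l'.le, hrf]
        have := hc k k1 k2 k4
        rw [← rf_mul_self, ← pos_mul_iff (rf cs p s), ← mul_assoc, rf_mul_rf, one_mul] at this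
        exact this
      · rw [rt_flip_gt l']
        exact down k k1 k2 k4 fun e => jmax k l' k2 ⟨k1, k2, k4, e⟩
    · rw [rt_flip_mid hij le_rfl, hrf, j4, map_neg, geo_rf_self, neg_neg]
    · intro k k1 k2 k3
      have k4 := (flip_contact_iff (by omega) (by omega)).mp k3
      rw [rt_flip_le k2.le]
      exact nb k k1 (by omega) k4
    · funext k
      rw [flipW_flipW]
  · push Not at c
    exact ⟨u, hu, rfl, rfl, fun k k1 k2 k3 => down k k1 k2 k3 (c k k1 k2 k3), Or.inl ⟨rfl, nb⟩⟩

lemma flipW_congr {w w' : ℕ → W} {i j k : ℕ} (e1 : w' i = w i) (e2 : w' k = w k) :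
    flipW cs Q w' i j k = flipW cs Q w i j k := by
  unfold flipW; rw [e1, e2]

theorem unique_conPos (hle : lo ≤ hi) {p : W} : ∀ {u u' : ℕ → W}, RW cs Q u lo hi →
    RW cs Q u' lo hi → u' lo = u lo → u' hi = u hi → ConPos cs Q u lo hi p →
    ConPos cs Q u' lo hi p → ∀ k, lo ≤ k → k ≤ hi → u' k = u k := by
  intro u u' hu hu' e1 e2 c c'
  induction hn : cs.length ((u lo)⁻¹ * p) generalizing p u u' with
  | zero =>
    rw [cs.length_eq_zero_iff, inv_mul_eq_one] at hn
    rw [← hn] at c c'
    exact unique_base hle hu hu' e1 e2 c c'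
  | succ n ih =>
    have hne : p ≠ u lo := by
      intro e
      rw [e, inv_mul_cancel, cs.length_one] at hn
      omega
    obtain ⟨p', s, rfl, l1, l2⟩ := exists_step (cs := cs) hne
    obtain ⟨w, hw, w1, w2, w3, w4⟩ := step_down hu c l2
    obtain ⟨w', hw', w1', w2', w3', w4'⟩ := step_down hu' c' (by rw [e1]; exact l2)
    have e : ∀ k, lo ≤ k → k ≤ hi → w' k = w k :=
      ih hw hw' (by rw [w1', w1, e1]) (by rw [w2', w2, e2]) w3 w3' (by rw [w1]; omega)
    have ert : ∀ k, lo ≤ k → k ≤ hi → rt cs Q w' k = rt cs Q w k := by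
      intro k a b; unfold rt; rw [e k a b]
    rcases w4 with ⟨a1, a2⟩ | ⟨i, j, i1, hij, j1, i2, j2, i3, j3, imin, a1⟩
    · rcases w4' with ⟨b1, b2⟩ | ⟨i', j', i1', hij', j1', i2', j2', i3', j3', imin', b1⟩
      · rw [a1, b1]; exact e
      · exfalso
        refine a2 i' i1' (by omega) ?_ ?_
        · rw [← e _ (by omega) (by omega), ← e _ (by omega) (by omega)]; exact i2'
        · rw [← ert _ (by omega) (by omega)]; exact i3'
    · rcases w4' with ⟨b1, b2⟩ | ⟨i', j', i1', hij', j1', i2', j2', i3', j3', imin', b1⟩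
      · exfalso
        refine b2 i i1 (by omega) ?_ ?_
        · rw [e _ (by omega) (by omega), e _ (by omega) (by omega)]; exact i2
        · rw [ert _ (by omega) (by omega)]; exact i3
      · have ei : i' = i := by
          rcases lt_trichotomy i' i with l | l | l
          · exfalso
            refine imin i' i1' l ?_ ?_
            · rw [← e _ (by omega) (by omega), ← e _ (by omega) (by omega)]; exact i2'
            · rw [← ert _ (by omega) (by omega)]; exact i3'
          · exact l
          · exfalso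
            refine imin' i i1 l ?_ ?_
            · rw [e _ (by omega) (by omega), e _ (by omega) (by omega)]; exact i2
            · rw [ert _ (by omega) (by omega)]; exact i3
        have ej : j' = j := by
          refine hw.cross_unique (by omega) j1' (by omega) j1 ?_ j2 ?_
          · rw [← e _ (by omega) (by omega), ← e _ (by omega) (by omega)]; exact j2'
          · rw [← ert _ (by omega) (by omega), j3', j3]
        intro k k1 k2
        rw [a1, b1, ei, ej]
        exact flipW_congr (e i i1 (by omega)) (e k k1 k2)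

end Pool.Agent.H176Z
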