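import Pool.Agent.H176Z.Weak

set_option autoImplicit false
set_option linter.unusedSectionVars false

namespace Pool.Agent.H176Z

open Pool.Agent.Helper741 Classical

variable {B : Type*} [Fintype B] [DecidableEq B] {M : CoxeterMatrix B}
variable {W : Type*} [Group W] {cs : CoxeterSystem M W}
variable {Q : ℕ → B} {u : ℕ → W} {m : ℕ}

lemma root_of_rf_eq {w w' : W} {i i' : B} (h : rf cs w i = rf cs w' i') :
    geo cs w (ee i) = geo cs w' (ee i') ∨ geo cs w (ee i) = - geo cs w' (ee i') := by
  have h1 := geo_rf_self (cs := cs) w i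
  rw [h, geo_rf] at h1
  set β := geo cs w (ee i)
  set β' := geo cs w' (ee i')
  have rβ : IsRoot cs β := isRoot_geo_ee _ _
  have rβ' : IsRoot cs β' := isRoot_geo_ee _ _
  have h2 : β = (K M β' β / 2) • β' := by
    have : (2 : ℝ) • β = K M β' β • β' := by
      rw [two_smul]
      calc β + β = β - (-β) := by rw [sub_neg_eq_add]
        _ = _ := by rw [← h1]; abel
    rw [div_eq_inv_mul, mul_smul, ← this, smul_smul]
    norm_num
  rcases le_total 0 (K M β' β / 2) with c | c
  · exact Or.inl (rβ.eq_of_smul rβ' c h2)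
  · right
    refine rβ.eq_of_smul rβ'.neg (a := -(K M β' β / 2)) (by linarith) ?_
    rw [smul_neg, neg_smul, neg_neg]; exact h2

/-- a geodesic between two chambers on both sides of a wall crosses it -/
theorem exists_cross {x : W} {β : B → ℝ} (hβ : IsRoot cs β) (hx : Pos cs x β) :
    ∀ y, Neg cs y β → ∃ p s, Btw cs x p y ∧ Btw cs x (p * cs.simple s) y ∧ β = geo cs p (ee s) := by
  intro y
  induction hn : cs.length (x⁻¹ * y) generalizing y with
  | zero =>
    intro hy
    rw [cs.length_eq_zero_iff, inv_mul_eq_one] at hn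
    rw [← hn] at hy
    exact (hβ.not_pos_neg hx hy).elim
  | succ n ih =>
    intro hy
    have hne : y ≠ x := by
      intro e
      rw [e, inv_mul_cancel, cs.length_one] at hn
      omega
    obtain ⟨p, s, e, l1, l2⟩ := exists_step (cs := cs) hne
    have b1 : Btw cs x p y := by rw [e]; exact btw_up l2
    rcases hβ.pos_or_neg p with c | c
    · refine ⟨p, s, b1, by rw [← e]; exact btw_right _ _, hβ.eq_of_flip c (by rw [← e]; exact hy)⟩
    · obtain ⟨p', s', k1, k2, k3⟩ := ih p (by omega) c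
      exact ⟨p', s', k1.trans b1, k2.trans b1, k3⟩

/-- two walks with the same ends whose contact sets differ by a flip -/
theorem eq_flip {u' : ℕ → W} (hu : RW cs Q u 0 m) (hu' : RW cs Q u' 0 m) (e0 : u' 0 = u 0)
    (em : u' m = u m) {i j : ℕ} (hij : i < j) (hj : j < m) (ci : u (i + 1) = u i)
    (cj : u' (j + 1) = u' j)
    (hc : ∀ k, k < m → ((k ≠ i ∧ u (k + 1) = u k) ↔ (k ≠ j ∧ u' (k + 1) = u' k))) :
    u (j + 1) ≠ u j ∧ rt cs Q u i = rt cs Q u j ∧ ∀ k, k ≤ m → u' k = flipW cs Q u i j k := by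
  have nj : u (j + 1) ≠ u j := fun e => ((hc j hj).mp ⟨by omega, e⟩).1 rfl
  have ni : u' (i + 1) ≠ u' i := fun e => ((hc i (by omega)).mpr ⟨by omega, e⟩).1 rfl
  have step : ∀ (g : W) k, k < m → k ≠ i → k ≠ j → u' k = g * u k → u' (k + 1) = g * u (k + 1) := by
    intro g k hk ki kj e
    by_cases c : u (k + 1) = u k
    · rw [((hc k hk).mp ⟨ki, c⟩).2, c, e]
    · have c' : u' (k + 1) ≠ u' k := fun e' => c ((hc k hk).mpr ⟨kj, e'⟩).2
      rw [hu.walk.cross (Nat.zero_le _) hk c, hu'.walk.cross (Nat.zero_le _) hk c', e, mul_assoc]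
  have a1 : ∀ k, k ≤ i → u' k = 1 * u k := by
    intro k
    induction k with
    | zero => intro _; rw [one_mul]; exact e0
    | succ k ih => intro hk; exact step 1 k (by omega) (by omega) (by omega) (ih (by omega))
  have a2 : ∀ k, i + 1 ≤ k → k ≤ j → u' k = rf cs (u i) (Q i) * u k := by
    intro k h1
    induction k, h1 using Nat.le_induction with
    | base =>
      intro _
      rw [hu'.walk.cross (Nat.zero_le _) (by omega) ni, a1 i le_rfl, one_mul, ci, rf_mul_self]
    | succ k h1 ih => intro hk; exact step _ k (by omega) (by omega) (by omega) (ih (by omega))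
  have a3 : ∀ k, j + 1 ≤ k → k ≤ m →
      u' k = (rf cs (u i) (Q i) * rf cs (u j) (Q j)) * u k := by
    intro k h1
    induction k, h1 using Nat.le_induction with
    | base =>
      intro _
      rw [cj, a2 j hij le_rfl, hu.walk.cross (Nat.zero_le _) hj nj, ← rf_mul_self, mul_assoc,
        ← mul_assoc (rf cs (u j) (Q j)), rf_mul_rf, one_mul]
    | succ k h1 ih => intro hk; exact step _ k (by omega) (by omega) (by omega) (ih (by omega))
  have g1 : rf cs (u i) (Q i) * rf cs (u j) (Q j) = 1 := by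
    have := a3 m hj le_rfl
    rw [em] at this
    exact mul_eq_right.mp this.symm
  have g2 : rf cs (u i) (Q i) = rf cs (u j) (Q j) := by
    rw [← mul_one (rf cs (u i) (Q i)), ← rf_mul_rf (cs := cs) (u j) (Q j), ← mul_assoc, g1, one_mul]
  refine ⟨nj, ?_, fun k hk => ?_⟩
  · rcases root_of_rf_eq g2 with e | e
    · exact e
    · exfalso
      have p1 : Pos cs (u i) (rt cs Q u j) := hu.cross_pos (Nat.zero_le _) hij.le hj nj
      have p2 : Pos cs (u i) (rt cs Q u i) := rt_pos _ _ _
      have e' : rt cs Q u i = - rt cs Q u j := e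
      rw [e', pos_neg_iff] at p2
      exact (rt_root _ _ _).not_pos_neg p1 p2
  · by_cases c1 : k ≤ i
    · rw [flipW_le c1, a1 k c1, one_mul]
    · by_cases c2 : k ≤ j
      · rw [flipW_mid (by omega) c2, a2 k (by omega) c2]
      · rw [flipW_gt (by omega), a3 k (by omega) hk, g1, one_mul]

/-- inner contacts of an extremal flip pair nonpositively with the flipped root -/
theorem inner_nonpos [Finite W] {T : ℕ → B → ℝ} (hT : Timed M Q T 0 m) (hu : RW cs Q u 0 m)
    {i j : ℕ} (hij : i < j) (hj : j < m) (ci : u (i + 1) = u i) (nj : u (j + 1) ≠ u j)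
    (e : rt cs Q u i = rt cs Q u j) (C : PointedCone ℝ (B → ℝ))
    (hC : ∀ k, k < m → u (k + 1) = u k → rt cs Q u k ∈ C)
    (hE : IsExtreme ℝ (C : Set (B → ℝ)) (PointedCone.hull ℝ {rt cs Q u i} : Set (B → ℝ)))
    {k : ℕ} (h1 : i < k) (h2 : k < j) (ck : u (k + 1) = u k) (hne : rt cs Q u k ≠ rt cs Q u i) :
    K M (rt cs Q u i) (rt cs Q u k) ≤ 0 := by
  have e1 : geo cs (u (i + 1)) (ee (Q i)) = rt cs Q u i := by rw [ci]; rfl
  have pos : ∀ l, l ≤ j → Pos cs (u l) (rt cs Q u i) := fun l hl => by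
    rw [e]; exact hu.cross_pos (Nat.zero_le _) hl hj nj
  obtain ⟨N, hN, hN'⟩ := hammock (cs := cs) (Q := Q) (u := u) (T := T) (a := i + 1) (t := j)
    (b := j) hij le_rfl (hT.sub (Nat.zero_le _) hj.le) (hu.sub (Nat.zero_le _) hj.le)
    (hu.sub (Nat.zero_le _) hj.le) (i := Q i) (j := Q j) (by rw [e1, e]; rfl)
    (by rw [e1]; exact pos j le_rfl)
  have emp : Eset cs (u (i + 1)) (u j) (u j) (Q i) = ∅ := by
    unfold Eset
    rw [Finset.filter_eq_empty_iff]
    intro r hr h
    exact (mem_Phi.mp hr).not_pos_neg h.1 h.2.2.1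
  rw [emp, Finset.sum_empty, add_zero, e1] at hN'
  set β := rt cs Q u i with hβ
  unfold Csum at hN'
  rw [← Finset.add_sum_erase _ _ (show k ∈ Finset.Ico (i + 1) j by simp; omega), if_pos ck] at hN'
  have c0 : ∀ l, l ≤ j → 0 ≤ geo cs (u l)⁻¹ β (Q l) := fun l hl => pos l hl (Q l)
  rcases (c0 k h2.le).lt_or_eq with c | c
  · exfalso
    apply hne
    set S := ∑ l ∈ (Finset.Ico (i + 1) j).erase k,
      (if u (l + 1) = u l then geo cs (u l)⁻¹ β (Q l) • rt cs Q u l else 0) with hS
    have mS : S ∈ C := by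
      refine C.sum_mem fun l hl => ?_
      have hl' := Finset.mem_Ico.mp (Finset.mem_of_mem_erase hl)
      split_ifs with c'
      · exact C.smul_mem (c0 l hl'.2.le) (hC l (by omega) c')
      · exact C.zero_mem
    set a := geo cs (u k)⁻¹ β (Q k)
    have m1 : (2 * a) • rt cs Q u k ∈ C := C.smul_mem (by linarith) (hC k (by omega) ck)
    have m2 : (2 : ℝ) • S ∈ C := C.smul_mem (by norm_num) mS
    have m3 : N • β ∈ PointedCone.hull ℝ {β} :=
      PointedCone.smul_mem _ hN (PointedCone.subset_hull rfl)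
    have m4 := hE.left_mem_of_mem_openSegment m1 m2 m3
      ⟨1 / 2, 1 / 2, by norm_num, by norm_num, by norm_num, by
        rw [hN', smul_smul, smul_smul]
        congr 1
        · congr 1; ring
        · norm_num⟩
    obtain ⟨b, hb⟩ := Submodule.mem_span_singleton.mp m4
    have hb' : b.1 • β = (2 * a) • rt cs Q u k := hb
    refine (rt_root _ _ _).eq_of_smul (rt_root _ _ _) (a := (2 * a)⁻¹ * b.1)
      (mul_nonneg (by positivity) b.2) ?_
    rw [mul_smul, hb', smul_smul, inv_mul_cancel₀ (by positivity), one_smul]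
  · have := K_ee_nonpos (M := M) (i := Q k) (pos k h2.le) c.symm
    rw [← K_geo cs (u k), geo_apply_inv, K_comm] at this
    exact this

/-- an extremal flip between two acyclic walks comes from a single wall crossing -/
theorem cover_of_flip [Finite W] {T : ℕ → B → ℝ} (hT : Timed M Q T 0 m) (hu : RW cs Q u 0 m)
    {i j : ℕ} (hij : i < j) (hj : j < m) (ci : u (i + 1) = u i) (nj : u (j + 1) ≠ u j)
    (e : rt cs Q u i = rt cs Q u j) (C : PointedCone ℝ (B → ℝ))
    (hC : ∀ k, k < m → u (k + 1) = u k → rt cs Q u k ∈ C)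
    (hE : IsExtreme ℝ (C : Set (B → ℝ)) (PointedCone.hull ℝ {rt cs Q u i} : Set (B → ℝ)))
    {x y : W} (hx : ConPos cs Q u 0 m x) (hy : ConPos cs Q (flipW cs Q u i j) 0 m y) :
    ∃ p s, Btw cs x p y ∧ Btw cs x (p * cs.simple s) y ∧ rt cs Q u i = geo cs p (ee s) ∧
      ConPos cs Q u 0 m p ∧ ConPos cs Q (flipW cs Q u i j) 0 m (p * cs.simple s) := by
  have d : FlipData cs Q u i j := Or.inl ⟨ci, nj, e⟩
  have cj := flip_j_up hij d (hu.walk.cross (Nat.zero_le _) hj nj)
  have rβ : IsRoot cs (rt cs Q u i) := rt_root _ _ _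
  have ny : Neg cs y (rt cs Q u i) := by
    have := hy j (Nat.zero_le _) hj cj
    rw [rt_flip_mid hij le_rfl, ← e] at this
    unfold rt at this ⊢
    rwa [geo_rf_self, pos_neg_iff] at this
  obtain ⟨p, s, b1, b2, eβ⟩ := exists_cross rβ (hx i (Nat.zero_le _) (by omega) ci) y ny
  have outer : ∀ k, k < m → (k < i ∨ j < k) → u (k + 1) = u k → Pos cs y (rt cs Q u k) := by
    intro k hk h c
    have := hy k (Nat.zero_le _) hk ((flip_contact_iff (by omega) (by omega)).mpr c)
    rcases h with h | h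
    · rwa [rt_flip_le h.le] at this
    · rwa [rt_flip_gt h] at this
  have hp : ConPos cs Q u 0 m p := by
    intro k _ hk c
    by_cases hne : rt cs Q u k = rt cs Q u i
    · rw [hne, eβ]; exact pos_self _ _
    refine b1 _ (rt_root _ _ _) (hx k (Nat.zero_le _) hk c) ?_
    by_cases h : k < i ∨ j < k
    · exact outer k hk h c
    have ki : k ≠ i := fun h => hne (by rw [h])
    have kj : k ≠ j := fun h => nj (by rw [← h]; exact c)
    have k1 := inner_nonpos hT hu hij hj ci nj e C hC hE (k := k) (by omega) (by omega) c hne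
    have k2 := hy k (Nat.zero_le _) hk ((flip_contact_iff ki kj).mpr c)
    rw [rt_flip_mid (by omega) (by omega), geo_rf] at k2
    have k3 := k2.add ((pos_neg_iff.mpr ny).smul (neg_nonneg.mpr k1))
    have k4 : rt cs Q u k - K M (geo cs (u i) (ee (Q i))) (rt cs Q u k) • geo cs (u i) (ee (Q i)) +
        -K M (rt cs Q u i) (rt cs Q u k) • -rt cs Q u i = rt cs Q u k := by
      unfold rt
      rw [neg_smul, smul_neg, neg_neg, sub_add_cancel]
    rwa [k4] at k3
  refine ⟨p, s, b1, b2, eβ, hp, ?_⟩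
  intro k _ hk c
  have er : rf cs (u i) (Q i) = rf cs p s := rf_eq_of_root (Or.inl eβ)
  by_cases h : k < i ∨ j < k
  · have c' := (flip_contact_iff (by omega) (by omega)).mp c
    have : rt cs Q (flipW cs Q u i j) k = rt cs Q u k := by
      rcases h with h | h
      · exact rt_flip_le h.le
      · exact rt_flip_gt h
    rw [this]
    exact b2 _ (rt_root _ _ _) (hx k (Nat.zero_le _) hk c') (outer k hk h c')
  have ki : k ≠ i := by
    rintro rfl
    rw [flip_i_up hij ci] at c
    exact mul_simple_ne _ _ c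
  rw [rt_flip_mid (by omega) (by omega), er, ← rf_mul_self, pos_mul_iff]
  by_cases kj : k = j
  · rw [kj, ← e, eβ]; exact pos_self _ _
  · exact hp k (Nat.zero_le _) hk ((flip_contact_iff ki kj).mp c)

/-- a simple root of a chamber spans an extreme ray of every cone of positive vectors
containing it -/
theorem extreme_of_simple {p : W} {s : B} {R : Set (B → ℝ)} (hR : ∀ r ∈ R, Pos cs p r)
    (hβ : geo cs p (ee s) ∈ R) :
    IsExtreme ℝ (PointedCone.hull ℝ R : Set (B → ℝ))
      (PointedCone.hull ℝ {geo cs p (ee s)} : Set (B → ℝ)) := by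
  have hpos : ∀ r ∈ PointedCone.hull ℝ R, Pos cs p r := by
    intro r hr
    induction hr using Submodule.span_induction with
    | mem r h => exact hR r h
    | zero => exact pos_zero _
    | add a b _ _ ha hb => exact ha.add hb
    | smul a r _ h => exact h.smul a.2
  refine ⟨Submodule.span_mono (Set.singleton_subset_iff.mpr hβ), ?_⟩
  rintro x hx y hy z hz ⟨a, b, ha, hb, -, rfl⟩
  obtain ⟨c, hc⟩ := Submodule.mem_span_singleton.mp hz
  have hc' : c.1 • geo cs p (ee s) = a • x + b • y := hc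
  have h1 : c.1 • ee s = a • geo cs p⁻¹ x + b • geo cs p⁻¹ y := by
    rw [← map_smul, ← map_smul, ← map_add, ← hc', map_smul, geo_inv_apply]
  have px := hpos x hx
  have py := hpos y hy
  have h2 : geo cs p⁻¹ x = geo cs p⁻¹ x s • ee s := by
    apply eq_smul_ee_of
    intro j hj
    have h3 := congrFun h1 j
    have h4 : 0 ≤ geo cs p⁻¹ x j := px j
    have h5 : 0 ≤ geo cs p⁻¹ y j := py j
    simp [ee, hj] at h3
    nlinarith
  have h3 : x = geo cs p⁻¹ x s • geo cs p (ee s) := by
    rw [← map_smul, ← h2, geo_apply_inv]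
  rw [h3]
  exact PointedCone.smul_mem _ (px s) (PointedCone.subset_hull rfl)

end Pool.Agent.H176Z
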