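import Pool.Agent.H176Z.Pot

set_option autoImplicit false
set_option linter.unusedSectionVars false

namespace Pool.Agent.H176Z

open Pool.Agent.Helper741 Classical

variable {B : Type*} [Fintype B] [DecidableEq B] {M : CoxeterMatrix B}
variable {W : Type*} [Group W] {cs : CoxeterSystem M W} [Finite W]
variable {Q : ℕ → B} {u : ℕ → W} {lo hi : ℕ} {T : ℕ → B → ℝ}

lemma K_Psi_simple {S : B → ℝ} {τ : ℝ} {q : B} (h : ∀ t, t ≠ q → cc M q t ≠ 0 → S t = τ)
    (w : W) (ρ : B → ℝ) :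
    K M (Psi cs S w ρ) (geo cs w (ee q)) - K M (Psi cs S w (geo cs w (ee q))) ρ =
      (S q - τ) * (2 * geo cs w⁻¹ ρ q - K M ρ (geo cs w (ee q))) := by
  rw [Psi_simple, K_smul_left]
  unfold Psi
  rw [K_geo, K_comm _ (ee q), K_ee_left, coroot_diag h, ← K_ee_left, ← K_geo cs w (ee q),
    geo_apply_inv, K_comm ρ]
  ring

/-- The skew quantity cannot go from positive to negative. -/
lemma omega_contra (hT : Timed M Q T lo hi) (hu : Walk cs Q u lo hi) {t2 t3 : ℕ} (h2 : lo ≤ t2)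
    (h23 : t2 < t3) (h3 : t3 < hi) (c2 : u (t2 + 1) = u t2) (hβ : rt cs Q u t2 = rt cs Q u t3)
    {ρ : B → ℝ} (hK : K M ρ (rt cs Q u t3) < 0)
    (pρ : ∀ k, t2 ≤ k → k ≤ t3 → Pos cs (u k) ρ)
    (pβ : ∀ k, t2 ≤ k → k ≤ t3 → Pos cs (u k) (rt cs Q u t3))
    (hc : ∀ k, t2 < k → k < t3 → u (k + 1) = u k →
      geo cs (u k)⁻¹ ρ (Q k) = 0 ∨ rt cs Q u k = rt cs Q u t3) : False := by
  set β := rt cs Q u t3 with hβd
  set Ω : ℕ → ℝ := fun k => K M (Psi cs (T k) (u k) ρ) β - K M (Psi cs (T k) (u k) β) ρ with hΩ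
  have s1 : 0 < Ω (t2 + 1) := by
    have := K_Psi_simple (cs := cs) (S := T (t2 + 1)) (τ := T t2 (Q t2) + 1) (q := Q t2)
      (fun t ht hc => by rw [hT.same t2 h2 (by omega) t ht, hT.nb t2 h2 (by omega) t ht hc])
      (u t2) ρ
    have e : geo cs (u t2) (ee (Q t2)) = β := hβ
    rw [e, hT.step t2 h2 (by omega)] at this
    simp only [hΩ, c2, this]
    have h4 : 0 ≤ geo cs (u t2)⁻¹ ρ (Q t2) := pρ t2 le_rfl h23.le (Q t2)
    linarith
  have s3 : Ω t3 < 0 := by
    have := K_Psi_simple (cs := cs) (S := T t3) (τ := T t3 (Q t3) + 1) (q := Q t3)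
      (fun t ht hc => hT.nb t3 (by omega) h3 t ht hc) (u t3) ρ
    have e : geo cs (u t3) (ee (Q t3)) = β := rfl
    rw [e] at this
    simp only [hΩ, this]
    have h4 : 0 ≤ geo cs (u t3)⁻¹ ρ (Q t3) := pρ t3 h23.le le_rfl (Q t3)
    linarith
  have s2 : ∀ k, t2 < k → k < t3 → Ω k ≤ Ω (k + 1) := by
    intro k k1 k2
    simp only [hΩ]
    rw [Psi_step hT hu (by omega) (by omega) ρ, Psi_step hT hu (by omega) (by omega) β]
    split_ifs with c
    · rw [K_add_left, K_add_left, K_smul_left, K_smul_left]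
      have d0 : 0 ≤ geo cs (u k)⁻¹ β (Q k) := pβ k k1.le k2.le (Q k)
      have c0 : 0 ≤ geo cs (u k)⁻¹ ρ (Q k) := pρ k k1.le k2.le (Q k)
      rcases hc k k1 k2 c with e | e
      · have : K M (rt cs Q u k) ρ ≤ 0 := by
          unfold rt
          rw [← K_geo cs (u k)⁻¹, geo_inv_apply]
          exact K_ee_nonpos (pρ k k1.le k2.le) e
        rw [e]
        nlinarith
      · have e2 : geo cs (u k)⁻¹ β (Q k) = 1 := by
          rw [← e]; unfold rt; rw [geo_inv_apply]; simp [ee]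
        rw [e, e2, (rt_root Q u t3).K_self, K_comm β ρ]
        nlinarith
    · rw [K_add_left, K_add_left, K_smul_left, K_smul_left, K_comm (rt cs Q u k) β,
        K_comm (rt cs Q u k) ρ]
      nlinarith
  have s4 : ∀ k, t2 + 1 ≤ k → k ≤ t3 → 0 < Ω k := by
    intro k k1
    induction k, k1 using Nat.le_induction with
    | base => intro _; exact s1
    | succ k k1 ih => intro k2; exact lt_of_lt_of_le (ih (by omega)) (s2 k (by omega) (by omega))
  exact absurd (s4 t3 h23 le_rfl) (not_lt.mpr s3.le)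

lemma RW.uncross (hu : RW cs Q u lo hi) {t : ℕ} (h1 : lo ≤ t) (h2 : t < hi)
    (c : u (t + 1) ≠ u t) : RW cs Q (flipW cs Q u t hi) t hi := by
  have c1 := flip_i_down (cs := cs) (j := hi) h2 (hu.walk.cross h1 h2 c)
  have h3 := (hu.sub (a := t + 1) (b := hi) (by omega) le_rfl).mul (rf cs (u t) (Q t))
  constructor
  · intro k k1 k2
    rcases Nat.lt_or_eq_of_le k1 with l | l
    · rw [flipW_mid l k2.le, flipW_mid (by omega) (by omega)]
      exact h3.walk k l k2
    · left; rw [← l]; exact c1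
  · intro k k1 k2 k3
    rcases Nat.lt_or_eq_of_le k1 with l | l
    · rw [flipW_mid l k2.le, flipW_mid (by omega) (by omega)] at k3
      have := h3.red k l k2 k3
      rw [← c1, flipW_mid (by omega) (by omega)]
      unfold rt at this ⊢
      rw [flipW_mid l k2.le]
      exact this
    · rw [← l] at k3; exact (k3 c1).elim

theorem key (hT : Timed M Q T lo hi) (hu : RW cs Q u lo hi) {t2 t3 : ℕ} (h2 : lo ≤ t2)
    (h23 : t2 < t3) (h3 : t3 < hi) (c2 : u (t2 + 1) = u t2) (c3 : u (t3 + 1) ≠ u t3)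
    (hβ : rt cs Q u t2 = rt cs Q u t3) (f : (B → ℝ) →ₗ[ℝ] ℝ) (fβ : f (rt cs Q u t3) = 0)
    (f0 : ∀ k, lo ≤ k → k < hi → u (k + 1) = u k → 0 ≤ f (rt cs Q u k))
    (f1 : ∀ k, t2 < k → k < t3 → u (k + 1) = u k →
      0 < f (rt cs Q u k) ∨ rt cs Q u k = rt cs Q u t3) :
    ∀ n k1 k2 : ℕ, ∀ ρ : B → ℝ, k2 - k1 = n → lo ≤ k1 → k1 < t2 → t3 < k2 → k2 < hi →
      ρ = geo cs (u (k1 + 1)) (ee (Q k1)) → geo cs (rf cs (u t3) (Q t3)) ρ = rt cs Q u k2 →
      Pos cs (u t3) ρ → K M ρ (rt cs Q u t3) < 0 → f ρ ≤ 0 → False := by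
  intro n
  induction n using Nat.strong_induction_on with
  | _ n ih =>
  intro k1 k2 ρ hn a1 a2 a3 a4 e1 e2 p3 hK fρ
  set β := rt cs Q u t3 with hβd
  have rβ : IsRoot cs β := rt_root _ _ _
  set σ := rf cs (u t3) (Q t3) with hσ
  have σe : ∀ v, geo cs σ v = v - K M β v • β := geo_rf _ _
  have σσ : ∀ v, geo cs σ (geo cs σ v) = v := rf_rf _ _
  have fσ : ∀ v, f (geo cs σ v) = f v := by
    intro v; rw [σe, map_sub, map_smul, fβ]; simp
  set v := flipW cs Q u t3 hi with hv
  have v1 : ∀ k, k ≤ t3 → v k = u k := fun k h => flipW_le h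
  have v2 : ∀ k, t3 < k → k ≤ hi → v k = σ * u k := fun k h h' => flipW_mid h h'
  have r1 : ∀ k, k ≤ t3 → rt cs Q v k = rt cs Q u k := fun k h => rt_flip_le h
  have r2 : ∀ k, t3 < k → k ≤ hi → rt cs Q v k = geo cs σ (rt cs Q u k) :=
    fun k h h' => rt_flip_mid h h'
  have vc : v (t3 + 1) = v t3 := flip_i_down h3 (hu.walk.cross (by omega) h3 c3)
  have hv1 : RW cs Q v (k1 + 1) t3 :=
    (hu.sub (a := k1 + 1) (b := t3) (by omega) h3.le).congr (fun k _ h => v1 k h) (by omega)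
  have hv2 : RW cs Q v t3 k2 := (hu.uncross (by omega) h3 c3).sub le_rfl a4.le
  have eρ : ρ = geo cs (v (k1 + 1)) (ee (Q k1)) := by rw [v1 _ (by omega)]; exact e1
  have eρ2 : ρ = geo cs (v k2) (ee (Q k2)) := by
    have : rt cs Q v k2 = ρ := by rw [r2 k2 a3 a4.le, ← e2, σσ]
    exact this.symm
  have rρ : IsRoot cs ρ := by rw [e1]; exact isRoot_geo_ee _ _
  have pβa : Pos cs (u (k1 + 1)) β := hu.cross_pos (by omega) (by omega) h3 c3
  obtain ⟨N, N0, hN⟩ := hammock (cs := cs) (Q := Q) (u := v) (T := T) (a := k1 + 1) (t := t3)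
    (b := k2) (by omega) a3.le (hT.sub (by omega) a4.le) hv1 hv2 (i := Q k1) (j := Q k2)
    (by rw [← eρ, ← eρ2]) (by rw [← eρ, v1 t3 le_rfl]; exact p3)
  rw [← eρ] at hN
  by_cases hE : ∃ e ∈ Eset cs (v (k1 + 1)) (v t3) (v k2) (Q k1), f e ≤ 0
  · obtain ⟨e, he, fe⟩ := hE
    simp only [Eset, Finset.mem_filter, mem_Phi] at he
    obtain ⟨re, pe, na, nb, -⟩ := he
    obtain ⟨j1, j11, j12, j13, j14⟩ := hv1.walk.sign_change le_rfl (by omega) le_rfl re.neg
      (pos_neg_iff.mpr na) (neg_neg_iff.mpr pe)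
    obtain ⟨j2, j21, j22, j23, j24⟩ := hv2.walk.sign_change le_rfl a3.le le_rfl re pe nb
    have j25 : t3 < j2 := by
      rcases Nat.lt_or_eq_of_le j21 with l | l
      · exact l
      · rw [← l] at j23; exact (j23 vc).elim
    rw [v1 _ (by omega)] at na
    rw [v1 _ le_rfl] at pe
    rw [v1 _ (by omega), v1 _ (by omega)] at j13
    rw [r1 _ (by omega)] at j14
    have σe2 : geo cs σ e = rt cs Q u j2 := by rw [j24, r2 _ j25 (by omega), σσ]
    have cj2 : u (j2 + 1) ≠ u j2 := by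
      intro h
      apply j23
      rw [v2 _ (by omega) (by omega), v2 _ j25 (by omega), h]
    have pσ : Pos cs (u (k1 + 1)) (geo cs σ e) := by
      rw [σe2]; exact hu.cross_pos (by omega) (by omega) (by omega) cj2
    have rσ : IsRoot cs (geo cs σ e) := re.map _
    have Ke : K M e β < 0 := by
      by_contra c
      push Not at c
      apply rσ.not_pos_neg pσ
      rw [σe, sub_eq_add_neg, ← smul_neg, K_comm β e]
      exact na.add ((neg_neg_iff.mpr pβa).smul c)
    have eneβ : e ≠ β := by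
      intro h; rw [h] at na; exact rβ.not_pos_neg pβa na
    have j15 : j1 < t2 := by
      by_contra c
      push Not at c
      have x1 : Pos cs (u t2) (-e) := by
        rw [j14]; exact hu.cross_pos h2 c (by omega) j13
      have x2 : Pos cs (u t2) (geo cs (rf cs (u t2) (Q t2)) (-e)) := by
        refine re.neg.pos_rf x1 fun h => ?_
        have h' : -e = β := h.trans hβ
        rw [← neg_neg_iff, h'] at pe
        exact rβ.not_pos_neg (rt_pos _ _ _) pe
      rw [rf_eq_of_root (w' := u t3) (i' := Q t3) (Or.inl hβ), map_neg, pos_neg_iff] at x2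
      have x3 := hu.mono' (a := k1 + 1) (k := t2) (l := t3) (by omega) (by omega) h23.le h3.le rσ
        pσ x2
      exact rσ.not_pos_neg (re.pos_rf pe eneβ) x3
    refine ih (j2 - j1) (by omega) j1 j2 e rfl (by omega) j15 j25 (by omega) ?_ σe2 pe Ke fe
    rw [hu.walk.cross (by omega) (by omega) j13, geo_mul_simple_ee]
    have : -e = geo cs (u j1) (ee (Q j1)) := j14
    rw [← this, neg_neg]
  · push Not at hE
    have pρ : ∀ k, k1 + 1 ≤ k → k ≤ k2 → Pos cs (v k) ρ := by
      intro k b1 b2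
      have pa : Pos cs (v (k1 + 1)) ρ := by rw [eρ]; exact pos_self _ _
      have pt : Pos cs (v t3) ρ := by rw [v1 _ le_rfl]; exact p3
      have pb : Pos cs (v k2) ρ := by rw [eρ2]; exact pos_self _ _
      by_cases c : k ≤ t3
      · exact hv1.between b1 c le_rfl rρ pa pt
      · exact hv2.between (by omega) b2 le_rfl rρ pt pb
    have fv : ∀ k, k1 + 1 ≤ k → k < k2 → v (k + 1) = v k → 0 ≤ f (rt cs Q v k) := by
      intro k b1 b2 b3
      rcases lt_trichotomy k t3 with l | l | l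
      · rw [v1 _ (by omega), v1 _ l.le] at b3
        rw [r1 _ l.le]; exact f0 k (by omega) (by omega) b3
      · rw [l, r1 _ le_rfl, fβ]
      · rw [v2 _ (by omega) (by omega), v2 _ l (by omega), mul_right_inj] at b3
        rw [r2 _ l (by omega), fσ]; exact f0 k (by omega) (by omega) b3
    have z1 : 0 ≤ f (∑ e ∈ Eset cs (v (k1 + 1)) (v t3) (v k2) (Q k1), K M ρ e • e) := by
      rw [map_sum]
      refine Finset.sum_nonneg fun e he => ?_
      rw [map_smul, smul_eq_mul]
      have := Eset_K_pos (by rw [← eρ, v1 t3 le_rfl]; exact p3) he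
      rw [← eρ] at this
      exact mul_nonneg this (hE e he).le
    have z2 : ∀ k ∈ Finset.Ico (k1 + 1) k2, 0 ≤ f (if v (k + 1) = v k then
        geo cs (v k)⁻¹ ρ (Q k) • rt cs Q v k else 0) := by
      intro k hk
      rw [Finset.mem_Ico] at hk
      split_ifs with c
      · rw [map_smul, smul_eq_mul]
        exact mul_nonneg (pρ k hk.1 hk.2.le (Q k)) (fv k hk.1 hk.2 c)
      · simp
    have z3 : ∑ k ∈ Finset.Ico (k1 + 1) k2, f (if v (k + 1) = v k then
        geo cs (v k)⁻¹ ρ (Q k) • rt cs Q v k else 0) = 0 := by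
      apply le_antisymm _ (Finset.sum_nonneg z2)
      have := congrArg f hN
      rw [map_smul, smul_eq_mul, map_add] at this
      unfold Csum at this
      rw [map_sum] at this
      nlinarith
    rw [Finset.sum_eq_zero_iff_of_nonneg z2] at z3
    refine omega_contra hT hu.walk h2 h23 h3 c2 hβ hK ?_ ?_ ?_
    · intro k b1 b2
      rw [← v1 k b2]; exact pρ k (by omega) (by omega)
    · intro k b1 b2
      exact hu.cross_pos (by omega) b2 h3 c3
    · intro k b1 b2 b3
      rcases f1 k b1 b2 b3 with c | c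
      · left
        have := z3 k (by rw [Finset.mem_Ico]; omega)
        rw [v1 _ (by omega), v1 _ b2.le, if_pos b3, r1 _ b2.le, map_smul, smul_eq_mul] at this
        exact (mul_eq_zero.mp this).resolve_right c.ne'
      · exact Or.inr c

end Pool.Agent.H176Z
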