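import Pool.Agent.H176Z.Defs

set_option autoImplicit false

namespace Pool.Agent.H176Z

open Relation

theorem bez {α : Type*} [PartialOrder α] [Finite α]
    (h : ∀ x a b : α, x ⋖ a → x ⋖ b → ∃ c, IsLUB {a, b} c) :
    ∀ z x y : α, z ≤ x → z ≤ y → ∃ c, IsLUB {x, y} c := by
  intro z
  induction z using WellFoundedGT.induction with
  | _ z ih =>
  intro x y hx hy
  rcases hx.lt_or_eq with hx' | rfl
  swap
  · refine ⟨y, ?_, fun v hv => hv (by simp)⟩
    intro v hv
    rcases hv with rfl | rfl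
    · exact hy
    · exact le_rfl
  rcases hy.lt_or_eq with hy' | rfl
  swap
  · refine ⟨x, ?_, fun v hv => hv (by simp)⟩
    intro v hv
    rcases hv with rfl | rfl
    · exact le_rfl
    · exact hx
  obtain ⟨a, a1, a2⟩ := exists_covBy_le_of_lt hx'
  obtain ⟨b, b1, b2⟩ := exists_covBy_le_of_lt hy'
  obtain ⟨c, hc⟩ := h z a b a1 b1
  have ac : a ≤ c := hc.1 (by simp)
  have bc : b ≤ c := hc.1 (by simp)
  obtain ⟨d, hd⟩ := ih a a1.lt x c a2 ac
  obtain ⟨e, he⟩ := ih b b1.lt d y (bc.trans (hd.1 (by simp))) b2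
  refine ⟨e, ?_, ?_⟩
  · intro v hv
    rcases hv with rfl | rfl
    · exact (hd.1 (by simp)).trans (he.1 (by simp))
    · exact he.1 (by simp)
  · intro v hv
    have xv : x ≤ v := hv (by simp)
    have yv : y ≤ v := hv (by simp)
    have cv : c ≤ v := hc.2 (by
      intro w hw
      rcases hw with rfl | rfl
      · exact a2.trans xv
      · exact b2.trans yv)
    have dv : d ≤ v := hd.2 (by
      intro w hw
      rcases hw with rfl | rfl
      · exact xv
      · exact cv)
    exact he.2 (by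
      intro w hw
      rcases hw with rfl | rfl
      · exact dv
      · exact yv)

theorem sup_compat {α : Type*} [SemilatticeSup α] [Finite α] {r : α → α → Prop}
    (hr : Equivalence r) (conn : ∀ x y, r x y → EqvGen (fun a b => a ⋖ b ∧ r a b) x y)
    (poly : ∀ x y z, x ⋖ y → x ⋖ z → y ≠ z → r x y →
      ReflTransGen (fun a b => a ⋖ b ∧ r a b) z (y ⊔ z)) :
    ∀ x y z, r x y → r (x ⊔ z) (y ⊔ z) := by
  have main : ∀ x y z, x ⋖ y → r x y → r (x ⊔ z) (y ⊔ z) := by
    intro x
    induction x using WellFoundedGT.induction with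
    | _ x ih =>
    intro y z hxy rxy
    have e : y ⊔ z = y ⊔ (x ⊔ z) := by rw [← sup_assoc, sup_eq_left.mpr hxy.le]
    rw [e]
    have hx : x ≤ x ⊔ z := le_sup_left
    generalize x ⊔ z = w at hx
    rcases hx.lt_or_eq with hx' | rfl
    swap
    · rwa [sup_eq_left.mpr hxy.le]
    obtain ⟨a, a1, a2⟩ := exists_covBy_le_of_lt hx'
    by_cases c : y = a
    · rw [c, sup_eq_right.mpr a2]; exact hr.refl _
    have key : ∀ b, ReflTransGen (fun a b => a ⋖ b ∧ r a b) a b → x < b ∧ r (a ⊔ w) (b ⊔ w) := by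
      intro b hb
      induction hb with
      | refl => exact ⟨a1.lt, hr.refl _⟩
      | tail _ h2 ih2 => exact ⟨ih2.1.trans h2.1.lt, hr.trans ih2.2 (ih _ ih2.1 _ w h2.1 h2.2)⟩
    have := (key _ (poly x y a hxy a1 c rxy)).2
    rwa [sup_assoc, sup_eq_right.mpr a2] at this
  intro x y z h
  have := conn x y h
  clear h
  induction this with
  | rel a b h => exact main a b z h.1 h.2
  | refl a => exact hr.refl _
  | symm a b _ ih => exact hr.symm ih
  | trans a b c _ _ ih1 ih2 => exact hr.trans ih1 ih2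

variable {α : Type*} [Lattice α] (c : LatticeCon α)

lemma qle_mk {x y : α} :
    QLE c (Quotient.mk c.toSetoid x) (Quotient.mk c.toSetoid y) ↔ c.r (x ⊔ y) y := by
  constructor
  · rintro ⟨x', y', h1, h2, h3⟩
    have e1 : c.r x' x := Quotient.exact h1
    have e2 : c.r y' y := Quotient.exact h2
    exact c.trans (c.symm (c.sup e1 e2)) (c.trans h3 e2)
  · intro h; exact ⟨x, y, rfl, rfl, h⟩

theorem qcov_iff [Finite α] (a b : Quotient c.toSetoid) : QCov c a b ↔
    ∃ x y : α, x ⋖ y ∧ ¬ c.r x y ∧ Quotient.mk c.toSetoid x = a ∧ Quotient.mk c.toSetoid y = b := by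
  constructor
  · rintro ⟨⟨x, y, rfl, rfl, h1⟩, h2, h3⟩
    have key : ∀ x v : α, x ≤ v → ¬ c.r x v →
        ∃ x' y', x' ⋖ y' ∧ y' ≤ v ∧ c.r x x' ∧ ¬ c.r x' y' := by
      intro x
      induction x using WellFoundedGT.induction with
      | _ x ih =>
      intro v hv hn
      have hlt : x < v := lt_of_le_of_ne hv fun e => hn (e ▸ c.refl x)
      obtain ⟨w, w1, w2⟩ := exists_covBy_le_of_lt hlt
      by_cases k : c.r x w
      · obtain ⟨x', y', a1, a2, a3, a4⟩ := ih w w1.lt v w2 fun h => hn (c.trans k h)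
        exact ⟨x', y', a1, a2, c.trans k a3, a4⟩
      · exact ⟨x, w, w1, w2, c.refl x, k⟩
    obtain ⟨x', y', a1, a2, a3, a4⟩ := key x (x ⊔ y) le_sup_left
      fun h => h2 (Quotient.sound (c.trans h h1))
    have e1 : Quotient.mk c.toSetoid x' = Quotient.mk c.toSetoid x := Quotient.sound (c.symm a3)
    refine ⟨x', y', a1, a4, e1, ?_⟩
    have e2 : Quotient.mk c.toSetoid y = Quotient.mk c.toSetoid (x ⊔ y) :=
      Quotient.sound (c.symm h1)
    have q1 : QLE c (Quotient.mk c.toSetoid x) (Quotient.mk c.toSetoid y') := by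
      rw [← e1, qle_mk, sup_eq_right.mpr a1.le]
    have q2 : QLE c (Quotient.mk c.toSetoid y') (Quotient.mk c.toSetoid y) := by
      rw [e2, qle_mk, sup_eq_right.mpr a2]
    rcases h3 (Quotient.mk c.toSetoid y') q1 q2 with e | e
    · exact (a4 (c.symm (Quotient.exact (e.trans e1.symm)))).elim
    · exact e
  · rintro ⟨x, y, h1, h2, rfl, rfl⟩
    refine ⟨?_, fun e => h2 (Quotient.exact e), ?_⟩
    · rw [qle_mk, sup_eq_right.mpr h1.le]
    · intro z
      induction z using Quotient.inductionOn with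
      | _ z =>
      rw [qle_mk, qle_mk]
      intro k1 k2
      have k3 : c.r ((x ⊔ z) ⊓ y) z := by
        have := c.inf k1 (c.symm k2)
        rwa [inf_sup_self] at this
      rcases h1.eq_or_eq (c := (x ⊔ z) ⊓ y) (le_inf le_sup_left h1.le) inf_le_right with e | e
      · left; rw [e] at k3; exact Quotient.sound (c.symm k3)
      · right; rw [e] at k3; exact Quotient.sound (c.symm k3)

end Pool.Agent.H176Z
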