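import Pool.Agent.H176Z.Bridge

set_option autoImplicit false
set_option linter.unusedSectionVars false

namespace Pool.Agent.H176Z

open Pool.Agent.Helper741 Classical

variable {B : Type*} [Fintype B] [DecidableEq B] {M : CoxeterMatrix B}
variable {W : Type*} [Group W] {cs : CoxeterSystem M W} {m : ℕ}
variable {Q : Fin m → B} {ω : W}

theorem ivData [P : PartialOrder {x // WeakLE cs x ω}]
    (hL : ∀ x y : {x // WeakLE cs x ω}, x ≤ y ↔ WeakLE cs x.1 y.1) :
    IvData cs 1 ω (α := {x // WeakLE cs x ω}) Subtype.val :=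
  ⟨fun x => weakLE_iff.mp x.2, fun p hp => ⟨⟨p, weakLE_iff.mpr hp⟩, rfl⟩,
    fun x y => (hL x y).trans weakLE_iff⟩

theorem exists_lattice [Finite W] (cs : CoxeterSystem M W) (ω : W) :
    ∃ L : Lattice {x // WeakLE cs x ω}, ∀ x y, L.le x y ↔ WeakLE cs x.1 y.1 := by
  let P : PartialOrder {x // WeakLE cs x ω} :=
    { le := fun x y => WeakLE cs x.1 y.1
      le_refl := fun x => weakLE_iff.mpr (btw_right _ _)
      le_trans := fun x y z h1 h2 => weakLE_iff.mpr ((weakLE_iff.mp h1).trans (weakLE_iff.mp h2))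
      le_antisymm := fun x y h1 h2 =>
        Subtype.ext ((weakLE_iff.mp h1).antisymm (weakLE_iff.mp h2)) }
  have h := ivData (cs := cs) (ω := ω) (P := P) fun _ _ => Iff.rfl
  choose sup hsup using h.exists_lub
  choose inf hinf using h.dual.exists_lub
  exact ⟨Lattice.ofIsLUBofIsGLB sup inf hsup hinf, fun _ _ => Iff.rfl⟩

lemma exists_ext [Nonempty B] (Q : Fin m → B) : ∃ Qn : ℕ → B, ∀ k : Fin m, Qn k = Q k :=
  ⟨fun k => if h : k < m then Q ⟨k, h⟩ else Classical.arbitrary B, fun k => dif_pos k.2⟩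

lemma linExt_of_empty [IsEmpty B] (Q : Fin m → B) (I : Finset (Fin m)) (p : W) :
    LinExt cs Q I p := fun i _ => isEmptyElim (Q i)

lemma eq_of_empty [IsEmpty B] (cs : CoxeterSystem M W) (x y : W) : x = y := by
  have : ∀ x : W, x = 1 := fun x => eq_one_of_geo cs x fun i => isEmptyElim i
  rw [this x, this y]

theorem exists_con [Finite W] [L : Lattice {x // WeakLE cs x ω}]
    (hL : ∀ x y : {x // WeakLE cs x ω}, x ≤ y ↔ WeakLE cs x.1 y.1) (hA : Alternating cs Q)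
    (hne : ∃ I, IsFacet cs Q ω I) :
    ∃ c : LatticeCon {x // WeakLE cs x ω}, ∀ x y, c.r x y ↔ SCEquiv cs Q ω x.1 y.1 := by
  rcases isEmpty_or_nonempty B with hB | hB
  · obtain ⟨I, hI⟩ := hne
    exact ⟨⟨⊤, fun _ _ => trivial, fun _ _ => trivial⟩, fun x y =>
      ⟨fun _ => ⟨I, hI, linExt_of_empty _ _ _, linExt_of_empty _ _ _⟩, fun _ => trivial⟩⟩
  obtain ⟨Qn, hQ⟩ := exists_ext Q
  obtain ⟨T, hT⟩ := timed_of_alternating hQ hA
  obtain ⟨c, hc⟩ := (ivData hL).exists_con hT (walk_of_facet hQ hne)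
  exact ⟨c, fun x y => (hc x y).trans (scEquiv_iff hQ).symm⟩

theorem exists_equiv [Finite W] [L : Lattice {x // WeakLE cs x ω}]
    (hL : ∀ x y : {x // WeakLE cs x ω}, x ≤ y ↔ WeakLE cs x.1 y.1) (hA : Alternating cs Q)
    (hne : ∃ I, IsFacet cs Q ω I) (c : LatticeCon {x // WeakLE cs x ω})
    (hc : ∀ x y, c.r x y ↔ SCEquiv cs Q ω x.1 y.1) (P : Finset (Fin m) → Prop)
    (hP : ∀ I, P I ↔ IsFacet cs Q ω I ∧ ∃ p, WeakLE cs p ω ∧ LinExt cs Q I p) :
    ∃ e : Quotient c.toSetoid ≃ {I // P I},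
      (∀ x, LinExt cs Q (e (Quotient.mk c.toSetoid x)).1 x.1) ∧
      ∀ a b, QCov c a b ↔ ExtFlip cs Q (e a).1 (e b).1 := by
  have uniq : ∀ {p : W} {I J : Finset (Fin m)}, IsFacet cs Q ω I → IsFacet cs Q ω J →
      LinExt cs Q I p → LinExt cs Q J p → I = J := by
    intro p I J hI hJ h1 h2
    rcases isEmpty_or_nonempty B with hB | hB
    · ext k; exact isEmptyElim (Q k)
    obtain ⟨Qn, hQ⟩ := exists_ext Q
    exact facet_unique hQ hI hJ h1 h2
  have ex : ∀ x : {x // WeakLE cs x ω}, ∃ I, IsFacet cs Q ω I ∧ LinExt cs Q I x.1 := by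
    intro x
    obtain ⟨I, h1, h2, -⟩ := (hc x x).mp (c.refl x)
    exact ⟨I, h1, h2⟩
  choose F hF1 hF2 using ex
  have hr : ∀ x y, c.r x y ↔ F x = F y := by
    intro x y
    rw [hc]
    constructor
    · rintro ⟨I, h1, h2, h3⟩
      rw [uniq (hF1 x) h1 (hF2 x) h2, uniq (hF1 y) h1 (hF2 y) h3]
    · intro e
      exact ⟨F x, hF1 x, hF2 x, e ▸ hF2 y⟩
  let G : {x // WeakLE cs x ω} → {I // P I} :=
    fun x => ⟨F x, (hP _).mpr ⟨hF1 x, x.1, x.2, hF2 x⟩⟩
  let G' : Quotient c.toSetoid → {I // P I} :=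
    Quotient.lift G fun x y h => Subtype.ext ((hr x y).mp h)
  have bij : Function.Bijective G' := by
    constructor
    · intro a b
      induction a using Quotient.inductionOn
      induction b using Quotient.inductionOn
      intro e
      exact Quotient.sound ((hr _ _).mpr (congrArg Subtype.val e))
    · rintro ⟨I, hI⟩
      obtain ⟨h1, p, h2, h3⟩ := (hP I).mp hI
      exact ⟨Quotient.mk _ ⟨p, h2⟩, Subtype.ext (uniq (hF1 _) h1 (hF2 _) h3)⟩
  refine ⟨Equiv.ofBijective G' bij, fun x => hF2 x, fun a b => ?_⟩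
  have iv := ivData hL
  have := iv.finite
  rw [qcov_iff]
  constructor
  · rintro ⟨x, y, hxy, hn, rfl, rfl⟩
    obtain ⟨s, e, hp⟩ := iv.cov_iff.mp hxy
    have : Nonempty B := ⟨s⟩
    obtain ⟨Qn, hQ⟩ := exists_ext Q
    exact extFlip_of_cover hQ (hF1 x) (hF1 y) (hF2 x) (e ▸ hF2 y) hp (e ▸ iv.mem y)
      (fun h => hn ((hr x y).mpr h))
  · induction a using Quotient.inductionOn with | _ x => ?_
    induction b using Quotient.inductionOn with | _ y => ?_
    intro h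
    have : Nonempty B := by
      obtain ⟨i, -⟩ := h
      exact ⟨Q i⟩
    obtain ⟨Qn, hQ⟩ := exists_ext Q
    obtain ⟨hne', p, s, b1, b2, hp, l1, l2⟩ := cover_of_extFlip hQ hA (hF1 x) (hF1 y) (hF2 x)
      (hF2 y) (iv.mem x) (iv.mem y) h
    have e1 : F ⟨p, weakLE_iff.mpr b1⟩ = F x := uniq (hF1 _) (hF1 _) (hF2 _) l1
    have e2 : F ⟨_, weakLE_iff.mpr b2⟩ = F y := uniq (hF1 _) (hF1 _) (hF2 _) l2
    refine ⟨⟨p, weakLE_iff.mpr b1⟩, ⟨_, weakLE_iff.mpr b2⟩, iv.cov_iff.mpr ⟨s, rfl, hp⟩,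
      fun k => hne' ?_, Quotient.sound ((hr _ _).mpr e1), Quotient.sound ((hr _ _).mpr e2)⟩
    rw [← e1, ← e2]
    exact (hr _ _).mp k

theorem sorting_facts {X : Finset (Fin m)} (h1 : cs.IsReduced (subword Q X))
    (h2 : ∀ w, cs.length w ≤ cs.length (cs.wordProd (subword Q X))) (ω : W) :
    (∃ I, IsFacet cs Q ω I) ∧
      ∀ I p, IsFacet cs Q ω I → LinExt cs Q I p → WeakLE cs p ω := by
  rcases isEmpty_or_nonempty B with hB | hB
  · refine ⟨⟨Xᶜ, by rw [compl_compl]; exact h1, eq_of_empty cs _ _⟩, fun I p _ _ => ?_⟩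
    rw [eq_of_empty cs p ω]
    exact weakLE_iff.mpr (btw_right _ _)
  obtain ⟨Qn, hQ⟩ := exists_ext Q
  have hX : IsFacet cs Q (cs.wordProd (subword Q X)) Xᶜ := by
    unfold IsFacet
    rw [compl_compl]
    exact ⟨h1, rfl⟩
  rw [isFacet_iff hQ] at hX
  have hN : ∀ w, cs.length w ≤ cs.length (wk cs Q Xᶜ m) := by rw [hX.2]; exact h2
  constructor
  · obtain ⟨v, v1, v2, v3⟩ := universal_of_top hX.1 (wk_zero _) (fun s => by
      apply geo_nonpos
      have := hN (wk cs Q Xᶜ m * cs.simple s)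
      have := cs.length_mul_simple (wk cs Q Xᶜ m) s
      omega) ω
    exact ⟨cts m v, v3 ▸ facet_cts hQ v1 v2⟩
  · intro I p hI hp
    rw [isFacet_iff hQ] at hI
    rw [weakLE_iff, ← hI.2]
    exact btw_of_sorting hX.1 (wk_zero _) hN hI.1 (wk_zero _) ((linExt_iff hQ).mp hp)

end Pool.Agent.H176Z
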