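import Pool.Agent.H176Z.Key

set_option autoImplicit false
set_option linter.unusedSectionVars false

namespace Pool.Agent.H176Z

open Pool.Agent.Helper741 Classical CoxeterSystem

variable {B : Type*} [Fintype B] [DecidableEq B] {M : CoxeterMatrix B}
variable {W : Type*} [Group W] {cs : CoxeterSystem M W}
variable {Q : ℕ → B} {u : ℕ → W} {lo hi : ℕ} {T : ℕ → B → ℝ}

lemma rec_solve {c : ℝ} {a : ℕ → B → ℝ} {D : ℕ}
    (h : ∀ d, d + 2 ≤ D → a d + a (d + 2) = (2 * c) • a (d + 1)) :
    ∀ d, d + 1 ≤ D → a (d + 1) = qs c (d + 1) • a 1 - qs c d • a 0 := by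
  intro d
  induction d using Nat.strong_induction_on with
  | _ d ih =>
    match d with
    | 0 => intro _; simp
    | 1 =>
      intro h1
      rw [qs_add_two]
      simp only [qs_zero, qs_one, zero_add]
      have e : a (1 + 1) = (2 * c) • a 1 - a 0 := by
        have h2 := h 0 (by omega)
        rw [← h2]; simp
      rw [e]; module
    | (d + 2) =>
      intro h1
      have h2 := h (d + 1) (by omega)
      have e : a (d + 2 + 1) = (2 * c) • a (d + 2) - a (d + 1) := by
        rw [← h2]; simp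
      rw [e, ih (d + 1) (by omega) (by omega), ih d (by omega) (by omega), qs_add_two c (d + 1),
        qs_add_two c d]
      module

section mid

variable [Finite W]

theorem midA (hT : Timed M Q T lo hi) (hu : RW cs Q u lo hi) (f : (B → ℝ) →ₗ[ℝ] ℝ)
    {m : ℕ} {c : ℝ} {b : ℕ → B → ℝ}
    (brec : ∀ l, l + 2 < m → b l + b (l + 2) = (2 * c) • b (l + 1))
    (broot : ∀ l, l < m → IsRoot cs (b l)) (bpos : ∀ l, l < m → Pos cs (u lo) (b l))
    (bneg : ∀ l, l < m → Neg cs (u hi) (b l)) (bf : ∀ l, l < m → f (b l) = 0)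
    (qpos : ∀ d, 1 ≤ d → d < m → 0 < qs c d)
    (hc : ∀ k, lo ≤ k → k < hi → u (k + 1) = u k →
      0 < f (rt cs Q u k) ∨ ∃ l, l < m ∧ rt cs Q u k = b l)
    {t2 i : ℕ} (h2 : lo ≤ t2) (h2' : t2 < hi) (c2 : u (t2 + 1) = u t2)
    (e2 : rt cs Q u t2 = b (i + 1)) (him : i + 2 < m) (n2 : Neg cs (u t2) (b i)) : False := by
  have c0 : 0 < c := by
    have := qpos 2 (by omega) (by omega)
    rw [qs_add_two] at this
    simp at this
    linarith
  have r0 := broot i (by omega)
  have r1 := broot (i + 1) (by omega)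
  have r2 := broot (i + 2) him
  obtain ⟨k1, a1, a2, a3, a4⟩ := hu.walk.sign_change le_rfl h2 h2'.le r0 (bpos i (by omega)) n2
  obtain ⟨t3, b1, b2, b3, b4⟩ := hu.walk.sign_change h2 h2'.le le_rfl r1
    (by rw [← e2]; exact rt_pos _ _ _) (bneg _ (by omega))
  have h23 : t2 < t3 := by
    rcases Nat.lt_or_eq_of_le b1 with l | l
    · exact l
    · rw [← l] at b3; exact (b3 c2).elim
  have n0 : ∀ k, t2 ≤ k → k ≤ hi → Neg cs (u k) (b i) := by
    intro k x y
    rw [a4]; exact hu.cross_neg a1 (by omega) y a3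
  have p1 : ∀ k, lo ≤ k → k ≤ t3 → Pos cs (u k) (b (i + 1)) := by
    intro k x y
    rw [b4]; exact hu.cross_pos x y b2 b3
  have p2 : Pos cs (u t3) (b (i + 2)) := by
    apply r2.pos_of_not_neg
    intro h
    have := ((n0 t3 b1 b2.le).add h).smul (a := (2 * c)⁻¹) (by positivity)
    rw [brec i him, smul_smul, inv_mul_cancel₀ (by positivity), one_smul] at this
    exact r1.not_pos_neg (p1 t3 (by omega) le_rfl) this
  obtain ⟨k2, d1, d2, d3, d4⟩ := hu.walk.sign_change (by omega) b2.le le_rfl r2 p2 (bneg _ him)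
  have eb : b (i + 2) = (2 * c) • b (i + 1) - b i := by rw [← brec i him]; simp
  have hK : K M (b (i + 1)) (b i) = 2 * c := by
    have := r2.K_self
    rw [eb, K_sub_left, K_sub_right, K_sub_right, K_smul_left, K_smul_left, K_smul_right,
      K_smul_right, r0.K_self, r1.K_self, K_comm (b i)] at this
    have h4 : c * (K M (b (i + 1)) (b i) - 2 * c) = 0 := by linarith
    have := (mul_eq_zero.mp h4).resolve_left c0.ne'
    linarith
  have hσ : geo cs (rf cs (u t3) (Q t3)) (- b i) = b (i + 2) := by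
    rw [geo_rf]
    have : geo cs (u t3) (ee (Q t3)) = b (i + 1) := b4.symm
    rw [this, K_neg_right, hK, eb]
    module
  have h34 : t3 < k2 := by
    rcases Nat.lt_or_eq_of_le d1 with l | l
    · exact l
    · exfalso
      rw [← l] at d4
      have : - b i = - b (i + 1) := by
        rw [← rf_rf (cs := cs) (u t3) (Q t3) (- b i), hσ, d4, b4]
        exact geo_rf_self _ _
      have h5 := n0 t3 b1 b2.le
      rw [neg_injective this] at h5
      exact r1.not_pos_neg (p1 t3 (by omega) le_rfl) h5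
  refine key hT hu h2 h23 b2 c2 b3 (by rw [e2, b4]) f (by rw [← b4]; exact bf _ (by omega))
    ?_ ?_ _ k1 k2 (- b i) rfl a1 a2 h34 d2 ?_ (by rw [hσ, d4]) (pos_neg_iff.mpr (n0 t3 b1 b2.le))
    ?_ ?_
  · intro k x y z
    rcases hc k x y z with h | ⟨l, l1, l2⟩
    · exact h.le
    · rw [l2, bf l l1]
  · intro k x y z
    rcases hc k (by omega) (by omega) z with h | ⟨l, l1, l2⟩
    · exact Or.inl h
    right
    have q1 := p1 k (by omega) y.le
    have q0 := n0 k x.le (by omega)
    rcases lt_trichotomy l (i + 1) with h | h | h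
    · exfalso
      obtain ⟨d, rfl⟩ : ∃ d, i = l + d := ⟨i - l, by omega⟩
      have := rec_solve (c := c) (a := fun e => b (l + d + 1 - e)) (D := d + 1) (by
        intro e he
        have e1 : l + d + 1 - e = (l + d - 1 - e) + 2 := by omega
        have e2 : l + d + 1 - (e + 2) = l + d - 1 - e := by omega
        have e3 : l + d + 1 - (e + 1) = (l + d - 1 - e) + 1 := by omega
        simp only [e1, e2, e3]
        rw [add_comm]
        exact brec _ (by omega)) d le_rfl
      have e1 : l + d + 1 - (d + 1) = l := by omega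
      simp only [e1, Nat.add_sub_cancel, Nat.sub_zero] at this
      have q2 : 0 < qs c (d + 1) := qpos _ (by omega) (by omega)
      have q3 : 0 ≤ qs c d := by
        rcases Nat.eq_zero_or_pos d with h0 | h0
        · rw [h0]; simp
        · exact (qpos d h0 (by omega)).le
      have pl : Pos cs (u k) (b l) := by rw [← l2]; exact rt_pos _ _ _
      have x1 := (pl.add (q1.smul q3)).smul (a := (qs c (d + 1))⁻¹) (by positivity)
      rw [this, sub_add_cancel, smul_smul, inv_mul_cancel₀ q2.ne', one_smul] at x1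
      exact r0.not_pos_neg x1 q0
    · rw [l2, h, b4]
    · exfalso
      obtain ⟨d, rfl⟩ : ∃ d, l = i + (d + 1 + 1) := ⟨l - i - 2, by omega⟩
      have := rec_solve (c := c) (a := fun e => b (i + e)) (D := d + 2) (by
        intro e he
        exact brec (i + e) (by omega)) (d + 1) le_rfl
      simp only [Nat.add_zero] at this
      have q2 : 0 < qs c (d + 1) := qpos _ (by omega) (by omega)
      have q3 : 0 < qs c (d + 1 + 1) := qpos _ (by omega) (by omega)
      have x1 : - b i = geo cs (u k) (ee (Q k)) := by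
        refine r0.neg.eq_of_add (pos_neg_iff.mpr q0) (q1.smul q3.le) q2 (b := 1) ?_
        have : geo cs (u k) (ee (Q k)) = b (i + (d + 1 + 1)) := l2
        rw [this]
        rw [‹b (i + (d + 1 + 1)) = _›]
        module
      have x2 := bpos _ l1
      rw [← l2] at x2
      unfold rt at x2
      rw [← x1, pos_neg_iff] at x2
      exact r0.not_pos_neg (bpos i (by omega)) x2
  · rw [hu.walk.cross a1 (by omega) a3, geo_mul_simple_ee, a4]; rfl
  · rw [← b4, K_neg_left, K_comm, hK]; linarith
  · rw [map_neg, bf i (by omega)]; simp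

theorem mid (hT : Timed M Q T lo hi) (hu : RW cs Q u lo hi) (f : (B → ℝ) →ₗ[ℝ] ℝ)
    {m : ℕ} {c : ℝ} {b : ℕ → B → ℝ}
    (brec : ∀ l, l + 2 < m → b l + b (l + 2) = (2 * c) • b (l + 1))
    (broot : ∀ l, l < m → IsRoot cs (b l)) (bpos : ∀ l, l < m → Pos cs (u lo) (b l))
    (bneg : ∀ l, l < m → Neg cs (u hi) (b l)) (bf : ∀ l, l < m → f (b l) = 0)
    (qpos : ∀ d, 1 ≤ d → d < m → 0 < qs c d) (bne : ∀ l, l + 1 < m → b l ≠ b (l + 1))
    (hc : ∀ k, lo ≤ k → k < hi → u (k + 1) = u k →
      0 < f (rt cs Q u k) ∨ ∃ l, l < m ∧ rt cs Q u k = b l)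
    {t2 i : ℕ} (h2 : lo ≤ t2) (h2' : t2 < hi) (c2 : u (t2 + 1) = u t2)
    (e2 : rt cs Q u t2 = b (i + 1)) (him : i + 2 < m) : False := by
  have r0 := broot i (by omega)
  have r2 := broot (i + 2) him
  rcases r0.pos_or_neg (u t2) with p0 | p0
  · rcases r2.pos_or_neg (u t2) with p2 | p2
    · refine bne i (by omega) ?_
      rw [← e2]
      refine r0.eq_of_add p0 p2 one_pos (b := 2 * c) ?_
      rw [one_smul, brec i him, ← e2]; rfl
    · refine midA hT hu f (m := m) (c := c) (b := fun l => b (m - 1 - l)) ?_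
        (fun l hl => broot _ (by omega)) (fun l hl => bpos _ (by omega))
        (fun l hl => bneg _ (by omega)) (fun l hl => bf _ (by omega)) qpos ?_ h2 h2' c2
        (i := m - 3 - i) ?_ (by omega) ?_
      · intro l hl
        have e1 : m - 1 - l = (m - 3 - l) + 2 := by omega
        have e2 : m - 1 - (l + 2) = m - 3 - l := by omega
        have e3 : m - 1 - (l + 1) = (m - 3 - l) + 1 := by omega
        simp only [e1, e2, e3]
        rw [add_comm]
        exact brec _ (by omega)
      · intro k x y z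
        rcases hc k x y z with h | ⟨l, l1, l2⟩
        · exact Or.inl h
        · refine Or.inr ⟨m - 1 - l, by omega, ?_⟩
          have : m - 1 - (m - 1 - l) = l := by omega
          simp only [this, l2]
      · have : m - 1 - (m - 3 - i + 1) = i + 1 := by omega
        simp only [this, e2]
      · have : m - 1 - (m - 3 - i) = i + 2 := by omega
        simp only [this]
        exact p2
  · exact midA hT hu f brec broot bpos bneg bf qpos hc h2 h2' c2 e2 him p0

end mid

/-- letters of the alternating word `t s t s …` -/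
def al (t s : B) (j : ℕ) : B := if Even j then t else s

/-- one side of the polygon at `x` -/
noncomputable def pw (cs : CoxeterSystem M W) (x : W) (t s : B) (j : ℕ) : W :=
  x * (cs.wordProd (alternatingWord s t j))⁻¹

lemma pw_zero (x : W) (t s : B) : pw cs x t s 0 = x := by simp [pw, alternatingWord]

lemma pw_succ (x : W) (t s : B) (j : ℕ) :
    pw cs x t s (j + 1) = pw cs x t s j * cs.simple (al t s j) := by
  unfold pw al
  rw [alternatingWord_succ', cs.wordProd_cons, mul_inv_rev, cs.inv_simple, mul_assoc]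

lemma pw_one (x : W) (t s : B) : pw cs x t s 1 = x * cs.simple t := by
  rw [pw_succ, pw_zero]; simp [al]

lemma pw_braid (x : W) (t s : B) : pw cs x t s (M s t) = pw cs x s t (M s t) := by
  unfold pw
  have := cs.wordProd_braidWord_eq s t
  unfold braidWord at this
  rw [this, M.symmetric t s]

lemma al_add_two (t s : B) (j : ℕ) : al t s (j + 2) = al t s j := by
  unfold al; simp [Nat.even_add_one]

lemma cc_al (t s : B) (j : ℕ) : cc M (al t s j) (al t s (j + 1)) = cc M s t := by
  unfold al
  by_cases h : Even j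
  · simp [h, Nat.even_add_one, cc_symm M t s]
  · simp [h, Nat.even_add_one]

lemma pw_rec (x : W) (t s : B) (j : ℕ) :
    rt cs (al t s) (pw cs x t s) j + rt cs (al t s) (pw cs x t s) (j + 2) =
      (2 * cc M s t) • rt cs (al t s) (pw cs x t s) (j + 1) := by
  unfold rt
  rw [al_add_two, pw_succ x t s (j + 1), geo_mul_apply, geo_simple, sg_ee, map_add, map_smul,
    cc_al, pw_succ x t s j, geo_mul_simple_ee]
  module

lemma pw_rt (x : W) (t s : B) (j : ℕ) : rt cs (al t s) (pw cs x t s) j =
    qs (cc M s t) (j + 1) • geo cs x (ee t) + qs (cc M s t) j • geo cs x (ee s) := by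
  have h0 : rt cs (al t s) (pw cs x t s) 0 = geo cs x (ee t) := by
    unfold rt; rw [pw_zero]; simp [al]
  have h1 : rt cs (al t s) (pw cs x t s) 1 =
      (2 * cc M s t) • geo cs x (ee t) + geo cs x (ee s) := by
    unfold rt
    rw [pw_one, geo_mul_apply, geo_simple]
    have : al t s 1 = s := by simp [al]
    rw [this, sg_ee, map_add, map_smul, add_comm]
  match j with
  | 0 => rw [h0]; simp
  | (j + 1) =>
    rw [rec_solve (c := cc M s t) (a := rt cs (al t s) (pw cs x t s)) (D := j + 1)
      (fun d _ => pw_rec x t s d) j le_rfl, h0, h1, qs_add_two]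
    module

lemma pw_RW (x : W) {t s : B} (h : s ≠ t) : RW cs (al t s) (pw cs x t s) 0 (M s t) := by
  constructor
  · intro k _ _; exact Or.inr (pw_succ x t s k)
  · intro k _ h2 _
    rw [pw_zero, pw_rt]
    exact ((pos_self x t).smul (qs_nonneg M h (Or.inr h2))).add
      ((pos_self x s).smul (qs_nonneg M h (Or.inr h2.le)))

lemma pw_cross (x : W) (t s : B) (j : ℕ) : pw cs x t s (j + 1) ≠ pw cs x t s j := by
  rw [pw_succ]; exact mul_simple_ne _ _

lemma pw_neg (x : W) {t s : B} (h : s ≠ t) {j : ℕ} (h1 : 1 ≤ j) (h2 : j ≤ M s t) :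
    Neg cs (pw cs x t s j) (geo cs x (ee t)) := by
  have := (pw_RW (cs := cs) x h).cross_neg (k := 0) le_rfl h1 h2 (pw_cross x t s 0)
  rw [pw_rt] at this
  simpa using this

lemma qs_pos {s t : B} (h : s ≠ t) (h0 : M s t ≠ 0) {d : ℕ} (h1 : 1 ≤ d) (h2 : d < M s t) :
    0 < qs (cc M s t) d := by
  have hs := sin_pos_of_ne M h h0
  have hm : (0 : ℝ) < (M s t : ℝ) := by exact_mod_cast Nat.pos_of_ne_zero h0
  have h3 : 0 < Real.sin (d * (Real.pi / (M s t : ℝ))) := by
    apply Real.sin_pos_of_pos_of_lt_pi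
    · have : (0 : ℝ) < d := by exact_mod_cast h1
      have := Real.pi_pos
      positivity
    · have : (d : ℝ) < (M s t : ℝ) := by exact_mod_cast h2
      rw [mul_div_assoc', div_lt_iff₀ hm]
      nlinarith [Real.pi_pos]
  rw [← qs_sin] at h3
  exact pos_of_mul_pos_left h3 hs.le

/-- the functional vanishing on the rank two subsystem at `x` -/
noncomputable def fx (cs : CoxeterSystem M W) (x : W) (s t : B) : (B → ℝ) →ₗ[ℝ] ℝ :=
  (∑ j ∈ Finset.univ.filter (fun j => j ≠ s ∧ j ≠ t), LinearMap.proj j) ∘ₗ geo cs x⁻¹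

lemma fx_apply (x : W) (s t : B) (v : B → ℝ) :
    fx cs x s t v = ∑ j ∈ Finset.univ.filter (fun j => j ≠ s ∧ j ≠ t), geo cs x⁻¹ v j := by
  simp [fx]

lemma fx_left (x : W) (s t : B) : fx cs x s t (geo cs x (ee s)) = 0 := by
  rw [fx_apply, geo_inv_apply]
  refine Finset.sum_eq_zero fun j hj => ?_
  simp only [Finset.mem_filter] at hj
  simp [ee, hj.2.1]

lemma fx_right (x : W) (s t : B) : fx cs x s t (geo cs x (ee t)) = 0 := by
  rw [fx_apply, geo_inv_apply]
  refine Finset.sum_eq_zero fun j hj => ?_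
  simp only [Finset.mem_filter] at hj
  simp [ee, hj.2.2]

lemma fx_pw (x : W) (s t : B) (j : ℕ) : fx cs x s t (rt cs (al t s) (pw cs x t s) j) = 0 := by
  rw [pw_rt, map_add, map_smul, map_smul, fx_left, fx_right]; simp

lemma classify (x : W) {s t : B} (h : s ≠ t) (h0 : M s t ≠ 0) {r : B → ℝ} (hr : IsRoot cs r)
    (hp : Pos cs x r) : 0 < fx cs x s t r ∨ ∃ l, l < M s t ∧ r = rt cs (al t s) (pw cs x t s) l := by
  have h1 : ∀ j ∈ Finset.univ.filter (fun j => j ≠ s ∧ j ≠ t), 0 ≤ geo cs x⁻¹ r j :=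
    fun j _ => hp j
  rcases (Finset.sum_nonneg h1).lt_or_eq with c | c
  · left; rw [fx_apply]; exact c
  right
  have h2 := (Finset.sum_eq_zero_iff_of_nonneg h1).mp c.symm
  have h3 : geo cs x⁻¹ r = geo cs x⁻¹ r s • ee s + geo cs x⁻¹ r t • ee t := by
    funext j
    by_cases js : j = s
    · subst js; simp [ee, h]
    by_cases jt : j = t
    · subst jt; simp [ee, js]
    have := h2 j (by simp [js, jt])
    simp [ee, js, jt, this]
  have h4 : r = geo cs x⁻¹ r s • geo cs x (ee s) + geo cs x⁻¹ r t • geo cs x (ee t) := by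
    rw [← map_smul, ← map_smul, ← map_add, ← h3, geo_apply_inv]
  have m1 : 1 ≤ M s t := Nat.pos_of_ne_zero h0
  have n1 : Neg cs (pw cs x t s (M s t)) (geo cs x (ee t)) := pw_neg x h m1 le_rfl
  have n2 : Neg cs (pw cs x t s (M s t)) (geo cs x (ee s)) := by
    rw [pw_braid]
    exact pw_neg x h.symm m1 (by rw [M.symmetric])
  have n3 : Neg cs (pw cs x t s (M s t)) r := by
    rw [h4]; exact (n2.smul (hp s)).add (n1.smul (hp t))
  obtain ⟨k, -, k2, -, k4⟩ := (pw_RW (cs := cs) x h).walk.sign_change le_rfl (Nat.zero_le _) le_rfl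
    hr (by rw [pw_zero]; exact hp) n3
  exact ⟨k, k2, k4⟩

lemma pos_pw_of_fx (x : W) (s t : B) {r : B → ℝ} (hr : IsRoot cs r) (hf : 0 < fx cs x s t r)
    (j : ℕ) : Pos cs (pw cs x t s j) r := by
  induction j with
  | zero =>
    rw [pw_zero]
    apply hr.pos_of_not_neg
    intro h
    have : fx cs x s t r ≤ 0 := by
      rw [fx_apply]; exact Finset.sum_nonpos fun j _ => h j
    linarith
  | succ j ih =>
    rw [pw_succ]
    refine hr.pos_mul_simple ih fun e => ?_
    have := fx_pw (cs := cs) x s t j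
    unfold rt at this
    rw [← e] at this
    linarith

/-- The polygon lemma. -/
theorem polygon [Finite W] (hle : lo ≤ hi) (hT : Timed M Q T lo hi) (hu : RW cs Q u lo hi)
    {x : W} {s t : B} (h : s ≠ t) (h0 : M s t ≠ 0) (hc : ConPos cs Q u lo hi x)
    (hc' : ConPos cs Q u lo hi (x * cs.simple s))
    (ps : Pos cs (u lo) (geo cs x (ee s))) (pt : Pos cs (u lo) (geo cs x (ee t)))
    (ns : Neg cs (u hi) (geo cs x (ee s))) (nt : Neg cs (u hi) (geo cs x (ee t))) :
    ∃ u', RW cs Q u' lo hi ∧ u' lo = u lo ∧ u' hi = u hi ∧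
      ∀ j, 1 ≤ j → j ≤ M s t → ConPos cs Q u' lo hi (pw cs x t s j) := by
  have m2 := two_le_of_ne M h h0
  have cl : ∀ k, lo ≤ k → k < hi → u (k + 1) = u k → 0 < fx cs x s t (rt cs Q u k) ∨
      ∃ l, l < M s t ∧ rt cs Q u k = rt cs (al t s) (pw cs x t s) l :=
    fun k a b c => classify x h h0 (rt_root _ _ _) (hc k a b c)
  have b0 : rt cs (al t s) (pw cs x t s) 0 = geo cs x (ee t) := by rw [pw_rt]; simp
  have cl2 : ∀ k, lo ≤ k → k < hi → u (k + 1) = u k → 0 < fx cs x s t (rt cs Q u k) ∨
      rt cs Q u k = geo cs x (ee t) := by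
    intro k a b c
    rcases cl k a b c with e | ⟨l, l1, l2⟩
    · exact Or.inl e
    right
    match l with
    | 0 => rw [l2, b0]
    | (l + 1) =>
      exfalso
      by_cases l3 : l + 2 < M s t
      · refine mid hT hu (fx cs x s t) (m := M s t) (c := cc M s t)
          (b := rt cs (al t s) (pw cs x t s)) (fun l _ => pw_rec x t s l)
          (fun l _ => rt_root _ _ _) ?_ ?_ (fun l _ => fx_pw x s t l)
          (fun d d1 d2 => qs_pos h h0 d1 d2) ?_ cl a b c l2 l3
        · intro l hl
          rw [pw_rt]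
          exact (pt.smul (qs_nonneg M h (Or.inr hl))).add (ps.smul (qs_nonneg M h (Or.inr hl.le)))
        · intro l hl
          rw [pw_rt]
          exact (nt.smul (qs_nonneg M h (Or.inr hl))).add (ns.smul (qs_nonneg M h (Or.inr hl.le)))
        · intro l hl e
          have := (pw_RW (cs := cs) x h).cross_unique (Nat.zero_le l) (by omega)
            (Nat.zero_le (l + 1)) hl (pw_cross _ _ _ _) (pw_cross _ _ _ _) e
          omega
      · have l4 : l + 2 = M s t := by omega
        have q0 : qs (cc M s t) (l + 1 + 1) = 0 := by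
          have h1 := qs_sin (Real.pi / (M s t : ℝ)) (l + 1 + 1)
          have hm : (M s t : ℝ) ≠ 0 := by exact_mod_cast h0
          have h2 : ((l + 1 + 1 : ℕ) : ℝ) * (Real.pi / (M s t : ℝ)) = Real.pi := by
            rw [show l + 1 + 1 = M s t from l4]; field_simp
          rw [h2, Real.sin_pi] at h1
          exact (mul_eq_zero.mp h1).resolve_right (sin_pos_of_ne M h h0).ne'
        rw [pw_rt, q0, zero_smul, zero_add] at l2
        have e := (rt_root Q u k).eq_of_smul (isRoot_geo_ee x s)
          (qs_nonneg M h (Or.inr l1.le)) l2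
        have := hc' k a b c
        rw [e] at this
        exact (isRoot_geo_ee x s).not_pos_neg this (neg_self _ _)
  have fσ : ∀ v, fx cs x s t (geo cs (rf cs x t) v) = fx cs x s t v := by
    intro v; rw [geo_rf, map_sub, map_smul, fx_right]; simp
  rcases step_up hle hu hc pt nt with ⟨c1, -⟩ | ⟨i, j, i1, hij, j1, i2, j2, i3, j3, imin, -⟩
  · refine ⟨u, hu, rfl, rfl, fun j _ _ k a b c => ?_⟩
    exact pos_pw_of_fx x s t (rt_root _ _ _) ((cl2 k a b c).resolve_right (c1 k a b c)) j
  · have d : FlipData cs Q u i j := Or.inl ⟨i2, j2, by rw [i3, j3]⟩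
    have hrf : rf cs (u i) (Q i) = rf cs x t := rf_eq_of_root (Or.inl i3)
    refine ⟨_, hu.flip i1 hij j1 d, flipW_le i1, flipW_gt j1, fun n n1 n2 k a b c => ?_⟩
    have nb : Pos cs (pw cs x t s n) (geo cs (rf cs x t) (geo cs x (ee t))) := by
      rw [geo_rf_self, pos_neg_iff]; exact pw_neg x h n1 n2
    by_cases hki : k = i
    · subst hki
      rw [flip_i_up hij i2] at c
      exact (mul_simple_ne _ _ c).elim
    by_cases hkj : k = j
    · subst hkj
      rw [rt_flip_mid hij le_rfl, hrf, j3]; exact nb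
    have k4 := (flip_contact_iff hki hkj).mp c
    rcases lt_or_gt_of_ne hki with l | l
    · rw [rt_flip_le l.le]
      exact pos_pw_of_fx x s t (rt_root _ _ _) ((cl2 k a b k4).resolve_right (imin k a l k4)) n
    rcases lt_or_gt_of_ne hkj with l' | l'
    · rw [rt_flip_mid l l'.le, hrf]
      rcases cl2 k a b k4 with e | e
      · exact pos_pw_of_fx x s t ((rt_root _ _ _).map _) (by rw [fσ]; exact e) n
      · rw [e]; exact nb
    · rw [rt_flip_gt l']
      refine pos_pw_of_fx x s t (rt_root _ _ _) ((cl2 k a b k4).resolve_right fun e => ?_) n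
      have := hu.cross_neg (by omega) l' b.le j2
      rw [j3, ← e] at this
      exact (rt_root _ _ _).not_pos_neg (rt_pos _ _ _) this

end Pool.Agent.H176Z
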