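import Pool.Agent.H176Z.Exist

set_option autoImplicit false
set_option linter.unusedSectionVars false

namespace Pool.Agent.H176Z

open Pool.Agent.Helper741 Classical

variable {B : Type*} [Fintype B] [DecidableEq B] {M : CoxeterMatrix B}
variable {W : Type*} [Group W] {cs : CoxeterSystem M W}
variable {Q : ℕ → B} {u : ℕ → W} {lo hi : ℕ} {T : ℕ → B → ℝ}

/-- A clock for the word `Q`. -/
structure Timed (M : CoxeterMatrix B) (Q : ℕ → B) (T : ℕ → B → ℝ) (lo hi : ℕ) : Prop where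
  nb : ∀ k, lo ≤ k → k < hi → ∀ t, t ≠ Q k → cc M (Q k) t ≠ 0 → T k t = T k (Q k) + 1
  same : ∀ k, lo ≤ k → k < hi → ∀ t, t ≠ Q k → T (k + 1) t = T k t
  step : ∀ k, lo ≤ k → k < hi → T (k + 1) (Q k) = T k (Q k) + 2

lemma Timed.sub (h : Timed M Q T lo hi) {a b : ℕ} (ha : lo ≤ a) (hb : b ≤ hi) : Timed M Q T a b :=
  ⟨fun k h1 h2 => h.nb k (by omega) (by omega), fun k h1 h2 => h.same k (by omega) (by omega),
    fun k h1 h2 => h.step k (by omega) (by omega)⟩

lemma Timed.rev {m : ℕ} (h : Timed M Q T 0 m) {Q' : ℕ → B}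
    (hQ : ∀ k, k < m → Q' k = Q (m - 1 - k)) : Timed M Q' (fun k s => - T (m - k) s) 0 m := by
  have idx : ∀ k, k < m → m - k = (m - 1 - k) + 1 ∧ m - (k + 1) = m - 1 - k := by
    intro k hk; omega
  refine ⟨fun k _ h2 t ht hc => ?_, fun k _ h2 t ht => ?_, fun k _ h2 => ?_⟩
  · obtain ⟨e1, -⟩ := idx k h2
    rw [hQ k h2] at ht hc ⊢
    rw [e1, h.same _ (by omega) (by omega) t ht, h.step _ (by omega) (by omega),
      h.nb _ (by omega) (by omega) t ht hc]
    ring
  · obtain ⟨e1, e2⟩ := idx k h2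
    rw [hQ k h2] at ht
    rw [e1, e2, h.same _ (by omega) (by omega) t ht]
  · obtain ⟨e1, e2⟩ := idx k h2
    rw [hQ k h2, e1, e2, h.step _ (by omega) (by omega)]
    ring

lemma coroot_diag {q : B} {S : B → ℝ} {τ : ℝ} (h : ∀ t, t ≠ q → cc M q t ≠ 0 → S t = τ)
    (c : B → ℝ) : coroot M q (fun s => S s * c s) = τ * coroot M q c + 2 * (S q - τ) * c q := by
  rw [coroot_apply, coroot_apply, Finset.mul_sum]
  have : ∀ j, -2 * cc M q j * (S j * c j) =
      τ * (-2 * cc M q j * c j) + (if j = q then 2 * (S q - τ) * c q else 0) := by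
    intro j
    by_cases hj : j = q
    · subst hj; simp only [cc_self, if_true]; ring
    · by_cases h0 : cc M q j = 0
      · simp [hj, h0]
      · rw [h j hj h0, if_neg hj]; ring
  simp only [this, Finset.sum_add_distrib, Finset.sum_ite_eq', Finset.mem_univ, if_true]

/-- The potential. -/
noncomputable def Psi (cs : CoxeterSystem M W) (S : B → ℝ) (w : W) (ρ : B → ℝ) : B → ℝ :=
  geo cs w (fun s => S s * geo cs w⁻¹ ρ s)

lemma Psi_simple (S : B → ℝ) (w : W) (p : B) :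
    Psi cs S w (geo cs w (ee p)) = S p • geo cs w (ee p) := by
  unfold Psi
  rw [geo_inv_apply, ← map_smul]
  congr 1
  funext s
  by_cases h : s = p
  · subst h; simp [ee]
  · simp [ee, h]

lemma Psi_contact {S S' : B → ℝ} {q : B} (h1 : ∀ t, t ≠ q → S' t = S t) (h2 : S' q = S q + 2)
    (w : W) (ρ : B → ℝ) :
    Psi cs S' w ρ = Psi cs S w ρ + (2 * geo cs w⁻¹ ρ q) • geo cs w (ee q) := by
  unfold Psi
  rw [← map_smul, ← map_add]
  congr 1
  funext s
  by_cases h : s = q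
  · subst h; simp [ee, h2]; ring
  · simp [ee, h, h1 s h]

lemma Psi_cross {S S' : B → ℝ} {q : B} (h0 : ∀ t, t ≠ q → cc M q t ≠ 0 → S t = S q + 1)
    (h1 : ∀ t, t ≠ q → S' t = S t) (h2 : S' q = S q + 2) (w : W) (ρ : B → ℝ) :
    Psi cs S' (w * cs.simple q) ρ = Psi cs S w ρ + K M ρ (geo cs w (ee q)) • geo cs w (ee q) := by
  unfold Psi
  rw [← map_smul, ← map_add, geo_mul_apply, mul_inv_rev, cs.inv_simple, geo_mul_apply, geo_simple]
  congr 1
  have hK : K M ρ (geo cs w (ee q)) = coroot M q (geo cs w⁻¹ ρ) := by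
    rw [← K_ee_left, ← K_geo cs w (ee q), geo_apply_inv, K_comm]
  rw [hK]
  set c := geo cs w⁻¹ ρ
  have h3 := coroot_diag (M := M) (q := q) (S := S') (τ := S q + 1)
    (fun t ht hc => by rw [h1 t ht, h0 t ht hc]) (sg M q c)
  have h4 : coroot M q (sg M q c) = - coroot M q c := by
    rw [sg_apply, map_sub, map_smul, coroot_ee, cc_self, smul_eq_mul]; ring
  rw [sg_apply, h3, h4]
  funext s
  by_cases h : s = q
  · subst h
    simp [ee, sg_apply, h2]; ring
  · simp [ee, sg_apply, h, h1 s h]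

/-- contact sum -/
noncomputable def Csum (cs : CoxeterSystem M W) (Q : ℕ → B) (u : ℕ → W) (a b : ℕ) (ρ : B → ℝ) :
    B → ℝ :=
  ∑ k ∈ Finset.Ico a b, if u (k + 1) = u k then geo cs (u k)⁻¹ ρ (Q k) • rt cs Q u k else 0

/-- crossing sum -/
noncomputable def Ssum (cs : CoxeterSystem M W) (Q : ℕ → B) (u : ℕ → W) (a b : ℕ) (ρ : B → ℝ) :
    B → ℝ :=
  ∑ k ∈ Finset.Ico a b, if u (k + 1) = u k then 0 else K M ρ (rt cs Q u k) • rt cs Q u k

lemma Psi_step (hT : Timed M Q T lo hi) (hu : Walk cs Q u lo hi) {k : ℕ} (h1 : lo ≤ k)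
    (h2 : k < hi) (ρ : B → ℝ) :
    Psi cs (T (k + 1)) (u (k + 1)) ρ = Psi cs (T k) (u k) ρ +
      if u (k + 1) = u k then (2 * geo cs (u k)⁻¹ ρ (Q k)) • rt cs Q u k
      else K M ρ (rt cs Q u k) • rt cs Q u k := by
  split_ifs with c
  · rw [c]
    exact Psi_contact (hT.same k h1 h2) (hT.step k h1 h2) _ _
  · rw [hu.cross h1 h2 c]
    exact Psi_cross (hT.nb k h1 h2) (hT.same k h1 h2) (hT.step k h1 h2) _ _

lemma Psi_seg (hle : lo ≤ hi) (hT : Timed M Q T lo hi) (hu : Walk cs Q u lo hi) (ρ : B → ℝ) :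
    Psi cs (T hi) (u hi) ρ = Psi cs (T lo) (u lo) ρ + (2 : ℝ) • Csum cs Q u lo hi ρ +
      Ssum cs Q u lo hi ρ := by
  induction hi, hle using Nat.le_induction with
  | base => simp [Csum, Ssum]
  | succ h hle ih =>
    rw [Psi_step hT hu hle (Nat.lt_succ_self h), ih (hT.sub le_rfl (Nat.le_succ h))
      (hu.sub le_rfl (Nat.le_succ h))]
    unfold Csum Ssum
    rw [Finset.sum_Ico_succ_top hle, Finset.sum_Ico_succ_top hle]
    split_ifs <;> module

variable [Finite W]

lemma finite_roots (cs : CoxeterSystem M W) : {r | IsRoot cs r}.Finite := by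
  have : {r | IsRoot cs r} = Set.range (fun x : W × B => geo cs x.1 (ee x.2)) := by
    ext r
    constructor
    · rintro ⟨w, i, rfl⟩; exact ⟨(w, i), rfl⟩
    · rintro ⟨⟨w, i⟩, rfl⟩; exact ⟨w, i, rfl⟩
  rw [this]
  exact Set.finite_range _

/-- the finite set of roots -/
noncomputable def Phi (cs : CoxeterSystem M W) : Finset (B → ℝ) := (finite_roots cs).toFinset

lemma mem_Phi {r : B → ℝ} : r ∈ Phi cs ↔ IsRoot cs r := by simp [Phi]

/-- the crossing sum as a sum over roots -/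
noncomputable def Xs (cs : CoxeterSystem M W) (ρ : B → ℝ) (a b : W) : B → ℝ :=
  ∑ r ∈ (Phi cs).filter (fun r => Pos cs a r ∧ Neg cs b r), K M ρ r • r

lemma Ssum_eq (hle : lo ≤ hi) (hu : RW cs Q u lo hi) (ρ : B → ℝ) :
    Ssum cs Q u lo hi ρ = Xs cs ρ (u lo) (u hi) := by
  unfold Ssum Xs
  have : ∀ k ∈ Finset.Ico lo hi, (if u (k + 1) = u k then 0 else K M ρ (rt cs Q u k) • rt cs Q u k)
      = if u (k + 1) ≠ u k then K M ρ (rt cs Q u k) • rt cs Q u k else 0 := by
    intro k _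
    by_cases c : u (k + 1) = u k <;> simp [c]
  rw [Finset.sum_congr rfl this, ← Finset.sum_filter]
  refine Finset.sum_bij (fun k _ => rt cs Q u k) ?_ ?_ ?_ ?_
  · intro k hk
    rw [Finset.mem_filter, Finset.mem_Ico] at hk
    rw [Finset.mem_filter, mem_Phi]
    exact ⟨rt_root _ _ _, hu.red k hk.1.1 hk.1.2 hk.2, hu.cross_neg hk.1.1 hk.1.2 le_rfl hk.2⟩
  · intro k hk l hl e
    rw [Finset.mem_filter, Finset.mem_Ico] at hk hl
    exact hu.cross_unique hk.1.1 hk.1.2 hl.1.1 hl.1.2 hk.2 hl.2 e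
  · intro r hr
    rw [Finset.mem_filter, mem_Phi] at hr
    obtain ⟨k, k1, k2, k3, k4⟩ := hu.walk.sign_change le_rfl hle le_rfl hr.1 hr.2.1 hr.2.2
    exact ⟨k, by rw [Finset.mem_filter, Finset.mem_Ico]; exact ⟨⟨k1, k2⟩, k3⟩, k4.symm⟩
  · intro k _; rfl

lemma pos_sum {ι : Type*} (s : Finset ι) (f : ι → B → ℝ) {p : W} (h : ∀ i ∈ s, Pos cs p (f i)) :
    Pos cs p (∑ i ∈ s, f i) := by
  unfold Pos at *
  rw [map_sum]
  exact Finset.sum_nonneg h

lemma Csum_pos (hle : lo ≤ hi) (hT : Timed M Q T lo hi) (hu : RW cs Q u lo hi) {ρ : B → ℝ}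
    (hρ : IsRoot cs ρ) (h1 : Pos cs (u lo) ρ) (h2 : Pos cs (u hi) ρ) {p : W}
    (hp : Btw cs (u lo) p (u hi)) : Pos cs p (Csum cs Q u lo hi ρ) := by
  obtain ⟨v, hv, v1, v2, v3⟩ := exists_conPos hle hu hp
  have e1 := Psi_seg hle hT hu.walk ρ
  have e2 := Psi_seg hle hT hv.walk ρ
  rw [Ssum_eq hle hu] at e1
  rw [Ssum_eq hle hv, v1, v2, e1] at e2
  have e3 : Csum cs Q u lo hi ρ = Csum cs Q v lo hi ρ := by
    have := add_left_cancel (add_right_cancel e2)
    exact smul_right_injective _ (two_ne_zero) this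
  rw [e3]
  apply pos_sum
  intro k hk
  rw [Finset.mem_Ico] at hk
  split_ifs with c
  · refine (v3 k hk.1 hk.2 c).smul ?_
    exact hv.between hk.1 hk.2.le le_rfl hρ (by rw [v1]; exact h1) (by rw [v2]; exact h2) (Q k)
  · exact pos_zero _

/-- the exceptional set -/
noncomputable def Eset (cs : CoxeterSystem M W) (a p b : W) (i : B) : Finset (B → ℝ) :=
  (Phi cs).filter fun e => Pos cs p e ∧ Neg cs a e ∧ Neg cs b e ∧ Neg cs p (geo cs (rf cs a i) e)

lemma neg_rf_iff {a : W} {i : B} {e : B → ℝ} (he : IsRoot cs e) (h1 : e ≠ geo cs a (ee i))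
    (h2 : e ≠ - geo cs a (ee i)) : Neg cs a (geo cs (rf cs a i) e) ↔ Neg cs a e := by
  constructor
  · intro h
    exact he.neg_of_not_pos fun h3 => (he.map _).not_pos_neg (he.pos_rf h3 h1) h
  · intro h
    have := he.neg.pos_rf (i := i) (pos_neg_iff.mpr h) (fun e' => h2 (by rw [← e', neg_neg]))
    rwa [map_neg, pos_neg_iff] at this

theorem Xs_add {a p b : W} {i j : B} (hρ : geo cs a (ee i) = geo cs b (ee j))
    (hp : Pos cs p (geo cs a (ee i))) :
    ∃ N : ℝ, Xs cs (geo cs a (ee i)) a p + Xs cs (geo cs a (ee i)) p b =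
      N • geo cs a (ee i) + (2 : ℝ) • ∑ e ∈ Eset cs a p b i, K M (geo cs a (ee i)) e • e := by
  set ρ := geo cs a (ee i) with hρd
  have rρ : IsRoot cs ρ := isRoot_geo_ee _ _
  set σ := geo cs (rf cs a i) with hσ
  have σσ : ∀ v, σ (σ v) = v := rf_rf a i
  have σe : ∀ v, σ v = v - K M ρ v • ρ := geo_rf a i
  set P := (Phi cs).filter (fun r => Pos cs p r) with hP
  set g : (B → ℝ) → B → ℝ := fun r => K M ρ r • r with hg
  set wt : (B → ℝ) → ℝ := fun e => (if Neg cs a e then 1 else 0) + (if Neg cs b e then 1 else 0) -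
    2 * (if Neg cs a e ∧ Neg cs b e ∧ Neg cs p (σ e) then 1 else 0) with hwt
  have gneg : ∀ r, g (-r) = g r := by
    intro r; simp only [hg, K_neg_right]; module
  have e1 : Xs cs ρ a p = ∑ e ∈ P, (if Neg cs a e then (1 : ℝ) else 0) • g e := by
    have : ∀ e ∈ P, (if Neg cs a e then (1 : ℝ) else 0) • g e = if Neg cs a e then g e else 0 := by
      intro e _; split_ifs <;> simp
    rw [Finset.sum_congr rfl this, ← Finset.sum_filter]
    unfold Xs
    refine Finset.sum_bij' (fun r _ => -r) (fun r _ => -r) ?_ ?_ ?_ ?_ ?_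
    · intro r hr
      simp only [hP, Finset.mem_filter, mem_Phi] at hr ⊢
      exact ⟨⟨hr.1.neg, pos_neg_iff.mpr hr.2.2⟩, neg_neg_iff.mpr hr.2.1⟩
    · intro r hr
      simp only [hP, Finset.mem_filter, mem_Phi] at hr ⊢
      exact ⟨hr.1.1.neg, pos_neg_iff.mpr hr.2, neg_neg_iff.mpr hr.1.2⟩
    · intro r _; simp
    · intro r _; simp
    · intro r _; exact (gneg r).symm
  have e2 : Xs cs ρ p b = ∑ e ∈ P, (if Neg cs b e then (1 : ℝ) else 0) • g e := by
    have : ∀ e ∈ P, (if Neg cs b e then (1 : ℝ) else 0) • g e = if Neg cs b e then g e else 0 := by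
      intro e _; split_ifs <;> simp
    rw [Finset.sum_congr rfl this, ← Finset.sum_filter, hP, Finset.filter_filter]
    rfl
  have e3 : ∑ e ∈ Eset cs a p b i, g e = ∑ e ∈ P,
      (if Neg cs a e ∧ Neg cs b e ∧ Neg cs p (σ e) then (1 : ℝ) else 0) • g e := by
    have : ∀ e ∈ P, (if Neg cs a e ∧ Neg cs b e ∧ Neg cs p (σ e) then (1 : ℝ) else 0) • g e =
        if Neg cs a e ∧ Neg cs b e ∧ Neg cs p (σ e) then g e else 0 := by
      intro e _; split_ifs <;> simp
    rw [Finset.sum_congr rfl this, ← Finset.sum_filter, hP, Finset.filter_filter]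
    rfl
  have e4 : Xs cs ρ a p + Xs cs ρ p b = ∑ e ∈ P, wt e • g e + (2 : ℝ) • ∑ e ∈ Eset cs a p b i, g e := by
    rw [e1, e2, e3, Finset.smul_sum, ← Finset.sum_add_distrib, ← Finset.sum_add_distrib]
    refine Finset.sum_congr rfl fun e _ => ?_
    simp only [hwt]
    module
  set τ : (B → ℝ) → B → ℝ := fun e => if Pos cs p (σ e) then σ e else - σ e with hτ
  have τP : ∀ e ∈ P, τ e ∈ P := by
    intro e he
    simp only [hP, Finset.mem_filter, mem_Phi] at he ⊢
    have r1 : IsRoot cs (σ e) := he.1.map _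
    simp only [hτ]
    split_ifs with c
    · exact ⟨r1, c⟩
    · exact ⟨r1.neg, pos_neg_iff.mpr (r1.neg_of_not_pos c)⟩
  have ττ : ∀ e ∈ P, τ (τ e) = e := by
    intro e he
    simp only [hP, Finset.mem_filter, mem_Phi] at he
    by_cases c : Pos cs p (σ e)
    · have : τ e = σ e := by simp only [hτ, if_pos c]
      rw [this]
      simp only [hτ, σσ, if_pos he.2]
    · have : τ e = - σ e := by simp only [hτ, if_neg c]
      rw [this]
      have c2 : ¬ Pos cs p (-e) := fun h => he.1.not_pos_neg he.2 (pos_neg_iff.mp h)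
      simp only [hτ, map_neg, σσ, if_neg c2, neg_neg]
  have gτ : ∀ e, g (τ e) = - g e + (K M ρ e) ^ 2 • ρ := by
    intro e
    have : g (σ e) = - g e + (K M ρ e) ^ 2 • ρ := by
      simp only [hg, σe, K_sub_right, K_smul_right, rρ.K_self]
      module
    simp only [hτ]
    split_ifs
    · exact this
    · rw [gneg, this]
  have wτ : ∀ e ∈ P, wt (τ e) = wt e := by
    intro e he
    simp only [hP, Finset.mem_filter, mem_Phi] at he
    by_cases c0 : e = ρ
    · have : τ e = e := by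
        have s1 : σ e = - e := by rw [c0]; exact geo_rf_self a i
        have c2 : ¬ Pos cs p (-e) := fun h => he.1.not_pos_neg he.2 (pos_neg_iff.mp h)
        simp only [hτ, s1, if_neg c2, neg_neg]
      rw [this]
    have c1 : e ≠ -ρ := by
      intro h
      rw [h, pos_neg_iff] at he
      exact rρ.not_pos_neg hp he.2
    have r1 : IsRoot cs (σ e) := he.1.map _
    have na : Neg cs a (σ e) ↔ Neg cs a e := neg_rf_iff he.1 c0 c1
    have nb : Neg cs b (σ e) ↔ Neg cs b e := by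
      have := neg_rf_iff (a := b) (i := j) he.1 (by rw [← hρ]; exact c0) (by rw [← hρ]; exact c1)
      rwa [← rf_eq_of_root (Or.inl hρ)] at this
    have np : ¬ Neg cs p e := fun h => he.1.not_pos_neg he.2 h
    by_cases c : Pos cs p (σ e)
    · have : τ e = σ e := by simp only [hτ, if_pos c]
      rw [this]
      have np2 : ¬ Neg cs p (σ e) := fun h => r1.not_pos_neg c h
      simp only [hwt, na, nb, σσ, np, np2, and_false]
    · have : τ e = - σ e := by simp only [hτ, if_neg c]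
      rw [this]
      have np2 : Neg cs p (σ e) := r1.neg_of_not_pos c
      have pa : Pos cs a (σ e) ↔ ¬ Neg cs a e := by
        rw [← na]
        exact ⟨fun h h' => r1.not_pos_neg h h', r1.pos_of_not_neg⟩
      have pb : Pos cs b (σ e) ↔ ¬ Neg cs b e := by
        rw [← nb]
        exact ⟨fun h h' => r1.not_pos_neg h h', r1.pos_of_not_neg⟩
      simp only [hwt, map_neg, σσ, neg_neg_iff, pa, pb, he.2, np2, and_true]
      by_cases x : Neg cs a e <;> by_cases y : Neg cs b e <;> simp [x, y] <;> norm_num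
  have e5 : ∑ e ∈ P, wt e • g e = ∑ e ∈ P, wt (τ e) • g (τ e) :=
    Finset.sum_bij' (fun e _ => τ e) (fun e _ => τ e) τP τP ττ ττ (fun e he => by rw [ττ e he])
  have e6 : (2 : ℝ) • ∑ e ∈ P, wt e • g e = (∑ e ∈ P, wt e * (K M ρ e) ^ 2) • ρ := by
    rw [two_smul]
    nth_rewrite 2 [e5]
    rw [← Finset.sum_add_distrib, Finset.sum_smul]
    refine Finset.sum_congr rfl fun e he => ?_
    rw [wτ e he, gτ]
    module
  refine ⟨(∑ e ∈ P, wt e * (K M ρ e) ^ 2) / 2, ?_⟩
  rw [e4]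
  congr 1
  have : ∑ e ∈ P, wt e • g e = (1 / 2 : ℝ) • (2 : ℝ) • ∑ e ∈ P, wt e • g e := by
    rw [smul_smul]; norm_num
  rw [this, e6, smul_smul]
  congr 1
  ring

lemma Eset_K_pos {a p b : W} {i : B} (hp : Pos cs p (geo cs a (ee i))) {e : B → ℝ}
    (he : e ∈ Eset cs a p b i) : 0 ≤ K M (geo cs a (ee i)) e := by
  simp only [Eset, Finset.mem_filter, mem_Phi] at he
  obtain ⟨r, h1, -, -, h2⟩ := he
  by_contra c
  push Not at c
  have h3 : Pos cs p (geo cs (rf cs a i) e) := by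
    rw [geo_rf, sub_eq_add_neg, ← neg_smul]
    exact h1.add (hp.smul (by linarith))
  exact (r.map _).not_pos_neg h3 h2

/-- The hammock identity. -/
theorem hammock {a t b : ℕ} (hat : a ≤ t) (htb : t ≤ b) (hT : Timed M Q T a b)
    (h1 : RW cs Q u a t) (h2 : RW cs Q u t b) {i j : B}
    (hρ : geo cs (u a) (ee i) = geo cs (u b) (ee j)) (hp : Pos cs (u t) (geo cs (u a) (ee i))) :
    ∃ N : ℝ, 0 ≤ N ∧ N • geo cs (u a) (ee i) = Csum cs Q u a b (geo cs (u a) (ee i)) +
      ∑ e ∈ Eset cs (u a) (u t) (u b) i, K M (geo cs (u a) (ee i)) e • e := by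
  obtain ⟨N, hN⟩ := Xs_add hρ hp
  set ρ := geo cs (u a) (ee i) with hρd
  have rρ : IsRoot cs ρ := isRoot_geo_ee _ _
  have e1 := Psi_seg hat (hT.sub le_rfl htb) h1.walk ρ
  have e2 := Psi_seg htb (hT.sub hat le_rfl) h2.walk ρ
  rw [Ssum_eq hat h1] at e1
  rw [Ssum_eq htb h2] at e2
  have e3 : Psi cs (T a) (u a) ρ = T a i • ρ := Psi_simple _ _ _
  have e4 : Psi cs (T b) (u b) ρ = T b j • ρ := by rw [hρ]; exact Psi_simple _ _ _
  have e5 : Csum cs Q u a b ρ = Csum cs Q u a t ρ + Csum cs Q u t b ρ := by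
    unfold Csum; rw [Finset.sum_Ico_consecutive _ hat htb]
  have e6 : ((T b j - T a i - N) / 2) • ρ = Csum cs Q u a b ρ +
      ∑ e ∈ Eset cs (u a) (u t) (u b) i, K M ρ e • e := by
    rw [e1, e3, e4] at e2
    have e7 : T b j • ρ = T a i • ρ + (2 : ℝ) • (Csum cs Q u a t ρ + Csum cs Q u t b ρ) +
        (Xs cs ρ (u a) (u t) + Xs cs ρ (u t) (u b)) := by rw [e2]; module
    rw [hN, ← e5] at e7
    have e8 : ((T b j - T a i - N) / 2) • ρ = (1 / 2 : ℝ) • (T b j • ρ - T a i • ρ - N • ρ) := by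
      module
    rw [e8, e7]
    module
  refine ⟨_, ?_, e6⟩
  have pa : Pos cs (u a) ρ := pos_self _ _
  have pb : Pos cs (u b) ρ := by rw [hρ]; exact pos_self _ _
  have p1 := Csum_pos hat (hT.sub le_rfl htb) h1 rρ pa hp (btw_right _ _)
  have p2 := Csum_pos htb (hT.sub hat le_rfl) h2 rρ hp pb (btw_left _ _)
  have p3 : Pos cs (u t) (∑ e ∈ Eset cs (u a) (u t) (u b) i, K M ρ e • e) := by
    apply pos_sum
    intro e he
    have h3 := Eset_K_pos hp he
    simp only [Eset, Finset.mem_filter] at he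
    exact he.2.1.smul h3
  have p4 : Pos cs (u t) (((T b j - T a i - N) / 2) • ρ) := by
    rw [e6, e5]; exact (p1.add p2).add p3
  by_contra c
  push Not at c
  have p5 : Neg cs (u t) ρ := by
    have := p4.smul (a := -((T b j - T a i - N) / 2)⁻¹) (by
      rw [neg_nonneg]; exact (inv_lt_zero.mpr c).le)
    rw [smul_smul, neg_mul, inv_mul_cancel₀ c.ne, neg_smul, one_smul, pos_neg_iff] at this
    exact this
  exact rρ.not_pos_neg hp p5

end Pool.Agent.H176Z
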