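import Pool.Agent.H176Z.Basic

set_option autoImplicit false
set_option linter.unusedSectionVars false

namespace Pool.Agent.H176Z

open Pool.Agent.Helper741

variable {B : Type*} [Fintype B] [DecidableEq B] {M : CoxeterMatrix B}
variable {W : Type*} [Group W] (cs : CoxeterSystem M W)

/-- root at position `k` of a walk -/
noncomputable def rt (Q : ℕ → B) (u : ℕ → W) (k : ℕ) : B → ℝ := geo cs (u k) (ee (Q k))

/-- a walk along the word `Q` on the positions `lo ≤ k < hi` -/
def Walk (Q : ℕ → B) (u : ℕ → W) (lo hi : ℕ) : Prop :=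
  ∀ k, lo ≤ k → k < hi → u (k + 1) = u k ∨ u (k + 1) = u k * cs.simple (Q k)

/-- a reduced walk -/
structure RW (Q : ℕ → B) (u : ℕ → W) (lo hi : ℕ) : Prop where
  walk : Walk cs Q u lo hi
  red : ∀ k, lo ≤ k → k < hi → u (k + 1) ≠ u k → Pos cs (u lo) (rt cs Q u k)

/-- all contact roots are positive for `p` -/
def ConPos (Q : ℕ → B) (u : ℕ → W) (lo hi : ℕ) (p : W) : Prop :=
  ∀ k, lo ≤ k → k < hi → u (k + 1) = u k → Pos cs p (rt cs Q u k)

variable {cs} {Q : ℕ → B} {u : ℕ → W} {lo hi : ℕ}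

lemma rt_root (Q : ℕ → B) (u : ℕ → W) (k : ℕ) : IsRoot cs (rt cs Q u k) := isRoot_geo_ee _ _

lemma rt_pos (Q : ℕ → B) (u : ℕ → W) (k : ℕ) : Pos cs (u k) (rt cs Q u k) := pos_self _ _

lemma Walk.sub (h : Walk cs Q u lo hi) {a b : ℕ} (ha : lo ≤ a) (hb : b ≤ hi) : Walk cs Q u a b :=
  fun k h1 h2 => h k (by omega) (by omega)

lemma Walk.cross (h : Walk cs Q u lo hi) {k : ℕ} (h1 : lo ≤ k) (h2 : k < hi)
    (h3 : u (k + 1) ≠ u k) : u (k + 1) = u k * cs.simple (Q k) := (h k h1 h2).resolve_left h3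

lemma Walk.cross_neg (h : Walk cs Q u lo hi) {k : ℕ} (h1 : lo ≤ k) (h2 : k < hi)
    (h3 : u (k + 1) ≠ u k) : Neg cs (u (k + 1)) (rt cs Q u k) := by
  rw [h.cross h1 h2 h3]; exact neg_self _ _

lemma Walk.sign_change (h : Walk cs Q u lo hi) {a b : ℕ} (ha : lo ≤ a) (hab : a ≤ b) (hb : b ≤ hi)
    {r : B → ℝ} (hr : IsRoot cs r) (h1 : Pos cs (u a) r) (h2 : Neg cs (u b) r) :
    ∃ k, a ≤ k ∧ k < b ∧ u (k + 1) ≠ u k ∧ r = rt cs Q u k := by
  induction b, hab using Nat.le_induction with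
  | base => exact (hr.not_pos_neg h1 h2).elim
  | succ b hab ih =>
    rcases hr.pos_or_neg (u b) with h3 | h3
    · refine ⟨b, hab, by omega, ?_, ?_⟩
      · intro e
        rw [e] at h2
        exact hr.not_pos_neg h3 h2
      · rcases h b (by omega) (by omega) with e | e
        · rw [e] at h2
          exact (hr.not_pos_neg h3 h2).elim
        · rw [e] at h2
          exact hr.eq_of_flip h3 h2
    · obtain ⟨k, k1, k2, k3⟩ := ih (by omega) h3
      exact ⟨k, k1, by omega, k3⟩

lemma RW.mono (h : RW cs Q u lo hi) {k l : ℕ} (hk : lo ≤ k) (hkl : k ≤ l) (hl : l ≤ hi)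
    {r : B → ℝ} (hr : IsRoot cs r) (h1 : Pos cs (u lo) r) (h2 : Neg cs (u k) r) :
    Neg cs (u l) r := by
  apply hr.neg_of_not_pos
  intro h3
  obtain ⟨j, j1, j2, j3, j4⟩ := h.walk.sign_change hk hkl hl hr.neg (pos_neg_iff.mpr h2)
    (neg_neg_iff.mpr h3)
  have h4 := h.red j (by omega) (by omega) j3
  rw [← j4, pos_neg_iff] at h4
  exact hr.not_pos_neg h1 h4

lemma RW.between (h : RW cs Q u lo hi) {k l : ℕ} (hk : lo ≤ k) (hkl : k ≤ l) (hl : l ≤ hi)
    {r : B → ℝ} (hr : IsRoot cs r) (h1 : Pos cs (u lo) r) (h2 : Pos cs (u l) r) :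
    Pos cs (u k) r :=
  hr.pos_of_not_neg fun h3 => hr.not_pos_neg h2 (h.mono hk hkl hl hr h1 h3)

lemma RW.sub (h : RW cs Q u lo hi) {a b : ℕ} (ha : lo ≤ a) (hb : b ≤ hi) : RW cs Q u a b :=
  ⟨h.walk.sub ha hb, fun k h1 h2 h3 =>
    h.between ha h1 (by omega) (rt_root _ _ _) (h.red k (by omega) (by omega) h3) (rt_pos _ _ _)⟩

/-- three frames in order: a root positive at the outer two is positive at the middle one -/
lemma RW.between' (h : RW cs Q u lo hi) {a k l : ℕ} (ha : lo ≤ a) (hk : a ≤ k) (hkl : k ≤ l)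
    (hl : l ≤ hi) {r : B → ℝ} (hr : IsRoot cs r) (h1 : Pos cs (u a) r) (h2 : Pos cs (u l) r) :
    Pos cs (u k) r :=
  (h.sub ha le_rfl).between hk hkl hl hr h1 h2

lemma RW.mono' (h : RW cs Q u lo hi) {a k l : ℕ} (ha : lo ≤ a) (hk : a ≤ k) (hkl : k ≤ l)
    (hl : l ≤ hi) {r : B → ℝ} (hr : IsRoot cs r) (h1 : Pos cs (u a) r) (h2 : Neg cs (u k) r) :
    Neg cs (u l) r :=
  (h.sub ha le_rfl).mono hk hkl hl hr h1 h2

lemma RW.cross_neg (h : RW cs Q u lo hi) {k l : ℕ} (h1 : lo ≤ k) (h2 : k < l) (hl : l ≤ hi)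
    (h3 : u (k + 1) ≠ u k) : Neg cs (u l) (rt cs Q u k) :=
  h.mono' h1 (Nat.le_succ k) h2 hl (rt_root _ _ _) (rt_pos _ _ _)
    (h.walk.cross_neg h1 (by omega) h3)

lemma RW.cross_pos (h : RW cs Q u lo hi) {k l : ℕ} (h1 : lo ≤ l) (h2 : l ≤ k) (hk : k < hi)
    (h3 : u (k + 1) ≠ u k) : Pos cs (u l) (rt cs Q u k) :=
  (h.sub h1 le_rfl).red k h2 hk h3

lemma RW.cross_unique (h : RW cs Q u lo hi) {k l : ℕ} (h1 : lo ≤ k) (h2 : k < hi) (h3 : lo ≤ l)
    (h4 : l < hi) (hk : u (k + 1) ≠ u k) (hl : u (l + 1) ≠ u l)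
    (e : rt cs Q u k = rt cs Q u l) : k = l := by
  rcases lt_trichotomy k l with c | c | c
  · have := h.cross_neg h1 c h4.le hk
    rw [e] at this
    exact ((rt_root _ _ _).not_pos_neg (rt_pos _ _ _) this).elim
  · exact c
  · have := h.cross_neg h3 c h2.le hl
    rw [← e] at this
    exact ((rt_root _ _ _).not_pos_neg (rt_pos _ _ _) this).elim

/-- translation of a walk -/
lemma rt_mul (g : W) (Q : ℕ → B) (u : ℕ → W) (k : ℕ) :
    rt cs Q (fun k => g * u k) k = geo cs g (rt cs Q u k) := by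
  unfold rt; rw [geo_mul_apply]

lemma RW.congr (h : RW cs Q u lo hi) {u' : ℕ → W} (e : ∀ k, lo ≤ k → k ≤ hi → u' k = u k)
    (hle : lo ≤ hi) : RW cs Q u' lo hi := by
  constructor
  · intro k h1 h2
    rw [e k h1 h2.le, e (k + 1) (by omega) (by omega)]
    exact h.walk k h1 h2
  · intro k h1 h2 h3
    rw [e k h1 h2.le, e (k + 1) (by omega) (by omega)] at h3
    have := h.red k h1 h2 h3
    unfold rt at this ⊢
    rw [e k h1 h2.le, e lo le_rfl hle]
    exact this

lemma RW.mul (h : RW cs Q u lo hi) (g : W) : RW cs Q (fun k => g * u k) lo hi := by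
  constructor
  · intro k h1 h2
    rcases h.walk k h1 h2 with e | e
    · left; simp only [e]
    · right; simp only [e, mul_assoc]
  · intro k h1 h2 h3
    rw [rt_mul, pos_mul_iff]
    exact h.red k h1 h2 fun e => h3 (by simp only [e])

/-- the flipped walk -/
noncomputable def flipW (cs : CoxeterSystem M W) (Q : ℕ → B) (u : ℕ → W) (i j : ℕ) (k : ℕ) : W :=
  if i < k ∧ k ≤ j then rf cs (u i) (Q i) * u k else u k

lemma flipW_le {i j k : ℕ} (h : k ≤ i) : flipW cs Q u i j k = u k := by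
  unfold flipW; rw [if_neg (by omega)]

lemma flipW_gt {i j k : ℕ} (h : j < k) : flipW cs Q u i j k = u k := by
  unfold flipW; rw [if_neg (by omega)]

lemma flipW_mid {i j k : ℕ} (h : i < k) (h' : k ≤ j) :
    flipW cs Q u i j k = rf cs (u i) (Q i) * u k := by
  unfold flipW; rw [if_pos ⟨h, h'⟩]

lemma flipW_flipW (i j k : ℕ) : flipW cs Q (flipW cs Q u i j) i j k = u k := by
  by_cases h : i < k ∧ k ≤ j
  · rw [flipW_mid h.1 h.2, flipW_le le_rfl, flipW_mid h.1 h.2, ← mul_assoc, rf_mul_rf, one_mul]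
  · unfold flipW
    rw [if_neg h, if_neg h]

lemma rt_flip_le {i j k : ℕ} (h : k ≤ i) : rt cs Q (flipW cs Q u i j) k = rt cs Q u k := by
  unfold rt; rw [flipW_le h]

lemma rt_flip_gt {i j k : ℕ} (h : j < k) : rt cs Q (flipW cs Q u i j) k = rt cs Q u k := by
  unfold rt; rw [flipW_gt h]

lemma rt_flip_mid {i j k : ℕ} (h : i < k) (h' : k ≤ j) :
    rt cs Q (flipW cs Q u i j) k = geo cs (rf cs (u i) (Q i)) (rt cs Q u k) := by
  unfold rt; rw [flipW_mid h h', geo_mul_apply]

/-- contacts of the flipped walk away from the two flipped positions -/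
lemma flip_contact_iff {i j k : ℕ} (hki : k ≠ i) (hkj : k ≠ j) :
    flipW cs Q u i j (k + 1) = flipW cs Q u i j k ↔ u (k + 1) = u k := by
  by_cases h : i < k ∧ k ≤ j
  · rw [flipW_mid h.1 h.2, flipW_mid (by omega) (by omega), mul_right_inj]
  · unfold flipW
    rw [if_neg h, if_neg (by omega)]

/-- The data of a flip: either contact then crossing with equal roots, or crossing then contact
with opposite roots. -/
def FlipData (cs : CoxeterSystem M W) (Q : ℕ → B) (u : ℕ → W) (i j : ℕ) : Prop :=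
  (u (i + 1) = u i ∧ u (j + 1) ≠ u j ∧ rt cs Q u i = rt cs Q u j) ∨
  (u (i + 1) ≠ u i ∧ u (j + 1) = u j ∧ rt cs Q u i = - rt cs Q u j)

lemma FlipData.rf_eq {i j : ℕ} (d : FlipData cs Q u i j) :
    rf cs (u i) (Q i) = rf cs (u j) (Q j) := by
  apply rf_eq_of_root
  rcases d with d | d
  · exact Or.inl d.2.2
  · exact Or.inr d.2.2

lemma flip_i_up {i j : ℕ} (hij : i < j) (h : u (i + 1) = u i) :
    flipW cs Q u i j (i + 1) = flipW cs Q u i j i * cs.simple (Q i) := by
  rw [flipW_mid (by omega) (by omega), flipW_le le_rfl, h, rf_mul_self]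

lemma flip_i_down {i j : ℕ} (hij : i < j) (h : u (i + 1) = u i * cs.simple (Q i)) :
    flipW cs Q u i j (i + 1) = flipW cs Q u i j i := by
  rw [flipW_mid (by omega) (by omega), flipW_le le_rfl, h, ← mul_assoc, rf_mul_self,
    cs.simple_mul_simple_cancel_right]

lemma flip_j_up {i j : ℕ} (hij : i < j) (d : FlipData cs Q u i j)
    (h : u (j + 1) = u j * cs.simple (Q j)) :
    flipW cs Q u i j (j + 1) = flipW cs Q u i j j := by
  rw [flipW_gt (by omega), flipW_mid hij le_rfl, d.rf_eq, rf_mul_self, h]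

lemma flip_j_down {i j : ℕ} (hij : i < j) (d : FlipData cs Q u i j) (h : u (j + 1) = u j) :
    flipW cs Q u i j (j + 1) = flipW cs Q u i j j * cs.simple (Q j) := by
  rw [flipW_gt (by omega), flipW_mid hij le_rfl, d.rf_eq, rf_mul_self, h,
    cs.simple_mul_simple_cancel_right]

lemma RW.flip (h : RW cs Q u lo hi) {i j : ℕ} (hi' : lo ≤ i) (hij : i < j) (hj : j < hi)
    (d : FlipData cs Q u i j) : RW cs Q (flipW cs Q u i j) lo hi := by
  have hlo : flipW cs Q u i j lo = u lo := flipW_le hi'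
  constructor
  · intro k h1 h2
    by_cases hki : k = i
    · subst hki
      rcases d with d | d
      · right; exact flip_i_up hij d.1
      · left; exact flip_i_down hij (h.walk.cross h1 h2 d.1)
    by_cases hkj : k = j
    · subst hkj
      rcases d with d' | d'
      · left; exact flip_j_up hij (Or.inl d') (h.walk.cross h1 h2 d'.2.1)
      · right; exact flip_j_down hij (Or.inr d') d'.2.1
    by_cases c : i < k ∧ k ≤ j
    · rw [flipW_mid c.1 c.2, flipW_mid (by omega) (by omega), mul_assoc]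
      rcases h.walk k h1 h2 with e | e
      · left; rw [e]
      · right; rw [e]
    · unfold flipW
      rw [if_neg c, if_neg (by omega)]
      exact h.walk k h1 h2
  · intro k h1 h2 h3
    rw [hlo]
    by_cases hki : k = i
    · subst hki
      rw [rt_flip_le le_rfl]
      rcases d with d | d
      · rw [d.2.2]; exact h.red j (by omega) hj d.2.1
      · exact h.red k h1 h2 d.1
    by_cases hkj : k = j
    · subst hkj
      rcases d with d' | d'
      · exact (h3 (flip_j_up hij (Or.inl d') (h.walk.cross h1 h2 d'.2.1))).elim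
      · rw [rt_flip_mid hij le_rfl]
        have e : rt cs Q u k = - rt cs Q u i := by rw [d'.2.2, neg_neg]
        rw [e, map_neg]
        unfold rt
        rw [geo_rf_self, neg_neg]
        exact h.red i hi' (by omega) d'.1
    have h4 : u (k + 1) ≠ u k := fun e => h3 ((flip_contact_iff hki hkj).mpr e)
    by_cases c : i < k ∧ k ≤ j
    · rw [rt_flip_mid c.1 c.2]
      have hk := rt_root (cs := cs) Q u k
      have hr := hk.map (rf cs (u i) (Q i))
      have hkj' : k < j := by omega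
      have n1 : Neg cs (u j) (rt cs Q u k) := h.cross_neg h1 hkj' hj.le h4
      have p1 : Pos cs (u i) (rt cs Q u k) := h.cross_pos hi' c.1.le h2 h4
      have ne1 : rt cs Q u k ≠ rt cs Q u i := by
        intro e
        rcases d with d | d
        · rw [e, d.2.2] at n1
          exact (rt_root _ _ _).not_pos_neg (rt_pos _ _ _) n1
        · have := h.cross_unique h1 h2 hi' (by omega) h4 d.1 e
          omega
      have p2 : Pos cs (u i) (geo cs (rf cs (u i) (Q i)) (rt cs Q u k)) := hk.pos_rf p1 ne1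
      apply hr.pos_of_not_neg
      intro n2
      have p3 : Pos cs (u j) (geo cs (rf cs (u i) (Q i)) (rt cs Q u k)) := by
        have := h.mono hi' hij.le hj.le hr.neg (pos_neg_iff.mpr n2) (neg_neg_iff.mpr p2)
        exact neg_neg_iff.mp this
      have ne2 : geo cs (rf cs (u i) (Q i)) (rt cs Q u k) ≠ geo cs (u j) (ee (Q j)) := by
        intro e
        have e2 : rt cs Q u k = - rt cs Q u j := by
          rw [← rf_rf (cs := cs) (u i) (Q i) (rt cs Q u k), e, d.rf_eq, geo_rf_self]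
          rfl
        rcases d with d | d
        · rw [e2, ← d.2.2, pos_neg_iff] at p1
          exact (rt_root _ _ _).not_pos_neg (rt_pos _ _ _) p1
        · exact ne1 (by rw [e2, d.2.2])
      have p4 := hr.pos_rf p3 ne2
      rw [← d.rf_eq, rf_rf] at p4
      exact hk.not_pos_neg p4 n1
    · have e : rt cs Q (flipW cs Q u i j) k = rt cs Q u k := by
        unfold rt flipW; rw [if_neg c]
      rw [e]
      exact h.red k h1 h2 h4

/-- reversal of a walk -/
lemma RW.rev {m : ℕ} (h : RW cs Q u 0 m) {Q' : ℕ → B} (hQ : ∀ k, k < m → Q' k = Q (m - 1 - k)) :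
    RW cs Q' (fun k => u (m - k)) 0 m := by
  have idx : ∀ k, k < m → m - k = (m - 1 - k) + 1 ∧ m - (k + 1) = m - 1 - k := by
    intro k hk; omega
  constructor
  · intro k _ h2
    obtain ⟨e1, e2⟩ := idx k h2
    simp only [e1, e2, hQ k h2]
    rcases h.walk (m - 1 - k) (by omega) (by omega) with e | e
    · left; exact e.symm
    · right; rw [e, cs.simple_mul_simple_cancel_right]
  · intro k _ h2 h3
    obtain ⟨e1, e2⟩ := idx k h2
    simp only [e1, e2] at h3
    have h4 := h.cross_neg (k := m - 1 - k) (l := m) (by omega) (by omega) le_rfl h3.symm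
    have h5 := h.walk.cross (k := m - 1 - k) (by omega) (by omega) h3.symm
    unfold rt at h4 ⊢
    simp only [e1, hQ k h2, h5, geo_mul_simple_ee, Nat.sub_zero]
    exact pos_neg_iff.mpr h4

lemma ConPos.rev {m : ℕ} {p : W} (h : ConPos cs Q u 0 m p) {Q' : ℕ → B}
    (hQ : ∀ k, k < m → Q' k = Q (m - 1 - k)) : ConPos cs Q' (fun k => u (m - k)) 0 m p := by
  intro k _ h2 h3
  have e1 : m - k = (m - 1 - k) + 1 := by omega
  have e2 : m - (k + 1) = m - 1 - k := by omega
  simp only [e1, e2] at h3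
  have h4 := h (m - 1 - k) (by omega) (by omega) h3.symm
  unfold rt at h4 ⊢
  simp only [e1, hQ k h2, ← h3]
  exact h4

end Pool.Agent.H176Z
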