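import Pool.Agent.H176Z.Poly
import Pool.Agent.H176Z.Time
import Pool.Agent.H176Z.Lat

set_option autoImplicit false
set_option linter.unusedSectionVars false

namespace Pool.Agent.H176Z

open Pool.Agent.Helper741 Classical Relation

variable {B : Type*} [Fintype B] [DecidableEq B] {M : CoxeterMatrix B}
variable {W : Type*} [Group W] {cs : CoxeterSystem M W}

lemma Btw.trans {a x y z : W} (h1 : Btw cs a x y) (h2 : Btw cs a y z) : Btw cs a x z :=
  fun r hr p1 p2 => h1 r hr p1 (h2 r hr p1 p2)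

lemma Btw.step {a p b : W} {s : B} (h : Btw cs a p b) (hn : Neg cs b (geo cs p (ee s))) :
    Btw cs a (p * cs.simple s) b := by
  intro r hr p1 p2
  refine hr.pos_mul_simple (h r hr p1 p2) fun e => ?_
  rw [← e] at hn
  exact hr.not_pos_neg p2 hn

lemma btw_up {a p : W} {s : B} (h : Pos cs a (geo cs p (ee s))) : Btw cs a p (p * cs.simple s) := by
  have := (btw_right (cs := cs) a (p * cs.simple s)).symm.step (s := s) (by
    rw [geo_mul_simple_ee, neg_neg_iff]; exact h)
  rw [cs.simple_mul_simple_cancel_right] at this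
  exact this.symm

lemma eq_of_pos {x z : W} (h : ∀ r, IsRoot cs r → Pos cs x r → Pos cs z r) : z = x := by
  have : z⁻¹ * x = 1 := by
    apply eq_one_of_geo cs
    intro i
    rw [geo_mul_apply]
    exact h _ (isRoot_geo_ee x i) (pos_self x i)
  exact inv_mul_eq_one.mp this

lemma Btw.swap {a b x y : W} (hx : Btw cs a x b) (h : Btw cs a y x) : Btw cs b x y := by
  intro r hr p1 p2
  apply hr.pos_of_not_neg
  intro n
  rcases hr.pos_or_neg a with c | c
  · exact hr.not_pos_neg (hx r hr c p1) n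
  · have := h (-r) hr.neg (pos_neg_iff.mpr c) (pos_neg_iff.mpr n)
    exact hr.not_pos_neg p2 (pos_neg_iff.mp this)

lemma Btw.antisymm {a x y : W} (h1 : Btw cs a x y) (h2 : Btw cs a y x) : x = y := by
  apply eq_of_pos (cs := cs)
  intro r hr p
  exact h2.swap h1 |> fun _ => by
    rcases hr.pos_or_neg a with c | c
    · exact h1 r hr c p
    · apply hr.pos_of_not_neg
      intro n
      have := h2 (-r) hr.neg (pos_neg_iff.mpr c) (pos_neg_iff.mpr n)
      exact hr.not_pos_neg p (pos_neg_iff.mp this)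

lemma eq_or_eq_of_btw {a x z : W} {s : B} (h1 : Btw cs a x z) (h2 : Btw cs a z (x * cs.simple s)) :
    z = x ∨ z = x * cs.simple s := by
  have key : ∀ r, IsRoot cs r → Pos cs x r → Pos cs (x * cs.simple s) r → Pos cs z r := by
    intro r hr p1 p2
    rcases hr.pos_or_neg a with c | c
    · exact h2 r hr c p2
    · apply hr.pos_of_not_neg
      intro n
      have := h1 (-r) hr.neg (pos_neg_iff.mpr c) (pos_neg_iff.mpr n)
      exact hr.not_pos_neg p1 (pos_neg_iff.mp this)
  rcases (isRoot_geo_ee (cs := cs) x s).pos_or_neg z with c | c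
  · left
    apply eq_of_pos (cs := cs)
    intro r hr p
    by_cases e : r = geo cs x (ee s)
    · rw [e]; exact c
    · exact key r hr p (hr.pos_mul_simple p e)
  · right
    apply eq_of_pos (cs := cs)
    intro r hr p
    by_cases e : r = geo cs (x * cs.simple s) (ee s)
    · rw [e, geo_mul_simple_ee, pos_neg_iff]; exact c
    · have := hr.pos_mul_simple p e
      rw [cs.simple_mul_simple_cancel_right] at this
      exact key r hr this p

theorem weakLE_iff {x w : W} : WeakLE cs x w ↔ Btw cs 1 x w := by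
  unfold WeakLE
  constructor
  · intro h
    induction hn : cs.length (x⁻¹ * w) generalizing w with
    | zero =>
      rw [cs.length_eq_zero_iff, inv_mul_eq_one] at hn
      rw [hn]; exact btw_right _ _
    | succ n ih =>
      have hne : w ≠ x := by
        intro e
        rw [e, inv_mul_cancel, cs.length_one] at hn
        omega
      obtain ⟨p, s, rfl, l1, -⟩ := exists_step (cs := cs) hne
      have l2 := cs.length_mul_le x (x⁻¹ * p)
      rw [mul_inv_cancel_left] at l2
      have l3 := cs.length_mul_simple p s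
      refine (ih (w := p) (by omega) (by omega)).trans (btw_up ?_)
      rw [pos_one_iff]
      apply geo_nonneg
      omega
  · intro h
    induction hn : cs.length x generalizing x with
    | zero =>
      rw [cs.length_eq_zero_iff] at hn
      simp [hn]
    | succ n ih =>
      have hne : x ≠ 1 := by
        intro e
        rw [e, cs.length_one] at hn
        omega
      obtain ⟨p, s, rfl, l1, l2⟩ := exists_step (cs := cs) hne
      simp only [inv_one, one_mul] at l1
      have l3 := ih ((btw_up l2).trans h) (by omega)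
      have l4 := h.neg (isRoot_geo_ee p s) l2 (neg_self _ _)
      unfold Neg at l4
      rw [← geo_mul_apply, geo_nonpos_iff] at l4
      have l5 := cs.length_mul_simple (w⁻¹ * p) s
      have l6 := cs.length_inv (w⁻¹ * p)
      have l7 := cs.length_inv (w⁻¹ * p * cs.simple s)
      rw [mul_inv_rev, inv_inv] at l6
      rw [mul_assoc, mul_inv_rev, inv_inv] at l7
      rw [mul_assoc] at l4 l5
      omega

/-- a poset identified with the interval of chambers between `a` and `b` -/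
structure IvData (cs : CoxeterSystem M W) (a b : W) {α : Type*} [PartialOrder α] (ι : α → W) :
    Prop where
  mem : ∀ x, Btw cs a (ι x) b
  surj : ∀ p, Btw cs a p b → ∃ x, ι x = p
  le_iff : ∀ x y, x ≤ y ↔ Btw cs a (ι x) (ι y)

variable {a b : W} {α : Type*}

lemma IvData.inj [PartialOrder α] {ι : α → W} (h : IvData cs a b ι) {x y : α} (e : ι x = ι y) :
    x = y :=
  le_antisymm ((h.le_iff _ _).mpr (by rw [e]; exact btw_right _ _))
    ((h.le_iff _ _).mpr (by rw [e]; exact btw_right _ _))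

lemma IvData.dual [PartialOrder α] {ι : α → W} (h : IvData cs a b ι) :
    IvData cs b a (α := αᵒᵈ) (fun x => ι (OrderDual.ofDual x)) := by
  refine ⟨fun x => (h.mem _).symm, fun p hp => h.surj p hp.symm, fun x y => ?_⟩
  rw [← OrderDual.ofDual_le_ofDual, h.le_iff]
  exact ⟨fun k => (h.mem _).swap k, fun k => (h.mem _).symm.swap k⟩

lemma IvData.cov_iff [PartialOrder α] {ι : α → W} (h : IvData cs a b ι) {x y : α} :
    x ⋖ y ↔ ∃ s, ι y = ι x * cs.simple s ∧ Pos cs a (geo cs (ι x) (ee s)) := by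
  constructor
  · intro c
    have h1 := (h.le_iff _ _).mp c.le
    have hne : ι x ≠ ι y := fun e => c.ne (h.inj e)
    obtain ⟨p, s, e, -, l2⟩ := exists_step (cs := cs) hne
    have e2 : p = ι x * cs.simple s := by rw [e, cs.simple_mul_simple_cancel_right]
    rw [e2, geo_mul_simple_ee, pos_neg_iff] at l2
    have hβ := isRoot_geo_ee (cs := cs) (ι x) s
    have l3 : Pos cs a (geo cs (ι x) (ee s)) := by
      apply hβ.pos_of_not_neg
      intro n
      have := h1 _ hβ.neg (pos_neg_iff.mpr n) (pos_neg_iff.mpr l2)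
      exact hβ.not_pos_neg (pos_self _ _) (pos_neg_iff.mp this)
    have h2 := h1.step l2
    obtain ⟨z, hz⟩ := h.surj _ (h2.trans (h.mem y))
    refine ⟨s, ?_, l3⟩
    rcases c.eq_or_eq (c := z) ((h.le_iff _ _).mpr (by rw [hz]; exact btw_up l3))
      ((h.le_iff _ _).mpr (by rw [hz]; exact h2)) with k | k
    · rw [k] at hz; exact (mul_simple_ne _ _ hz.symm).elim
    · rw [← k, hz]
  · rintro ⟨s, e, p⟩
    have h1 : x ≤ y := (h.le_iff _ _).mpr (by rw [e]; exact btw_up p)
    refine ⟨lt_of_le_of_ne h1 fun k => ?_, fun z z1 z2 => ?_⟩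
    · rw [k] at e; exact mul_simple_ne _ _ e.symm
    · have k1 := (h.le_iff _ _).mp z1.le
      have k2 := (h.le_iff _ _).mp z2.le
      rw [e] at k2
      rcases eq_or_eq_of_btw k1 k2 with k | k
      · exact z1.ne' (h.inj k)
      · exact z2.ne (h.inj (k.trans e.symm))

lemma pw_btw {x v : W} {s t : B} (h : s ≠ t) (hx : Btw cs a x v)
    (ns : Neg cs v (geo cs x (ee s))) (nt : Neg cs v (geo cs x (ee t))) :
    ∀ j, j ≤ M s t → Btw cs a (pw cs x t s j) v := by
  intro j
  induction j with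
  | zero => intro _; rw [pw_zero]; exact hx
  | succ j ih =>
    intro hj
    rw [pw_succ]
    refine (ih (by omega)).step ?_
    have := pw_rt (cs := cs) x t s j
    unfold rt at this
    rw [this]
    exact (nt.smul (qs_nonneg M h (Or.inr hj))).add (ns.smul (qs_nonneg M h (Or.inr (by omega))))

lemma pw_pos {x : W} {s t : B} (h : s ≠ t) (ps : Pos cs a (geo cs x (ee s)))
    (pt : Pos cs a (geo cs x (ee t))) {j : ℕ} (hj : j < M s t) :
    Pos cs a (geo cs (pw cs x t s j) (ee (al t s j))) := by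
  have := pw_rt (cs := cs) x t s j
  unfold rt at this
  rw [this]
  exact (pt.smul (qs_nonneg M h (Or.inr hj))).add (ps.smul (qs_nonneg M h (Or.inr hj.le)))

lemma pw_chain {x : W} {s t : B} (h : s ≠ t) (ps : Pos cs a (geo cs x (ee s)))
    (pt : Pos cs a (geo cs x (ee t))) :
    ∀ j, 1 ≤ j → j ≤ M s t → Btw cs a (x * cs.simple t) (pw cs x t s j) := by
  intro j h1
  induction j, h1 using Nat.le_induction with
  | base => intro _; rw [pw_one]; exact btw_right _ _
  | succ j h1 ih =>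
    intro hj
    refine (ih (by omega)).trans ?_
    rw [pw_succ]
    exact btw_up (pw_pos h ps pt hj)

lemma IvData.lub [Finite W] [PartialOrder α] {ι : α → W} (h : IvData cs a b ι) {x y z : α}
    {s t : B} (hst : s ≠ t) (ey : ι y = ι x * cs.simple s) (ez : ι z = ι x * cs.simple t)
    (ps : Pos cs a (geo cs (ι x) (ee s))) (pt : Pos cs a (geo cs (ι x) (ee t))) :
    ∃ c, ι c = pw cs (ι x) t s (M s t) ∧ IsLUB {y, z} c := by
  have m1 : 1 ≤ M s t := Nat.pos_of_ne_zero (M_ne_zero cs hst)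
  have key : ∀ v, Btw cs a (ι y) v → Btw cs a (ι z) v → Btw cs a (pw cs (ι x) t s (M s t)) v := by
    intro v v1 v2
    rw [ey] at v1
    rw [ez] at v2
    exact pw_btw hst ((btw_up ps).trans v1) (v1.neg (isRoot_geo_ee _ _) ps (neg_self _ _))
      (v2.neg (isRoot_geo_ee _ _) pt (neg_self _ _)) _ le_rfl
  obtain ⟨c, hc⟩ := h.surj _ (key b (h.mem y) (h.mem z))
  refine ⟨c, hc, ?_, ?_⟩
  · intro v hv
    rcases hv with rfl | rfl
    · rw [h.le_iff, hc, ey, pw_braid]
      exact pw_chain hst.symm pt ps _ m1 (by rw [M.symmetric])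
    · rw [h.le_iff, hc, ez]
      exact pw_chain hst ps pt _ m1 le_rfl
  · intro v hv
    rw [h.le_iff, hc]
    exact key _ ((h.le_iff _ _).mp (hv (by simp))) ((h.le_iff _ _).mp (hv (by simp)))

lemma IvData.finite [Finite W] [PartialOrder α] {ι : α → W} (h : IvData cs a b ι) : Finite α :=
  Finite.of_injective ι fun _ _ e => h.inj e

theorem IvData.exists_lub [Finite W] [PartialOrder α] {ι : α → W} (h : IvData cs a b ι)
    (x y : α) : ∃ c, IsLUB {x, y} c := by
  have := h.finite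
  obtain ⟨z, hz⟩ := h.surj a (btw_left a b)
  refine bez ?_ z x y ((h.le_iff _ _).mpr (by rw [hz]; exact btw_left _ _))
    ((h.le_iff _ _).mpr (by rw [hz]; exact btw_left _ _))
  intro x y z c1 c2
  obtain ⟨s, ey, ps⟩ := h.cov_iff.mp c1
  obtain ⟨t, ez, pt⟩ := h.cov_iff.mp c2
  by_cases e : s = t
  · have : y = z := h.inj (by rw [ey, ez, e])
    exact ⟨y, by rw [this]; simp⟩
  · obtain ⟨c, -, hc⟩ := h.lub e ey ez ps pt
    exact ⟨c, hc⟩

/-- the equivalence, in terms of walks -/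
def EqW (cs : CoxeterSystem M W) (Q : ℕ → B) (m : ℕ) (a b x y : W) : Prop :=
  ∃ u, RW cs Q u 0 m ∧ u 0 = a ∧ u m = b ∧ ConPos cs Q u 0 m x ∧ ConPos cs Q u 0 m y

variable {Q : ℕ → B} {m : ℕ}

lemma EqW.rev {x y : W} (h : EqW cs Q m a b x y) {Q' : ℕ → B}
    (hQ : ∀ k, k < m → Q' k = Q (m - 1 - k)) : EqW cs Q' m b a x y := by
  obtain ⟨u, h1, h2, h3, h4, h5⟩ := h
  exact ⟨_, h1.rev hQ, by simpa using h3, by simpa using h2, h4.rev hQ, h5.rev hQ⟩

lemma ConPos.congr {u u' : ℕ → W} {lo hi : ℕ} {p : W} (h : ConPos cs Q u lo hi p)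
    (e : ∀ k, lo ≤ k → k ≤ hi → u' k = u k) : ConPos cs Q u' lo hi p := by
  intro k k1 k2 k3
  rw [e k k1 k2.le, e (k + 1) (by omega) (by omega)] at k3
  have := h k k1 k2 k3
  unfold rt at this ⊢
  rw [e k k1 k2.le]
  exact this

lemma EqW.symm {x y : W} (h : EqW cs Q m a b x y) : EqW cs Q m a b y x := by
  obtain ⟨u, h1, h2, h3, h4, h5⟩ := h
  exact ⟨u, h1, h2, h3, h5, h4⟩

lemma EqW.trans {x y z : W} (h : EqW cs Q m a b x y) (h' : EqW cs Q m a b y z) :
    EqW cs Q m a b x z := by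
  obtain ⟨u, h1, h2, h3, h4, h5⟩ := h
  obtain ⟨v, k1, k2, k3, k4, k5⟩ := h'
  have := unique_conPos (Nat.zero_le m) h1 k1 (by rw [h2, k2]) (by rw [h3, k3]) h5 k4
  exact ⟨v, k1, k2, k3, h4.congr this, k5⟩

lemma EqW.refl (hne : ∃ u, RW cs Q u 0 m ∧ u 0 = a ∧ u m = b) {x : W} (hx : Btw cs a x b) :
    EqW cs Q m a b x x := by
  obtain ⟨u, h1, h2, h3⟩ := hne
  obtain ⟨v, k1, k2, k3, k4⟩ := exists_conPos (Nat.zero_le m) h1 (p := x) (by rw [h2, h3]; exact hx)
  exact ⟨v, k1, by rw [k2, h2], by rw [k3, h3], k4, k4⟩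

lemma IvData.equiv [PartialOrder α] {ι : α → W} (h : IvData cs a b ι)
    (hne : ∃ u, RW cs Q u 0 m ∧ u 0 = a ∧ u m = b) :
    Equivalence (fun x y => EqW cs Q m a b (ι x) (ι y)) :=
  ⟨fun x => EqW.refl hne (h.mem x), EqW.symm, EqW.trans⟩

lemma IvData.conn [PartialOrder α] {ι : α → W} (h : IvData cs a b ι) (x y : α)
    (hxy : EqW cs Q m a b (ι x) (ι y)) :
    EqvGen (fun x y => x ⋖ y ∧ EqW cs Q m a b (ι x) (ι y)) x y := by
  induction hn : cs.length ((ι x)⁻¹ * ι y) generalizing y with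
  | zero =>
    rw [cs.length_eq_zero_iff, inv_mul_eq_one] at hn
    rw [h.inj hn]; exact EqvGen.refl _
  | succ n ih =>
    have hne : ι y ≠ ι x := by
      intro e
      rw [e, inv_mul_cancel, cs.length_one] at hn
      omega
    obtain ⟨p, s, e, l1, l2⟩ := exists_step (cs := cs) hne
    have b1 : Btw cs (ι x) p (ι y) := by rw [e]; exact btw_up l2
    obtain ⟨z, rfl⟩ := h.surj p fun r hr p1 p2 => b1 r hr (h.mem x r hr p1 p2) (h.mem y r hr p1 p2)
    obtain ⟨u, h1, h2, h3, h4, h5⟩ := hxy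
    have h6 : ConPos cs Q u 0 m (ι z) := fun k k1 k2 k3 =>
      b1 _ (rt_root _ _ _) (h4 k k1 k2 k3) (h5 k k1 k2 k3)
    refine EqvGen.trans _ z _ (ih z ⟨u, h1, h2, h3, h4, h6⟩ (by omega)) ?_
    rcases (isRoot_geo_ee (cs := cs) (ι z) s).pos_or_neg a with c | c
    · exact EqvGen.rel _ _ ⟨h.cov_iff.mpr ⟨s, e, c⟩, ⟨u, h1, h2, h3, h6, h5⟩⟩
    · refine EqvGen.symm _ _ (EqvGen.rel _ _ ⟨h.cov_iff.mpr ⟨s, ?_, ?_⟩, ⟨u, h1, h2, h3, h5, h6⟩⟩)
      · rw [e, cs.simple_mul_simple_cancel_right]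
      · rw [e, geo_mul_simple_ee, pos_neg_iff]; exact c

theorem IvData.sup_compat [Finite W] [SemilatticeSup α] {ι : α → W} (h : IvData cs a b ι)
    {T : ℕ → B → ℝ} (hT : Timed M Q T 0 m) (hne : ∃ u, RW cs Q u 0 m ∧ u 0 = a ∧ u m = b)
    (x y z : α) (hxy : EqW cs Q m a b (ι x) (ι y)) : EqW cs Q m a b (ι (x ⊔ z)) (ι (y ⊔ z)) := by
  have := h.finite
  refine Pool.Agent.H176Z.sup_compat (r := fun x y => EqW cs Q m a b (ι x) (ι y)) (h.equiv hne)
    h.conn ?_ x y z hxy
  intro x y z c1 c2 ne ⟨u, h1, h2, h3, h4, h5⟩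
  obtain ⟨s, ey, ps⟩ := h.cov_iff.mp c1
  obtain ⟨t, ez, pt⟩ := h.cov_iff.mp c2
  have hst : s ≠ t := fun e => ne (h.inj (by rw [ey, ez, e]))
  have ns := (h.mem y).neg (isRoot_geo_ee _ _) ps (by rw [ey]; exact neg_self _ _)
  have nt := (h.mem z).neg (isRoot_geo_ee _ _) pt (by rw [ez]; exact neg_self _ _)
  obtain ⟨v, v1, v2, v3, v4⟩ := polygon (Nat.zero_le m) hT h1 hst (M_ne_zero cs hst) h4
    (by rw [← ey]; exact h5) (by rw [h2]; exact ps) (by rw [h2]; exact pt) (by rw [h3]; exact ns)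
    (by rw [h3]; exact nt)
  obtain ⟨c, hc, hl⟩ := h.lub hst ey ez ps pt
  rw [isLUB_pair.unique hl]
  have key : ∀ j, 1 ≤ j → j ≤ M s t → ∃ w, ι w = pw cs (ι x) t s j ∧
      ReflTransGen (fun x y => x ⋖ y ∧ EqW cs Q m a b (ι x) (ι y)) z w := by
    intro j j1
    induction j, j1 using Nat.le_induction with
    | base => intro _; exact ⟨z, by rw [pw_one, ez], ReflTransGen.refl⟩
    | succ j j1 ih =>
      intro j2
      obtain ⟨w, w1, w2⟩ := ih (by omega)
      obtain ⟨w', w3⟩ := h.surj _ (pw_btw hst (h.mem x) ns nt (j + 1) j2)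
      refine ⟨w', w3, w2.tail ⟨h.cov_iff.mpr ⟨al t s j, ?_, ?_⟩, v, v1, by rw [v2, h2],
        by rw [v3, h3], ?_, ?_⟩⟩
      · rw [w3, w1, pw_succ]
      · rw [w1]; exact pw_pos hst ps pt j2
      · rw [w1]; exact v4 j j1 (by omega)
      · rw [w3]; exact v4 (j + 1) (by omega) j2
  obtain ⟨w, w1, w2⟩ := key _ (Nat.pos_of_ne_zero (M_ne_zero cs hst)) le_rfl
  rw [h.inj (hc.trans w1.symm)]
  exact w2

theorem IvData.exists_con [Finite W] [Lattice α] {ι : α → W} (h : IvData cs a b ι)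
    {T : ℕ → B → ℝ} (hT : Timed M Q T 0 m) (hne : ∃ u, RW cs Q u 0 m ∧ u 0 = a ∧ u m = b) :
    ∃ c : LatticeCon α, ∀ x y, c.r x y ↔ EqW cs Q m a b (ι x) (ι y) := by
  have eqv := h.equiv hne
  have s1 := h.sup_compat hT hne
  have hQ : ∀ k, k < m → (fun k => Q (m - 1 - k)) k = Q (m - 1 - k) := fun _ _ => rfl
  have hQ' : ∀ k, k < m → Q k = (fun k => Q (m - 1 - k)) (m - 1 - k) := by
    intro k hk
    have : m - 1 - (m - 1 - k) = k := by omega
    simp only [this]
  have s2 : ∀ x y z : α, EqW cs Q m a b (ι x) (ι y) → EqW cs Q m a b (ι (x ⊓ z)) (ι (y ⊓ z)) := by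
    intro x y z hxy
    obtain ⟨u, u1, u2, u3⟩ := hne
    exact (h.dual.sup_compat (hT.rev hQ) ⟨_, u1.rev hQ, by simpa using u3, by simpa using u2⟩
      (OrderDual.toDual x) (OrderDual.toDual y) (OrderDual.toDual z) (hxy.rev hQ)).rev hQ'
  refine ⟨⟨⟨fun x y => EqW cs Q m a b (ι x) (ι y), eqv⟩, ?_, ?_⟩, fun _ _ => Iff.rfl⟩
  · intro w x y z h1 h2
    refine EqW.trans (s2 w x y h1) ?_
    rw [inf_comm x y, inf_comm x z]
    exact s2 y z x h2
  · intro w x y z h1 h2
    refine EqW.trans (s1 w x y h1) ?_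
    rw [sup_comm x y, sup_comm x z]
    exact s1 y z x h2

end Pool.Agent.H176Z
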